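import Pool.Agent.Lib.MP_5bcdfb_an.TS.Main

/-!
# MP_5bcdfb, TS: the sphere as a type, short statements
-/

set_option autoImplicit false

namespace Pool.Agent.Lib.MP5bcdfb.TS

open MeasureTheory Set TopologicalSpace Filter Topology

/-- the unit sphere `S^(n-1)` of `ℝ^n` -/
def Sph (n : ℕ) : Type := Metric.sphere (0 : EuclideanSpace ℝ (Fin n)) 1

/-- with the Euclidean distance -/
noncomputable instance sphMetric (n : ℕ) : MetricSpace (Sph n) :=
  Subtype.metricSpace (α := EuclideanSpace ℝ (Fin n))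

instance sphCompact (n : ℕ) : CompactSpace (Sph n) :=
  Metric.sphere.compactSpace (0 : EuclideanSpace ℝ (Fin n)) 1

/-- locally constant on a dense open set -/
def DenseLC {K : Type} [TopologicalSpace K] (f : C(K, ℝ)) : Prop :=
  ∃ U : Set K, IsOpen U ∧ Dense U ∧ ∀ t ∈ U, ∀ᶠ s in 𝓝 t, f s = f t

/-- Lipschitz -/
def Lip {K : Type} [MetricSpace K] (f : C(K, ℝ)) : Prop :=
  ∃ L : ℝ, ∀ s t : K, |f s - f t| ≤ L * dist s t

theorem sph_dense (n : ℕ) (hn : 2 ≤ n) (V : C(Sph n, ℝ) → ℝ) (hV : IsVal V)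
    (h : ∀ f : C(Sph n, ℝ), 0 ≤ f → DenseLC f → ContAt V f) : UCB V :=
  sphere_dense allFWD hn V hV h

theorem sph_lip (n : ℕ) (hn : 2 ≤ n) : ∃ V : C(Sph n, ℝ) → ℝ, IsVal V ∧
    (∀ f : C(Sph n, ℝ), 0 ≤ f → Lip f → ContAt V f) ∧ ¬ UCB V := by
  obtain ⟨V, h1, h2, h3⟩ := sphere_lip specBWD allLIP hn
  refine ⟨V, h1, ?_, h3⟩
  intro f hf hL
  refine h2 f hf ?_
  obtain ⟨L, hL⟩ := hL
  refine ⟨Real.toNNReal L, LipschitzWith.of_dist_le_mul fun s t => ?_⟩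
  rw [Real.dist_eq]
  refine (hL s t).trans ?_
  exact mul_le_mul_of_nonneg_right (Real.le_coe_toNNReal L) dist_nonneg

end Pool.Agent.Lib.MP5bcdfb.TS
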