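import Pool.Agent.Lib.MP_5bcdfb_an.TS.Spec

set_option autoImplicit false

namespace Pool.Agent.Lib.MP5bcdfb.TS

open MeasureTheory Set TopologicalSpace Filter Topology

namespace BDDM

/-- increments supported in `U`, with values in `[c, d]`, are at most `B` -/
def Bd {K : Type} [TopologicalSpace K] (V : C(K, ℝ) → ℝ) (U : Set K) (c d B : ℝ) : Prop :=
  ∀ p q : C(K, ℝ), 0 ≤ p → (∀ t, c ≤ p t) → (∀ t, p t ≤ q t) → (∀ t, q t ≤ d) →
    tsupport (fun t => q t - p t) ⊆ U → |V q - V p| ≤ B

lemma tsupp_mono {K : Type} [TopologicalSpace K] (f g : K → ℝ) (h : ∀ t, g t = 0 → f t = 0) :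
    tsupport f ⊆ tsupport g := by
  apply closure_mono
  intro t ht
  rw [Function.mem_support] at ht ⊢
  intro h0
  exact ht (h t h0)

/-- the box around a point -/
lemma box (hLOC : SpecLOC) {K : Type} [MetricSpace K] [CompactSpace K] (V : C(K, ℝ) → ℝ) (hV : IsVal V)
    (f : C(K, ℝ)) (hf : 0 ≤ f) (hc : ContAt V f) (t₀ : K) :
    ∃ (r : ℝ) (W : Set K), 0 < r ∧ IsOpen W ∧ t₀ ∈ W ∧ Bd V W (f t₀ - r) (f t₀ + r) 2 := by
  obtain ⟨r, hr, hr1⟩ := hc 1 one_pos
  refine ⟨r / 4, {s | |f s - f t₀| < r / 4}, by positivity, ?_, ?_, ?_⟩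
  · exact isOpen_lt (by fun_prop) continuous_const
  · simp only [mem_setOf_eq, sub_self, abs_zero]; positivity
  · intro p q hp hcp hpq hqd hsup
    set W : Set K := {s | |f s - f t₀| < r / 4} with hW
    have hWo : IsOpen W := isOpen_lt (by fun_prop) continuous_const
    set S := tsupport (fun t => q t - p t) with hS
    have hScl : IsClosed S := isClosed_tsupport _
    obtain ⟨φ, hφ0, hφ1, hφI⟩ := exists_continuous_zero_one_of_isClosed (s := Wᶜ) (t := S)
      hWo.isClosed_compl hScl (by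
        rw [Set.disjoint_left]; intro x hx hx2; exact hx (hsup hx2))
    have hφ01 : ∀ s, 0 ≤ φ s ∧ φ s ≤ 1 := fun s => hφI s
    have hp0 : ∀ s, 0 ≤ p s := fun s => hp s
    have hf0 : ∀ s, 0 ≤ f s := fun s => hf s
    set p' : C(K, ℝ) := f + φ * (p - f) with hp'
    set q' : C(K, ℝ) := p' + (q - p) with hq'
    have ep : ∀ s, p' s = f s + φ s * (p s - f s) := fun s => rfl
    have eq' : ∀ s, q' s = p' s + (q s - p s) := fun s => rfl
    have hp'0 : 0 ≤ p' := by
      intro s
      show (0 : ℝ) ≤ p' s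
      rw [ep s]
      obtain ⟨h1, h2⟩ := hφ01 s
      have := hp0 s; have := hf0 s
      nlinarith [mul_nonneg h1 (hp0 s), mul_nonneg (sub_nonneg.2 h2) (hf0 s)]
    have hpq' : p' ≤ q' := by
      intro s
      show p' s ≤ q' s
      rw [eq' s]
      linarith [hpq s]
    have hq'0 : 0 ≤ q' := le_trans hp'0 hpq'
    have hS1 : ∀ s, s ∉ S → q s = p s := by
      intro s hs
      by_contra h
      apply hs
      apply subset_tsupport
      rw [Function.mem_support]
      intro h0
      exact h (by linarith)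
    have hS2 : ∀ s ∈ S, φ s = 1 := fun s hs => hφ1 hs
    have hW0 : ∀ s, s ∉ W → φ s = 0 := fun s hs => hφ0 hs
    have hWin : ∀ s ∈ W, |p s - f s| ≤ r / 2 := by
      intro s hs
      have h1 : |f s - f t₀| < r / 4 := hs
      rw [abs_lt] at h1
      have h2 := hcp s
      have h3 := hpq s
      have h4 := hqd s
      rw [abs_le]
      constructor <;> linarith [h1.1, h1.2]
    have hWin2 : ∀ s ∈ W, |q s - f s| ≤ r / 2 := by
      intro s hs
      have h1 : |f s - f t₀| < r / 4 := hs
      rw [abs_lt] at h1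
      have h2 := hcp s
      have h3 := hpq s
      have h4 := hqd s
      rw [abs_le]
      constructor <;> linarith [h1.1, h1.2]
    have hp'n : ∀ s, |p' s - f s| ≤ r / 2 := by
      intro s
      rw [ep s]
      by_cases hs : s ∈ W
      · have h1 := hWin s hs
        obtain ⟨h2, h3⟩ := hφ01 s
        have : f s + φ s * (p s - f s) - f s = φ s * (p s - f s) := by ring
        rw [this, abs_mul, abs_of_nonneg h2]
        calc φ s * |p s - f s| ≤ 1 * |p s - f s| := by gcongr
          _ ≤ r / 2 := by linarith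
      · rw [hW0 s hs]; simp; positivity
    have hq'n : ∀ s, |q' s - f s| ≤ r / 2 := by
      intro s
      by_cases hs : s ∈ S
      · have h1 : q' s = q s := by
          rw [eq' s, ep s, hS2 s hs]; ring
        rw [h1]
        exact hWin2 s (hsup hs)
      · have h1 : q' s = p' s := by
          rw [eq' s, hS1 s hs]; ring
        rw [h1]
        exact hp'n s
    have hn1 : ‖p' - f‖ < r := by
      have : ‖p' - f‖ ≤ r / 2 := by
        rw [ContinuousMap.norm_le _ (by positivity)]
        intro s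
        exact hp'n s
      linarith
    have hn2 : ‖q' - f‖ < r := by
      have : ‖q' - f‖ ≤ r / 2 := by
        rw [ContinuousMap.norm_le _ (by positivity)]
        intro s
        exact hq'n s
      linarith
    have hL : V q - V p = V q' - V p' := by
      apply hLOC K V hV p q p' q' hp hp'0 (fun s => hpq s) hpq'
      intro s
      by_cases hs : s ∈ S
      · left
        constructor
        · rw [ep s, hS2 s hs]; ring
        · rw [eq' s, ep s, hS2 s hs]; ring
      · right
        constructor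
        · exact (hS1 s hs).symm
        · rw [eq' s, hS1 s hs]; ring
    have hb1 := hr1 p' hp'0 hn1
    have hb2 := hr1 q' hq'0 hn2
    rw [hL]
    rw [abs_lt] at hb1 hb2
    rw [abs_le]
    constructor <;> linarith [hb1.1, hb1.2, hb2.1, hb2.2]

/-- adjacent boxes in the values -/
lemma chain {K : Type} [MetricSpace K] [CompactSpace K] (V : C(K, ℝ) → ℝ) (hV : IsVal V) (U U' : Set K)
    (c c' d B B' : ℝ) (hc : 0 ≤ c) (hcc : c' ≤ c) (h : Bd V U 0 c B) (h' : Bd V U' c' d B') (hcd : c ≤ d) :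
    Bd V (U ∩ U') 0 d (B + B') := by
  intro p q hp hp0 hpq hqd hsup
  set k : C(K, ℝ) := ContinuousMap.const K c with hk
  have hk0 : 0 ≤ k := fun s => hc
  have hq : 0 ≤ q := fun s => le_trans (hp s) (hpq s)
  have e1 := hV p k hp hk0
  have e2 := hV q k hq hk0
  have a1 : |V (q ⊔ k) - V (p ⊔ k)| ≤ B' := by
    apply h' (p ⊔ k) (q ⊔ k)
    · intro s
      show (0 : ℝ) ≤ max (p s) c
      exact le_max_of_le_left (hp s)
    · intro s
      show c' ≤ max (p s) c
      exact le_max_of_le_right hcc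
    · intro s
      show max (p s) c ≤ max (q s) c
      exact max_le_max (hpq s) le_rfl
    · intro s
      show max (q s) c ≤ d
      exact max_le (hqd s) hcd
    · refine subset_trans (subset_trans (tsupp_mono _ _ ?_) hsup) inter_subset_right
      intro s hs
      have : q s = p s := by linarith
      show max (q s) c - max (p s) c = 0
      rw [this]; ring
  have a2 : |V (q ⊓ k) - V (p ⊓ k)| ≤ B := by
    apply h (p ⊓ k) (q ⊓ k)
    · intro s
      show (0 : ℝ) ≤ min (p s) c
      exact le_min (hp s) hc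
    · intro s
      show (0 : ℝ) ≤ min (p s) c
      exact le_min (hp s) hc
    · intro s
      show min (p s) c ≤ min (q s) c
      exact min_le_min (hpq s) le_rfl
    · intro s
      show min (q s) c ≤ c
      exact min_le_right _ _
    · refine subset_trans (subset_trans (tsupp_mono _ _ ?_) hsup) inter_subset_left
      intro s hs
      have : q s = p s := by linarith
      show min (q s) c - min (p s) c = 0
      rw [this]; ring
  rw [abs_le] at a1 a2 ⊢
  constructor <;> linarith [a1.1, a1.2, a2.1, a2.2]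

/-- a neighbourhood for all values up to `m` -/
lemma nbhd (hLOC : SpecLOC) {K : Type} [MetricSpace K] [CompactSpace K] (V : C(K, ℝ) → ℝ) (hV : IsVal V) (t : K)
    (h : ∀ x : ℝ, 0 ≤ x → ∃ f : C(K, ℝ), 0 ≤ f ∧ f t = x ∧ ContAt V f) (m : ℝ) :
    ∃ (W : Set K) (B : ℝ), IsOpen W ∧ t ∈ W ∧ Bd V W 0 m B := by
  set S : Set ℝ := {c | 0 ≤ c ∧ ∃ (W : Set K) (B : ℝ), IsOpen W ∧ t ∈ W ∧ Bd V W 0 c B} with hS
  have h0 : (0 : ℝ) ∈ S := by
    refine ⟨le_rfl, univ, 0, isOpen_univ, mem_univ _, ?_⟩
    intro p q hp hp0 hpq hqd _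
    have : q = p := by
      ext s
      apply le_antisymm
      · exact le_trans (hqd s) (hp0 s)
      · exact hpq s
    rw [this]; simp
  have hmono : ∀ c ∈ S, ∀ d : ℝ, d ≤ c → ∃ (W : Set K) (B : ℝ), IsOpen W ∧ t ∈ W ∧ Bd V W 0 d B := by
    rintro c ⟨_, W, B, hW, ht, hB⟩ d hd
    exact ⟨W, B, hW, ht, fun p q hp hp0 hpq hqd hs => hB p q hp hp0 hpq (fun s => le_trans (hqd s) hd) hs⟩
  by_contra hne
  have hbd : BddAbove S := by
    refine ⟨m, ?_⟩
    intro c hc
    by_contra hcm
    push Not at hcm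
    exact hne (hmono c hc m hcm.le)
  set s := sSup S with hs
  have hs0 : 0 ≤ s := le_csSup hbd h0
  obtain ⟨f, hf, hft, hfc⟩ := h s hs0
  obtain ⟨r, W, hr, hWo, htW, hBd⟩ := box hLOC V hV f hf hfc t
  rw [hft] at hBd
  obtain ⟨c, hcS, hc⟩ := exists_lt_of_lt_csSup ⟨0, h0⟩ (show s - r < sSup S by rw [← hs]; linarith)
  have hcs : c ≤ s := le_csSup hbd hcS
  obtain ⟨hc0, W', B, hWo', htW', hBd'⟩ := hcS
  have hnew := chain V hV W' W c (s - r) (s + r) B 2 hc0 hc.le hBd' hBd (by linarith)
  have hin : s + r ∈ S := ⟨by linarith, W' ∩ W, B + 2, hWo'.inter hWo, ⟨htW', htW⟩, hnew⟩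
  have := le_csSup hbd hin
  linarith

/-- two open sets -/
lemma glue {K : Type} [MetricSpace K] [CompactSpace K] (V : C(K, ℝ) → ℝ) (U₁ U₂ : Set K)
    (m B₁ B₂ : ℝ) (hU₁ : IsOpen U₁) (hU₂ : IsOpen U₂) (h₁ : Bd V U₁ 0 m B₁) (h₂ : Bd V U₂ 0 m B₂) :
    Bd V (U₁ ∪ U₂) 0 m (B₁ + B₂) := by
  intro p q hp hp0 hpq hqd hsup
  set S := tsupport (fun t => q t - p t) with hS
  have hScl : IsClosed S := isClosed_tsupport _
  have hA : IsClosed (S \ U₂) := hScl.sdiff hU₂
  have hAU : S \ U₂ ⊆ U₁ := by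
    rintro x ⟨hx, hx2⟩
    rcases hsup hx with h | h
    · exact h
    · exact absurd h hx2
  obtain ⟨V1, hV1o, hV1a, hV1b⟩ := normal_exists_closure_subset hA hU₁ hAU
  obtain ⟨V2, hV2o, hV2a, hV2b⟩ := normal_exists_closure_subset isClosed_closure hU₁ hV1b
  obtain ⟨φ, hφ0, hφ1, hφI⟩ := exists_continuous_zero_one_of_isClosed (s := V2ᶜ) (t := closure V1)
      hV2o.isClosed_compl isClosed_closure (by
        rw [Set.disjoint_left]; intro x hx hx2; exact hx (hV2a hx2))
  have hφ01 : ∀ s, 0 ≤ φ s ∧ φ s ≤ 1 := fun s => hφI s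
  set g : C(K, ℝ) := p + φ * (q - p) with hg
  have eg : ∀ s, g s = p s + φ s * (q s - p s) := fun s => rfl
  have hpg : ∀ s, p s ≤ g s := by
    intro s
    rw [eg s]
    nlinarith [mul_nonneg (hφ01 s).1 (sub_nonneg.2 (hpq s))]
  have hgq : ∀ s, g s ≤ q s := by
    intro s
    rw [eg s]
    nlinarith [mul_nonneg (sub_nonneg.2 (hφ01 s).2) (sub_nonneg.2 (hpq s))]
  have a1 : |V g - V p| ≤ B₁ := by
    apply h₁ p g hp hp0 hpg (fun s => le_trans (hgq s) (hqd s))
    refine subset_trans ?_ hV2b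
    have : Function.support (fun t => g t - p t) ⊆ V2 := by
      intro x hx
      by_contra hx2
      apply hx
      show g x - p x = 0
      rw [eg x, hφ0 hx2]
      simp
    exact closure_mono this
  have a2 : |V q - V g| ≤ B₂ := by
    apply h₂ g q (fun s => le_trans (hp s) (hpg s)) (fun s => le_trans (hp0 s) (hpg s)) hgq hqd
    intro x hx
    have hxS : x ∈ S := by
      refine tsupp_mono _ _ ?_ hx
      intro s hs
      show q s - g s = 0
      rw [eg s]
      have : q s = p s := by linarith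
      rw [this]; ring
    by_contra hxU
    have hxV : x ∈ V1 := hV1a ⟨hxS, hxU⟩
    have hsub : Function.support (fun t => q t - g t) ⊆ V1ᶜ := by
      intro y hy hy2
      apply hy
      show q y - g y = 0
      have : φ y = 1 := hφ1 (subset_closure hy2)
      rw [eg y, this]; ring
    have := closure_minimal hsub hV1o.isClosed_compl hx
    exact this hxV
  rw [abs_le] at a1 a2 ⊢
  constructor <;> linarith [a1.1, a1.2, a2.1, a2.2]

end BDDM

open BDDM in
theorem specBDD (hLOC : SpecLOC) : SpecBDD := by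
  intro K _ _ V hV h m
  have hcomp : IsCompact (univ : Set K) := isCompact_univ
  have key : ∃ (U : Set K) (B : ℝ), IsOpen U ∧ (univ : Set K) ⊆ U ∧ Bd V U 0 m B := by
    refine hcomp.induction_on (p := fun s => ∃ (U : Set K) (B : ℝ), IsOpen U ∧ s ⊆ U ∧ Bd V U 0 m B) ?_ ?_ ?_ ?_
    · refine ⟨∅, 0, isOpen_empty, le_rfl, ?_⟩
      intro p q hp hp0 hpq hqd hs
      have : q = p := by
        ext s
        by_contra hne
        have : s ∈ tsupport (fun t => q t - p t) := by
          apply subset_tsupport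
          rw [Function.mem_support]
          intro h0
          exact hne (by linarith)
        exact (hs this).elim
      rw [this]; simp
    · rintro s t hst ⟨U, B, hU, hsU, hB⟩
      exact ⟨U, B, hU, hst.trans hsU, hB⟩
    · rintro s t ⟨U, B, hU, hsU, hB⟩ ⟨U', B', hU', hsU', hB'⟩
      exact ⟨U ∪ U', B + B', hU.union hU', union_subset_union hsU hsU', glue V U U' m B B' hU hU' hB hB'⟩
    · intro t _
      obtain ⟨W, B, hW, ht, hB⟩ := nbhd hLOC V hV t (h t) m
      exact ⟨W, mem_nhdsWithin_of_mem_nhds (hW.mem_nhds ht), W, B, hW, le_rfl, hB⟩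
  obtain ⟨U, B, _, hU, hB⟩ := key
  refine ⟨|V 0| + B, ?_⟩
  intro f hf hfm
  have := hB 0 f le_rfl (fun t => le_rfl) (fun t => hf t) hfm (fun x _ => hU (mem_univ x))
  rw [abs_le] at this ⊢
  have h1 := neg_abs_le (V 0)
  have h2 := le_abs_self (V 0)
  constructor <;> linarith [this.1, this.2]

end Pool.Agent.Lib.MP5bcdfb.TS
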