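import Pool.Agent.Lib.MP_5bcdfb_an.TS.Spec

/-!
# MP_5bcdfb_an, TS, BWD: the criterion is necessary (helper94)
-/

set_option autoImplicit false

namespace Pool.Agent.Lib.MP5bcdfb.TS

open MeasureTheory Set TopologicalSpace Filter Topology

namespace BWDM

variable {K : Type} [MetricSpace K] [CompactSpace K] [MeasurableSpace K] [BorelSpace K]

/-- the valuation of a measure and a function -/
noncomputable def W (a : C(K, ℝ)) (μ : Measure K) (f : C(K, ℝ)) : ℝ := (μ {t | a t < f t}).toReal

lemma meas_lt (a f : C(K, ℝ)) : MeasurableSet {t | a t < f t} :=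
  (isOpen_lt a.continuous f.continuous).measurableSet

lemma isVal (a : C(K, ℝ)) (μ : Measure K) [IsFiniteMeasure μ] : IsVal (W a μ) := by
  intro f g _ _
  have h1 : {t | a t < (f ⊔ g) t} = {t | a t < f t} ∪ {t | a t < g t} := by
    ext t
    simp [ContinuousMap.sup_apply, lt_sup_iff]
  have h2 : {t | a t < (f ⊓ g) t} = {t | a t < f t} ∩ {t | a t < g t} := by
    ext t
    simp [ContinuousMap.inf_apply, lt_inf_iff]
  have h3 := measure_union_add_inter (μ := μ) {t | a t < f t} (meas_lt a g)
  unfold W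
  rw [h1, h2, ← ENNReal.toReal_add (measure_ne_top _ _) (measure_ne_top _ _),
    ← ENNReal.toReal_add (measure_ne_top _ _) (measure_ne_top _ _), h3]

lemma small (a f : C(K, ℝ)) (μ : Measure K) [IsFiniteMeasure μ] (h : μ {t | f t = a t} = 0)
    (ε : ℝ) (hε : 0 < ε) : ∃ k : ℕ, (μ {t | |f t - a t| ≤ 1 / ((k : ℝ) + 1)}).toReal < ε := by
  have hcl : ∀ k : ℕ, MeasurableSet {t | |f t - a t| ≤ 1 / ((k : ℝ) + 1)} := fun k =>
    (isClosed_le ((f.continuous.sub a.continuous).abs) continuous_const).measurableSet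
  have hanti : Antitone (fun k : ℕ => {t | |f t - a t| ≤ 1 / ((k : ℝ) + 1)}) := by
    intro k l hkl t ht
    have ht' : |f t - a t| ≤ 1 / ((l : ℝ) + 1) := ht
    show |f t - a t| ≤ 1 / ((k : ℝ) + 1)
    exact ht'.trans (one_div_le_one_div_of_le (by positivity) (by
      have : (k : ℝ) ≤ l := by exact_mod_cast hkl
      linarith))
  have hint : (⋂ k : ℕ, {t | |f t - a t| ≤ 1 / ((k : ℝ) + 1)}) = {t | f t = a t} := by
    ext t
    simp only [mem_iInter, mem_setOf_eq]
    constructor
    · intro ht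
      by_contra hne
      have hpos : 0 < |f t - a t| := abs_pos.2 (sub_ne_zero.2 hne)
      obtain ⟨n, hn⟩ := exists_nat_one_div_lt hpos
      exact absurd (ht n) (not_le.2 hn)
    · intro ht k
      rw [ht, sub_self, abs_zero]
      positivity
  have hlim := tendsto_measure_iInter_atTop (μ := μ)
    (s := fun k : ℕ => {t | |f t - a t| ≤ 1 / ((k : ℝ) + 1)})
    (fun k => (hcl k).nullMeasurableSet) hanti ⟨0, measure_ne_top _ _⟩
  rw [hint, h] at hlim
  have hev := hlim.eventually (gt_mem_nhds (show (0 : ENNReal) < ENNReal.ofReal ε by simpa using hε))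
  obtain ⟨k, hk⟩ := hev.exists
  refine ⟨k, ?_⟩
  rw [← ENNReal.toReal_ofReal hε.le]
  exact (ENNReal.toReal_lt_toReal (measure_ne_top _ _) ENNReal.ofReal_ne_top).2 hk

lemma le_add (a f g : C(K, ℝ)) (μ : Measure K) [IsFiniteMeasure μ] (S : Set K)
    (h : {t | a t < g t} ⊆ {t | a t < f t} ∪ S) : W a μ g ≤ W a μ f + (μ S).toReal := by
  unfold W
  rw [← ENNReal.toReal_add (measure_ne_top _ _) (measure_ne_top _ _)]
  exact ENNReal.toReal_mono (ENNReal.add_ne_top.2 ⟨measure_ne_top _ _, measure_ne_top _ _⟩)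
    ((measure_mono h).trans (measure_union_le _ _))

lemma contAt (a f : C(K, ℝ)) (μ : Measure K) [IsFiniteMeasure μ] (h : μ {t | f t = a t} = 0) :
    ContAt (W a μ) f := by
  intro ε hε
  obtain ⟨k, hk⟩ := small a f μ h ε hε
  refine ⟨1 / ((k : ℝ) + 1), by positivity, fun g _ hg => ?_⟩
  have hpt : ∀ t, |g t - f t| < 1 / ((k : ℝ) + 1) := fun t =>
    lt_of_le_of_lt (by simpa using (g - f).norm_coe_le_norm t) hg
  have h1 : W a μ g ≤ W a μ f + (μ {t | |f t - a t| ≤ 1 / ((k : ℝ) + 1)}).toReal := by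
    apply le_add
    intro t ht
    have ht' : a t < g t := ht
    by_cases h' : a t < f t
    · exact Or.inl h'
    · right
      show |f t - a t| ≤ _
      have := hpt t
      rw [abs_lt] at this
      rw [abs_le]
      constructor <;> linarith [this.1, this.2, not_lt.1 h']
  have h2 : W a μ f ≤ W a μ g + (μ {t | |f t - a t| ≤ 1 / ((k : ℝ) + 1)}).toReal := by
    apply le_add
    intro t ht
    have ht' : a t < f t := ht
    by_cases h' : a t < g t
    · exact Or.inl h'
    · right
      show |f t - a t| ≤ _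
      have := hpt t
      rw [abs_lt] at this
      rw [abs_le]
      constructor <;> linarith [this.1, this.2, not_lt.1 h']
  rw [abs_lt]
  constructor <;> linarith

lemma not_ucb (a : C(K, ℝ)) (μ : Measure K) [IsFiniteMeasure μ] (ha : 0 ≤ a) (hμ : μ ≠ 0) :
    ¬ UCB (W a μ) := by
  intro hU
  have hpos : 0 < (μ univ).toReal := ENNReal.toReal_pos (by simpa using hμ) (measure_ne_top _ _)
  obtain ⟨δ, hδ, H⟩ := hU (‖a‖ + 1) ((μ univ).toReal / 2) (by positivity) (by positivity)
  obtain ⟨η, hη⟩ : ∃ η : ℝ, η = min δ 1 / 2 := ⟨_, rfl⟩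
  have hη0 : 0 < η := by rw [hη]; positivity
  have hη1 : η < δ := by
    rw [hη]
    have := min_le_left δ 1
    linarith
  have hη2 : η ≤ 1 := by
    rw [hη]
    have := min_le_right δ 1
    linarith
  have hn : ‖(ContinuousMap.const K η : C(K, ℝ))‖ ≤ η := by
    rw [ContinuousMap.norm_le _ hη0.le]
    intro t
    simp [abs_of_pos hη0]
  have h0 : (0 : C(K, ℝ)) ≤ a + ContinuousMap.const K η := by
    intro t
    have h1 : (0 : ℝ) ≤ a t := ha t
    show (0 : ℝ) ≤ a t + η
    linarith
  have hH := H a (a + ContinuousMap.const K η) ha h0 (by linarith)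
    ((norm_add_le _ _).trans (by linarith)) (by
      rw [show a - (a + ContinuousMap.const K η) = - ContinuousMap.const K η by abel, norm_neg]
      linarith)
  have e1 : W a μ a = 0 := by
    unfold W
    simp
  have e2 : W a μ (a + ContinuousMap.const K η) = (μ univ).toReal := by
    unfold W
    congr 2
    ext t
    simp [hη0]
  rw [e1, e2, zero_sub, abs_neg, abs_of_pos hpos] at hH
  linarith

end BWDM

open BWDM

theorem specBWD : SpecBWD := by
  intro K _ _ _ _ D _ H a μ _ ha hμ
  by_contra hcon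
  push Not at hcon
  have h0 : ∀ f ∈ D, μ {t | f t = a t} = 0 := fun f hf => le_antisymm (hcon f hf) bot_le
  exact not_ucb a μ ha hμ (H (W a μ) (isVal a μ) fun f hf => contAt a f μ (h0 f hf))

end Pool.Agent.Lib.MP5bcdfb.TS
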