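import Pool.Agent.Lib.MP_5bcdfb_an.TS.Spec

/-!
# CAN: a Cantor function without Cantor sets
-/

set_option autoImplicit false

namespace Pool.Agent.Lib.MP5bcdfb.TS

open MeasureTheory Set TopologicalSpace Filter Topology

namespace CANM

/-- the digits -/
noncomputable def b (k : ℕ) (y : ℝ) : ℝ := ((⌊(2 : ℝ) ^ (k + 1) * y⌋ - 2 * ⌊(2 : ℝ) ^ k * y⌋ : ℤ) : ℝ)

lemma floor_two (k : ℕ) (y : ℝ) : 2 * ⌊(2 : ℝ) ^ k * y⌋ ≤ ⌊(2 : ℝ) ^ (k + 1) * y⌋ ∧
    ⌊(2 : ℝ) ^ (k + 1) * y⌋ ≤ 2 * ⌊(2 : ℝ) ^ k * y⌋ + 1 := by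
  have h1 := Int.floor_le ((2 : ℝ) ^ k * y)
  have h2 := Int.lt_floor_add_one ((2 : ℝ) ^ k * y)
  have h3 : (2 : ℝ) ^ (k + 1) * y = 2 * ((2 : ℝ) ^ k * y) := by ring
  constructor
  · rw [Int.le_floor, h3]
    push_cast
    linarith
  · have : ⌊(2 : ℝ) ^ (k + 1) * y⌋ < 2 * ⌊(2 : ℝ) ^ k * y⌋ + 2 := by
      rw [Int.floor_lt, h3]
      push_cast
      linarith
    omega

lemma b_cases (k : ℕ) (y : ℝ) : b k y = 0 ∨ b k y = 1 := by
  obtain ⟨h1, h2⟩ := floor_two k y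
  have : ⌊(2 : ℝ) ^ (k + 1) * y⌋ - 2 * ⌊(2 : ℝ) ^ k * y⌋ = 0 ∨
      ⌊(2 : ℝ) ^ (k + 1) * y⌋ - 2 * ⌊(2 : ℝ) ^ k * y⌋ = 1 := by omega
  rcases this with h | h
  · left; rw [b, h]; norm_num
  · right; rw [b, h]; norm_num

lemma b_nonneg (k : ℕ) (y : ℝ) : 0 ≤ b k y := by
  rcases b_cases k y with h | h <;> simp [h]

lemma b_le (k : ℕ) (y : ℝ) : b k y ≤ 1 := by
  rcases b_cases k y with h | h <;> simp [h]

/-- the terms -/
noncomputable def t (y : ℝ) (k : ℕ) : ℝ := 2 * b k y * (1 / 3) ^ (k + 1)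

/-- the function `π` -/
noncomputable def p (y : ℝ) : ℝ := ∑' k, t y k

lemma t_nonneg (y : ℝ) (k : ℕ) : 0 ≤ t y k := by
  have := b_nonneg k y
  unfold t
  positivity

lemma t_le (y : ℝ) (k : ℕ) : t y k ≤ 2 * (1 / 3) ^ (k + 1) := by
  have h := b_le k y
  have h3 : (0 : ℝ) ≤ (1 / 3) ^ (k + 1) := by positivity
  unfold t
  nlinarith [mul_nonneg (sub_nonneg.2 h) h3]

lemma hgeo (n : ℕ) : HasSum (fun k : ℕ => (2 : ℝ) * (1 / 3) ^ (k + n + 1)) ((1 / 3) ^ n) := by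
  have h := hasSum_geometric_of_lt_one (r := (1 / 3 : ℝ)) (by norm_num) (by norm_num)
  have h2 := h.mul_left (2 * (1 / 3 : ℝ) ^ (n + 1))
  have e1 : (2 * (1 / 3 : ℝ) ^ (n + 1)) * (1 - 1 / 3)⁻¹ = (1 / 3) ^ n := by
    rw [pow_succ]
    ring
  rw [e1] at h2
  have e2 : (fun k : ℕ => (2 : ℝ) * (1 / 3) ^ (k + n + 1)) =
      fun k : ℕ => (2 * (1 / 3 : ℝ) ^ (n + 1)) * (1 / 3) ^ k := by
    funext k
    ring
  rw [e2]
  exact h2

lemma summ (y : ℝ) : Summable (t y) := by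
  refine Summable.of_nonneg_of_le (t_nonneg y) (t_le y) ?_
  simpa using (hgeo 0).summable

/-- the tails -/
lemma tail_bounds (y : ℝ) (n : ℕ) : 0 ≤ ∑' k, t y (k + n) ∧ ∑' k, t y (k + n) ≤ (1 / 3) ^ n := by
  constructor
  · exact tsum_nonneg fun k => t_nonneg y _
  · rw [← (hgeo n).tsum_eq]
    exact Summable.tsum_le_tsum (fun k => t_le y (k + n)) ((summable_nat_add_iff n).2 (summ y))
      (hgeo n).summable

lemma p_split (y : ℝ) (n : ℕ) : p y = ∑ k ∈ Finset.range n, t y k + ∑' k, t y (k + n) :=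
  ((summ y).sum_add_tsum_nat_add n).symm

lemma p_bounds (y : ℝ) : 0 ≤ p y ∧ p y ≤ 1 := by
  have h := tail_bounds y 0
  simpa [p] using h

/-- agreement of the floors goes down -/
lemma floor_down (n : ℕ) (y y' : ℝ) (h : ⌊(2 : ℝ) ^ n * y⌋ = ⌊(2 : ℝ) ^ n * y'⌋) :
    ∀ j, j ≤ n → ⌊(2 : ℝ) ^ j * y⌋ = ⌊(2 : ℝ) ^ j * y'⌋ := by
  induction n with
  | zero =>
    intro j hj
    have : j = 0 := by omega
    rw [this]
    exact h
  | succ n ih =>
    have h1 := floor_two n y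
    have h2 := floor_two n y'
    have h3 : ⌊(2 : ℝ) ^ n * y⌋ = ⌊(2 : ℝ) ^ n * y'⌋ := by omega
    intro j hj
    rcases Nat.lt_or_ge j (n + 1) with h4 | h4
    · exact ih h3 j (by omega)
    · have : j = n + 1 := by omega
      rw [this]
      exact h

lemma sum_eq (n : ℕ) (y y' : ℝ) (h : ⌊(2 : ℝ) ^ n * y⌋ = ⌊(2 : ℝ) ^ n * y'⌋) :
    ∑ k ∈ Finset.range n, t y k = ∑ k ∈ Finset.range n, t y' k := by
  refine Finset.sum_congr rfl fun k hk => ?_
  have hk' := Finset.mem_range.1 hk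
  have h1 := floor_down n y y' h k (by omega)
  have h2 := floor_down n y y' h (k + 1) (by omega)
  unfold t b
  rw [h1, h2]

lemma p_close (n : ℕ) (y y' : ℝ) (h : ⌊(2 : ℝ) ^ n * y⌋ = ⌊(2 : ℝ) ^ n * y'⌋) :
    |p y - p y'| ≤ (1 / 3) ^ n := by
  rw [p_split y n, p_split y' n, sum_eq n y y' h]
  have h1 := tail_bounds y n
  have h2 := tail_bounds y' n
  rw [abs_le]
  constructor <;> linarith [h1.1, h1.2, h2.1, h2.2]

lemma p_lt {y y' : ℝ} (hy : 0 ≤ y) (hlt : y < y') (hy' : y' < 1) : p y < p y' := by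
  have hex : ∃ n : ℕ, ⌊(2 : ℝ) ^ n * y⌋ ≠ ⌊(2 : ℝ) ^ n * y'⌋ := by
    obtain ⟨n, hn⟩ := pow_unbounded_of_one_lt (1 / (y' - y)) (one_lt_two : (1 : ℝ) < 2)
    refine ⟨n, fun h => ?_⟩
    have h1 : 1 < (2 : ℝ) ^ n * (y' - y) := by
      rw [div_lt_iff₀ (by linarith)] at hn
      exact hn
    have h2 := Int.floor_le ((2 : ℝ) ^ n * y)
    have h3 := Int.lt_floor_add_one ((2 : ℝ) ^ n * y')
    rw [← h] at h3
    nlinarith
  classical
  have hn := Nat.find_spec hex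
  have hmin : ∀ m, m < Nat.find hex → ⌊(2 : ℝ) ^ m * y⌋ = ⌊(2 : ℝ) ^ m * y'⌋ := fun m hm =>
    not_not.1 (Nat.find_min hex hm)
  generalize Nat.find hex = n at hn hmin
  rcases n with _ | k
  · exfalso
    apply hn
    have e1 : ⌊(2 : ℝ) ^ 0 * y⌋ = 0 := by
      rw [pow_zero, one_mul, Int.floor_eq_zero_iff]
      exact ⟨hy, by linarith⟩
    have e2 : ⌊(2 : ℝ) ^ 0 * y'⌋ = 0 := by
      rw [pow_zero, one_mul, Int.floor_eq_zero_iff]
      exact ⟨by linarith, hy'⟩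
    rw [e1, e2]
  · have h0 := hmin k (Nat.lt_succ_self k)
    have h1 := floor_two k y
    have h2 := floor_two k y'
    have h3 : ⌊(2 : ℝ) ^ (k + 1) * y⌋ ≤ ⌊(2 : ℝ) ^ (k + 1) * y'⌋ :=
      Int.floor_le_floor (mul_le_mul_of_nonneg_left hlt.le (by positivity))
    have hb : b k y = 0 := by
      have : ⌊(2 : ℝ) ^ (k + 1) * y⌋ - 2 * ⌊(2 : ℝ) ^ k * y⌋ = 0 := by omega
      rw [b, this]
      norm_num
    have hb' : b k y' = 1 := by
      have : ⌊(2 : ℝ) ^ (k + 1) * y'⌋ - 2 * ⌊(2 : ℝ) ^ k * y'⌋ = 1 := by omega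
      rw [b, this]
      norm_num
    have ht : t y k = 0 := by
      rw [t, hb]
      ring
    have ht' : t y' k = 2 * (1 / 3) ^ (k + 1) := by
      rw [t, hb']
      ring
    rw [p_split y (k + 1), p_split y' (k + 1), Finset.sum_range_succ, Finset.sum_range_succ,
      sum_eq k y y' h0, ht, ht']
    have h4 := tail_bounds y (k + 1)
    have h5 := tail_bounds y' (k + 1)
    have h6 : (0 : ℝ) < (1 / 3) ^ (k + 1) := by positivity
    linarith [h4.2, h5.1]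

lemma p_le_iff {y y' : ℝ} (hy : 0 ≤ y) (hy1 : y < 1) (hy' : 0 ≤ y') (hy1' : y' < 1) :
    p y ≤ p y' ↔ y ≤ y' := by
  constructor
  · intro h
    by_contra hc
    exact absurd h (not_le.2 (p_lt hy' (not_le.1 hc) hy1))
  · intro h
    rcases h.eq_or_lt with h1 | h1
    · rw [h1]
    · exact (p_lt hy h1 hy1').le

lemma p_meas : Measurable p := by
  have hm : ∀ n : ℕ, Measurable fun y : ℝ => ∑ k ∈ Finset.range n, t y k := by
    intro n
    refine Finset.measurable_sum _ fun k _ => ?_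
    unfold t b
    have h1 : ∀ j : ℕ, Measurable fun y : ℝ => ⌊(2 : ℝ) ^ j * y⌋ := fun j =>
      Int.measurable_floor.comp (measurable_const.mul measurable_id)
    have h2 : Measurable fun y : ℝ =>
        ((⌊(2 : ℝ) ^ (k + 1) * y⌋ - 2 * ⌊(2 : ℝ) ^ k * y⌋ : ℤ) : ℝ) := by
      have : Measurable fun z : ℤ => (z : ℝ) := measurable_from_top
      exact this.comp ((h1 (k + 1)).sub ((h1 k).const_mul 2))
    exact (h2.const_mul 2).mul_const _
  refine measurable_of_tendsto_metrizable hm ?_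
  rw [tendsto_pi_nhds]
  intro y
  exact (summ y).hasSum.tendsto_sum_nat

/-- the sets whose suprema are the values of `u` -/
def A (x : ℝ) : Set ℝ := insert 0 {y | 0 ≤ y ∧ y < 1 ∧ p y ≤ x}

/-- the left inverse -/
noncomputable def u (x : ℝ) : ℝ := sSup (A x)

lemma A_le {x y : ℝ} (hy : y ∈ A x) : y ≤ 1 := by
  rcases hy with h | h
  · rw [h]; norm_num
  · exact h.2.1.le

lemma A_bdd (x : ℝ) : BddAbove (A x) := ⟨1, fun _ hy => A_le hy⟩

lemma A_zero (x : ℝ) : (0 : ℝ) ∈ A x := Or.inl rfl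

lemma u_bounds (x : ℝ) : 0 ≤ u x ∧ u x ≤ 1 :=
  ⟨le_csSup (A_bdd x) (A_zero x), csSup_le ⟨0, A_zero x⟩ fun _ hy => A_le hy⟩

lemma u_mono : Monotone u := by
  intro x x' h
  refine csSup_le_csSup (A_bdd x') ⟨0, A_zero x⟩ ?_
  intro y hy
  rcases hy with h1 | h1
  · exact Or.inl h1
  · exact Or.inr ⟨h1.1, h1.2.1, h1.2.2.trans h⟩

lemma u_p {y : ℝ} (hy : 0 ≤ y) (hy1 : y < 1) : u (p y) = y := by
  apply le_antisymm
  · refine csSup_le ⟨0, A_zero _⟩ ?_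
    intro z hz
    rcases hz with h | h
    · rw [h]; exact hy
    · exact (p_le_iff h.1 h.2.1 hy hy1).1 h.2.2
  · exact le_csSup (A_bdd _) (Or.inr ⟨hy, hy1, le_rfl⟩)

lemma u_cont : Continuous u := by
  have hmono : Monotone fun x : ℝ => (⟨u x, u_bounds x⟩ : Set.Icc (0 : ℝ) 1) := by
    intro x x' h
    exact u_mono h
  have hdense : DenseRange fun x : ℝ => (⟨u x, u_bounds x⟩ : Set.Icc (0 : ℝ) 1) := by
    rw [Metric.denseRange_iff]
    rintro ⟨z, hz0, hz1⟩ r hr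
    rcases hz1.lt_or_eq with h | h
    · refine ⟨p z, ?_⟩
      have : (⟨u (p z), u_bounds (p z)⟩ : Set.Icc (0 : ℝ) 1) = ⟨z, hz0, hz1⟩ :=
        Subtype.ext (u_p hz0 h)
      rw [this, dist_self]
      exact hr
    · have h1 : 0 ≤ max 0 (1 - r / 2) := le_max_left _ _
      have h2 : max 0 (1 - r / 2) < 1 := max_lt (by norm_num) (by linarith)
      have h3 : 1 - r / 2 ≤ max 0 (1 - r / 2) := le_max_right _ _
      refine ⟨p (max 0 (1 - r / 2)), ?_⟩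
      rw [Subtype.dist_eq, Real.dist_eq]
      show |z - u (p (max 0 (1 - r / 2)))| < r
      rw [u_p h1 h2, h, abs_lt]
      constructor <;> linarith
  have hc := hmono.continuous_of_denseRange hdense
  exact continuous_subtype_val.comp hc

end CANM

theorem specCAN : SpecCAN :=
  ⟨CANM.p, CANM.u, CANM.p_meas, CANM.u_cont, CANM.u_bounds, CANM.p_bounds,
    fun _ h0 h1 => CANM.u_p h0 h1, fun n y y' _ _ _ _ h => CANM.p_close n y y' h⟩

end Pool.Agent.Lib.MP5bcdfb.TS
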