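import Pool.Agent.Lib.MP_5bcdfb_an.TS.Spec

/-!
# CST: the functions which are constant on some nonempty open set
-/

set_option autoImplicit false

namespace Pool.Agent.Lib.MP5bcdfb.TS

open MeasureTheory Set TopologicalSpace Filter Topology

noncomputable section

namespace CSTM

/-- the modification of `a` near `t` -/
def mdf {K : Type} [MetricSpace K] (a : C(K, ℝ)) (t : K) (ρ : ℝ) : C(K, ℝ) :=
  ⟨fun s => (1 - max 0 (min 1 (2 - dist s t * ρ⁻¹))) * a s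
    + max 0 (min 1 (2 - dist s t * ρ⁻¹)) * a t, by fun_prop⟩

lemma mdf_apply {K : Type} [MetricSpace K] (a : C(K, ℝ)) (t : K) (ρ : ℝ) (s : K) :
    mdf a t ρ s = (1 - max 0 (min 1 (2 - dist s t * ρ⁻¹))) * a s
      + max 0 (min 1 (2 - dist s t * ρ⁻¹)) * a t := rfl

lemma mdf_nonneg {K : Type} [MetricSpace K] {a : C(K, ℝ)} (ha : 0 ≤ a) (t : K) (ρ : ℝ) :
    0 ≤ mdf a t ρ := by
  intro s
  have h1 : 0 ≤ a s := ha s
  have h2 : 0 ≤ a t := ha t
  have h3 : 0 ≤ max 0 (min 1 (2 - dist s t * ρ⁻¹)) := le_max_left _ _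
  have h4 : max 0 (min 1 (2 - dist s t * ρ⁻¹)) ≤ 1 := max_le zero_le_one (min_le_left _ _)
  have h5 : 0 ≤ (1 - max 0 (min 1 (2 - dist s t * ρ⁻¹))) * a s :=
    mul_nonneg (by linarith) h1
  have h6 : 0 ≤ max 0 (min 1 (2 - dist s t * ρ⁻¹)) * a t := mul_nonneg h3 h2
  exact add_nonneg h5 h6

lemma mdf_near {K : Type} [MetricSpace K] (a : C(K, ℝ)) (t : K) {ρ : ℝ} (hρ : 0 < ρ) {s : K}
    (hs : dist s t ≤ ρ) : mdf a t ρ s = a t := by
  have h1 : dist s t * ρ⁻¹ ≤ 1 := by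
    rw [← div_eq_mul_inv]
    exact (div_le_one hρ).mpr hs
  rw [mdf_apply, min_eq_left (by linarith), max_eq_right zero_le_one]
  ring

lemma mdf_far {K : Type} [MetricSpace K] (a : C(K, ℝ)) (t : K) {ρ : ℝ} (hρ : 0 < ρ) {s : K}
    (hs : 2 * ρ ≤ dist s t) : mdf a t ρ s = a s := by
  have h1 : 2 ≤ dist s t * ρ⁻¹ := by
    rw [← div_eq_mul_inv]
    exact (le_div_iff₀ hρ).mpr hs
  have h2 : min 1 (2 - dist s t * ρ⁻¹) ≤ 0 := le_trans (min_le_right _ _) (by linarith)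
  rw [mdf_apply, max_eq_left h2]
  ring

lemma main {K : Type} [MetricSpace K] [CompactSpace K] [MeasurableSpace K] [BorelSpace K]
    {a : C(K, ℝ)} (ha : 0 ≤ a) (μ : Measure K) (t : K) (ht : μ {t}ᶜ ≠ 0) :
    ∃ f ∈ {f : C(K, ℝ) | 0 ≤ f ∧ ∃ U : Set K, IsOpen U ∧ U.Nonempty ∧ ∃ x : ℝ, ∀ t ∈ U, f t = x},
      0 < μ {s | f s = a s} := by
  obtain ⟨n, hn⟩ : ∃ n : ℕ, μ {s | 2 * (1 / ((n : ℝ) + 1)) ≤ dist s t} ≠ 0 := by
    by_contra hcon
    push Not at hcon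
    apply ht
    refine measure_mono_null ?_ (measure_iUnion_null hcon)
    intro s hs
    have hd : 0 < dist s t / 2 := half_pos (dist_pos.mpr hs)
    obtain ⟨n, hn⟩ := exists_nat_one_div_lt hd
    refine mem_iUnion.mpr ⟨n, ?_⟩
    have h1 : 2 * (1 / ((n : ℝ) + 1)) ≤ 2 * (dist s t / 2) :=
      mul_le_mul_of_nonneg_left hn.le zero_le_two
    have h2 : 2 * (dist s t / 2) = dist s t := by ring
    exact h1.trans_eq h2
  have hρ : (0 : ℝ) < 1 / ((n : ℝ) + 1) := Nat.one_div_pos_of_nat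
  refine ⟨mdf a t (1 / ((n : ℝ) + 1)), ⟨mdf_nonneg ha t _, Metric.ball t (1 / ((n : ℝ) + 1)),
    Metric.isOpen_ball, ⟨t, Metric.mem_ball_self hρ⟩, a t, fun s hs =>
      mdf_near a t hρ (Metric.mem_ball.mp hs).le⟩, ?_⟩
  refine lt_of_lt_of_le (pos_iff_ne_zero.mpr hn) (measure_mono ?_)
  intro s hs
  exact mdf_far a t hρ hs

end CSTM

open CSTM in
theorem specCST : SpecCST := by
  intro K _ _ _ _ _ a μ _ ha hμ
  obtain ⟨t₀, t₁, h01⟩ := exists_pair_ne K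
  by_cases h0 : μ {t₀}ᶜ = 0
  · by_cases h1 : μ {t₁}ᶜ = 0
    · exfalso
      apply hμ
      rw [← Measure.measure_univ_eq_zero]
      refine measure_mono_null ?_ (measure_union_null h0 h1)
      intro s _
      by_cases hs : s = t₀
      · right
        intro h
        exact h01 (hs ▸ h)
      · left
        exact hs
    · exact main ha μ t₁ h1
  · exact main ha μ t₀ h0

end

end Pool.Agent.Lib.MP5bcdfb.TS
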