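import Pool.Agent.Lib.MP_5bcdfb_an.TS.Spec

/-!
# MP_5bcdfb, TS: module DNS, functions which are locally constant on a dense open set
-/

set_option autoImplicit false

namespace Pool.Agent.Lib.MP5bcdfb.TS

open MeasureTheory Set TopologicalSpace Filter Topology

namespace DNSM

/-! ## a nowhere dense closed set of positive measure -/

lemma small_set {K : Type} [MetricSpace K] [CompactSpace K] [MeasurableSpace K] [BorelSpace K]
    (hK : ∀ t : K, (𝓝[≠] t).NeBot) (μ : Measure K) [IsFiniteMeasure μ] (hμ : μ ≠ 0) :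
    ∃ E : Set K, IsClosed E ∧ interior E = ∅ ∧ 0 < μ E := by
  by_cases hat : ∃ t : K, μ {t} ≠ 0
  · obtain ⟨t, ht⟩ := hat
    refine ⟨{t}, isClosed_singleton, ?_, pos_iff_ne_zero.2 ht⟩
    have := hK t
    exact interior_singleton t
  · push Not at hat
    have huniv : μ univ ≠ 0 := fun h => hμ (Measure.measure_univ_eq_zero.1 h)
    have : Nonempty K := by
      by_contra hc
      rw [not_nonempty_iff] at hc
      apply huniv
      rw [univ_eq_empty_iff.2 hc, measure_empty]
    set q : ℕ → K := denseSeq K with hq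
    obtain ⟨ε, hε, hsum⟩ := ENNReal.exists_pos_sum_of_countable' (ε := μ univ) huniv ℕ
    have hball : ∀ j : ℕ, ∃ r : ℝ, 0 < r ∧ μ (Metric.ball (q j) r) < ε j := by
      intro j
      have h1 : Tendsto (fun n : ℕ => μ (Metric.ball (q j) (1 / ((n : ℝ) + 1)))) atTop
          (𝓝 (μ (⋂ n : ℕ, Metric.ball (q j) (1 / ((n : ℝ) + 1))))) := by
        refine tendsto_measure_iInter_atTop (fun n => Metric.isOpen_ball.measurableSet.nullMeasurableSet) ?_
          ⟨0, measure_ne_top _ _⟩
        intro m n hmn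
        refine Metric.ball_subset_ball ?_
        exact one_div_le_one_div_of_le (by positivity) (by exact_mod_cast Nat.add_le_add_right hmn 1)
      have h2 : (⋂ n : ℕ, Metric.ball (q j) (1 / ((n : ℝ) + 1))) = {q j} := by
        ext x
        simp only [mem_iInter, Metric.mem_ball, mem_singleton_iff]
        constructor
        · intro h
          by_contra hne
          have hd : 0 < dist x (q j) := dist_pos.2 hne
          obtain ⟨n, hn⟩ := exists_nat_one_div_lt hd
          exact absurd (h n) (not_lt.2 hn.le)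
        · rintro rfl n
          rw [dist_self]
          positivity
      rw [h2, hat (q j)] at h1
      obtain ⟨n, hn⟩ := (h1.eventually (gt_mem_nhds (hε j))).exists
      exact ⟨1 / ((n : ℝ) + 1), by positivity, hn⟩
    choose r hr hr2 using hball
    refine ⟨(⋃ j, Metric.ball (q j) (r j))ᶜ, (isOpen_iUnion fun j => Metric.isOpen_ball).isClosed_compl, ?_, ?_⟩
    · rw [interior_compl, compl_empty_iff]
      have hd : Dense (⋃ j, Metric.ball (q j) (r j)) := by
        refine (denseRange_denseSeq K).mono ?_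
        rintro x ⟨j, rfl⟩
        exact mem_iUnion.2 ⟨j, Metric.mem_ball_self (hr j)⟩
      exact hd.closure_eq
    · rw [pos_iff_ne_zero]
      intro h0
      have h1 : μ univ ≤ ∑' j, ε j := by
        calc μ univ = μ (⋃ j, Metric.ball (q j) (r j)) := by
              rw [← measure_add_measure_compl (isOpen_iUnion fun j => Metric.isOpen_ball).measurableSet, h0, add_zero]
          _ ≤ ∑' j, μ (Metric.ball (q j) (r j)) := measure_iUnion_le _
          _ ≤ ∑' j, ε j := ENNReal.tsum_le_tsum fun j => (hr2 j).le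
      exact absurd hsum (not_lt.2 h1)

/-! ## making a function locally constant -/

variable {K : Type} [MetricSpace K] [CompactSpace K]

/-- a state: a function and the open set on which it is already locally constant -/
structure St (a : C(K, ℝ)) (E : Set K) (g : C(K, ℝ)) (U : Set K) : Prop where
  nn : 0 ≤ g
  op : IsOpen U
  eq : ∀ t ∈ E, g t = a t
  lc : ∀ t ∈ U, ∀ᶠ s in 𝓝 t, g s = g t

lemma step {a : C(K, ℝ)} {E : Set K} {g : C(K, ℝ)} {U : Set K} (h : St a E g U)
    {W : Set K} (hW : IsOpen W) (hWne : W.Nonempty) {ε : ℝ} (hε : 0 < ε) :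
    ∃ (g' : C(K, ℝ)) (U' : Set K), St a E g' U' ∧ U ⊆ U' ∧ (∀ t ∈ U, g' t = g t) ∧ ‖g' - g‖ ≤ ε ∧
      (W ∩ (U' ∪ E)).Nonempty := by
  by_cases hc : (W ∩ (U ∪ E)).Nonempty
  · exact ⟨g, U, h, Subset.rfl, fun _ _ => rfl, by simpa using hε.le, hc⟩
  rw [not_nonempty_iff_eq_empty] at hc
  obtain ⟨t₀, ht₀⟩ := hWne
  have hUW : Disjoint W U := by
    rw [disjoint_iff_inter_eq_empty]
    exact subset_eq_empty (inter_subset_inter_right _ subset_union_left) hc
  have hEW : Disjoint W E := by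
    rw [disjoint_iff_inter_eq_empty]
    exact subset_eq_empty (inter_subset_inter_right _ subset_union_right) hc
  -- a small ball in `W` on which `g` varies little
  have hcont : ∀ᶠ s in 𝓝 t₀, |g s - g t₀| < ε := by
    have := g.continuous.continuousAt (x := t₀)
    exact (Metric.continuousAt_iff'.1 this ε hε).mono fun s hs => by rwa [Real.dist_eq] at hs
  obtain ⟨ρ, hρ, hρW⟩ := Metric.eventually_nhds_iff_ball.1 (hcont.and (hW.mem_nhds ht₀))
  obtain ⟨φ, hφ0, hφ1, hφ⟩ := exists_continuous_zero_one_of_isClosed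
    (s := (Metric.ball t₀ ρ)ᶜ) (t := Metric.closedBall t₀ (ρ / 2))
    Metric.isOpen_ball.isClosed_compl Metric.isClosed_closedBall (by
      rw [disjoint_compl_left_iff_subset]
      exact Metric.closedBall_subset_ball (by linarith))
  have hφr : ∀ t, 0 ≤ φ t ∧ φ t ≤ 1 := fun t => hφ t
  set g' : C(K, ℝ) := ⟨fun t => g t + φ t * (g t₀ - g t), by fun_prop⟩ with hg'
  have hg't : ∀ t, g' t = g t + φ t * (g t₀ - g t) := fun t => rfl
  have hoff : ∀ t, t ∉ W → g' t = g t := by
    intro t ht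
    have h1 : t ∈ (Metric.ball t₀ ρ)ᶜ := fun hb => ht (hρW t hb).2
    rw [hg't, hφ0 h1]
    simp
  refine ⟨g', U ∪ Metric.ball t₀ (ρ / 2), ⟨?_, h.op.union Metric.isOpen_ball, ?_, ?_⟩, subset_union_left, ?_, ?_, ?_⟩
  · intro t
    show (0 : ℝ) ≤ g' t
    have h1 : (0 : ℝ) ≤ g t := h.nn t
    have h2 : (0 : ℝ) ≤ g t₀ := h.nn t₀
    have h3 := hφr t
    rw [hg't]
    nlinarith [mul_nonneg h3.1 h2, mul_nonneg (sub_nonneg.2 h3.2) h1]
  · intro t ht
    rw [hoff t (fun hw => hEW.ne_of_mem hw ht rfl)]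
    exact h.eq t ht
  · intro t ht
    rcases ht with ht | ht
    · have hnear : ∀ᶠ s in 𝓝 t, s ∈ U := h.op.mem_nhds ht
      filter_upwards [h.lc t ht, hnear] with s hs hsU
      rw [hoff s (fun hw => hUW.ne_of_mem hw hsU rfl), hoff t (fun hw => hUW.ne_of_mem hw ht rfl), hs]
    · have hconst : ∀ s ∈ Metric.ball t₀ (ρ / 2), g' s = g t₀ := by
        intro s hs
        rw [hg't, hφ1 (Metric.ball_subset_closedBall hs)]
        simp
      filter_upwards [Metric.isOpen_ball.mem_nhds ht] with s hs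
      rw [hconst s hs, hconst t ht]
  · intro t ht
    exact hoff t (fun hw => hUW.ne_of_mem hw ht rfl)
  · rw [ContinuousMap.norm_le _ hε.le]
    intro t
    rw [ContinuousMap.sub_apply, hg't, Real.norm_eq_abs, add_sub_cancel_left, abs_mul]
    by_cases ht : t ∈ Metric.ball t₀ ρ
    · have h1 := (hρW t ht).1
      have h2 := hφr t
      rw [abs_of_nonneg h2.1, abs_sub_comm]
      have h3 : 0 ≤ |g t - g t₀| := abs_nonneg _
      nlinarith [mul_le_mul_of_nonneg_right h2.2 h3]
    · rw [hφ0 ht]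
      simpa using hε.le
  · refine ⟨t₀, ht₀, Or.inl (Or.inr (Metric.mem_ball_self (by linarith)))⟩

/-- every function can be made locally constant off a nowhere dense closed set -/
lemma loc_const [Nonempty K] {a : C(K, ℝ)} (ha : 0 ≤ a) {E : Set K} (hE : IsClosed E) (hE2 : interior E = ∅) :
    ∃ (f : C(K, ℝ)) (U : Set K), 0 ≤ f ∧ IsOpen U ∧ Dense U ∧ (∀ t ∈ U, ∀ᶠ s in 𝓝 t, f s = f t) ∧
      ∀ t ∈ E, f t = a t := by
  classical
  -- a countable basis of nonempty open sets
  obtain ⟨W, hWo, hWne, hWb⟩ : ∃ W : ℕ → Set K, (∀ j, IsOpen (W j)) ∧ (∀ j, (W j).Nonempty) ∧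
      ∀ O : Set K, IsOpen O → O.Nonempty → ∃ j, W j ⊆ O := by
    have hcb := countable_countableBasis K
    have hne : (countableBasis K).Nonempty := by
      obtain ⟨v, hv, -⟩ := (isBasis_countableBasis K).exists_subset_of_mem_open
        (mem_univ (Classical.arbitrary K)) isOpen_univ
      exact ⟨v, hv⟩
    obtain ⟨w, hw⟩ := hcb.exists_eq_range hne
    refine ⟨w, fun j => ?_, fun j => ?_, fun O hO hOne => ?_⟩
    · exact isOpen_of_mem_countableBasis (by rw [hw]; exact ⟨j, rfl⟩)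
    · exact nonempty_of_mem_countableBasis (by rw [hw]; exact ⟨j, rfl⟩)
    · obtain ⟨t, ht⟩ := hOne
      obtain ⟨v, hv, -, hvO⟩ := (isBasis_countableBasis K).exists_subset_of_mem_open ht hO
      rw [hw] at hv
      obtain ⟨j, rfl⟩ := hv
      exact ⟨j, hvO⟩
  have hstep : ∀ (j : ℕ) (x : {x : C(K, ℝ) × Set K // St a E x.1 x.2}), ∃ y : {x : C(K, ℝ) × Set K // St a E x.1 x.2},
      x.1.2 ⊆ y.1.2 ∧ (∀ t ∈ x.1.2, y.1.1 t = x.1.1 t) ∧ ‖y.1.1 - x.1.1‖ ≤ (1 / 2) ^ j ∧
      (W j ∩ (y.1.2 ∪ E)).Nonempty := by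
    intro j x
    obtain ⟨g', U', h1, h2, h3, h4, h5⟩ := step x.2 (hWo j) (hWne j) (show (0 : ℝ) < (1 / 2) ^ j by positivity)
    exact ⟨⟨(g', U'), h1⟩, h2, h3, h4, h5⟩
  choose nx hnx1 hnx2 hnx3 hnx4 using hstep
  let x₀ : {x : C(K, ℝ) × Set K // St a E x.1 x.2} :=
    ⟨(a, ∅), ⟨ha, isOpen_empty, fun _ _ => rfl, fun t ht => absurd ht (notMem_empty t)⟩⟩
  let s : ℕ → {x : C(K, ℝ) × Set K // St a E x.1 x.2} := fun n => Nat.rec x₀ (fun j x => nx j x) n
  have hs : ∀ j, s (j + 1) = nx j (s j) := fun j => rfl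
  have hmono : ∀ j, (s j).1.2 ⊆ (s (j + 1)).1.2 := fun j => by rw [hs]; exact hnx1 j (s j)
  have heq : ∀ j, ∀ t ∈ (s j).1.2, (s (j + 1)).1.1 t = (s j).1.1 t := fun j => by rw [hs]; exact hnx2 j (s j)
  have hmono' : ∀ j k, j ≤ k → (s j).1.2 ⊆ (s k).1.2 := fun j k hjk => monotone_nat_of_le_succ (f := fun j => (s j).1.2) hmono hjk
  have heq' : ∀ j k, j ≤ k → ∀ t ∈ (s j).1.2, (s k).1.1 t = (s j).1.1 t := by
    intro j k hjk
    induction k, hjk using Nat.le_induction with
    | base => intro t _; rfl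
    | succ k hk ih =>
      intro t ht
      rw [heq k t (hmono' j k hk ht)]
      exact ih t ht
  have hcau : CauchySeq fun j => (s j).1.1 := by
    refine cauchySeq_of_le_geometric (1 / 2) 1 (by norm_num) fun j => ?_
    rw [dist_comm, dist_eq_norm, hs, one_mul]
    exact hnx3 j (s j)
  obtain ⟨f, hf⟩ := cauchySeq_tendsto_of_complete hcau
  have hft : ∀ t, Tendsto (fun j => (s j).1.1 t) atTop (𝓝 (f t)) := by
    intro t
    have h1 : Continuous fun g : C(K, ℝ) => g t := ContinuousEvalConst.continuous_eval_const t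
    exact (h1.tendsto f).comp hf
  have hfs : ∀ j, ∀ t ∈ (s j).1.2, f t = (s j).1.1 t := by
    intro j t ht
    refine tendsto_nhds_unique (hft t) ?_
    refine tendsto_const_nhds.congr' ?_
    filter_upwards [eventually_ge_atTop j] with k hk
    exact (heq' j k hk t ht).symm
  refine ⟨f, ⋃ j, (s j).1.2, ?_, isOpen_iUnion fun j => (s j).2.op, ?_, ?_, ?_⟩
  · intro t
    show (0 : ℝ) ≤ f t
    exact ge_of_tendsto' (hft t) fun j => (s j).2.nn t
  · rw [dense_iff_inter_open]
    intro O hO hOne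
    -- shrink away from `E`
    have h1 : (O ∩ Eᶜ).Nonempty := by
      by_contra hc
      rw [not_nonempty_iff_eq_empty, ← Set.sdiff_eq, Set.sdiff_eq_empty] at hc
      have h2 : O ⊆ interior E := interior_maximal hc hO
      rw [hE2] at h2
      exact hOne.ne_empty (subset_empty_iff.1 h2)
    obtain ⟨j, hj⟩ := hWb (O ∩ Eᶜ) (hO.inter hE.isOpen_compl) h1
    have h3 := hnx4 j (s j)
    rw [← hs] at h3
    obtain ⟨t, htW, ht⟩ := h3
    rcases ht with ht | ht
    · exact ⟨t, (hj htW).1, mem_iUnion.2 ⟨j + 1, ht⟩⟩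
    · exact absurd ht (hj htW).2
  · intro t ht
    obtain ⟨j, hj⟩ := mem_iUnion.1 ht
    have hnear : ∀ᶠ x in 𝓝 t, x ∈ (s j).1.2 := (s j).2.op.mem_nhds hj
    filter_upwards [(s j).2.lc t hj, hnear] with x hx hxU
    rw [hfs j x hxU, hfs j t hj, hx]
  · intro t ht
    refine tendsto_nhds_unique (hft t) ?_
    refine tendsto_const_nhds.congr fun j => ?_
    exact ((s j).2.eq t ht).symm

end DNSM

open DNSM in
/-- The functions which are locally constant on a dense open set satisfy the criterion. -/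
theorem dns (K : Type) [MetricSpace K] [CompactSpace K] [MeasurableSpace K] [BorelSpace K]
    (hK : ∀ t : K, (𝓝[≠] t).NeBot) :
    Test {f : C(K, ℝ) | 0 ≤ f ∧ ∃ U : Set K, IsOpen U ∧ Dense U ∧ ∀ t ∈ U, ∀ᶠ s in 𝓝 t, f s = f t} := by
  intro a μ _ ha hμ
  obtain ⟨E, hE, hE2, hE3⟩ := small_set hK μ hμ
  have : Nonempty K := by
    by_contra hc
    rw [not_nonempty_iff] at hc
    rw [eq_empty_of_isEmpty E, measure_empty] at hE3
    exact lt_irrefl _ hE3
  obtain ⟨f, U, hf, hU, hUd, hlc, hfE⟩ := loc_const ha hE hE2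
  exact ⟨f, ⟨hf, U, hU, hUd, hlc⟩, hE3.trans_le (measure_mono fun t ht => hfE t ht)⟩

end Pool.Agent.Lib.MP5bcdfb.TS
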