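import Pool.Agent.Lib.MP_5bcdfb_an.TS.Spec

/-!
# Module FWD: the criterion is sufficient
-/

set_option autoImplicit false

namespace Pool.Agent.Lib.MP5bcdfb.TS

open MeasureTheory Set TopologicalSpace Filter Topology

noncomputable section

namespace FWDM

/-- there is a pair at level `n` with a large increment -/
def PP {K : Type} [TopologicalSpace K] (V : C(K, ℝ) → ℝ) (m ε : ℝ) (n : ℕ) : Prop :=
  ∃ p q : C(K, ℝ), (∀ t, 0 ≤ p t) ∧ (∀ t, p t ≤ q t) ∧ (∀ t, q t ≤ m) ∧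
    (∀ t, q t ≤ p t + 1 / ((n : ℝ) + 1)) ∧ ε < V q - V p

lemma PP.anti {K : Type} [TopologicalSpace K] {V : C(K, ℝ) → ℝ} {m ε : ℝ} {n n' : ℕ}
    (h : n ≤ n') (hP : PP V m ε n') : PP V m ε n := by
  obtain ⟨p, q, h1, h2, h3, h4, h5⟩ := hP
  refine ⟨p, q, h1, h2, h3, fun t => (h4 t).trans ?_, h5⟩
  have h6 : 1 / ((n' : ℝ) + 1) ≤ 1 / ((n : ℝ) + 1) :=
    one_div_le_one_div_of_le (by positivity) (by exact_mod_cast Nat.add_le_add_right h 1)
  linarith

lemma dirac_mem {K : Type} [MetricSpace K] [CompactSpace K] [MeasurableSpace K] [BorelSpace K]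
    {D : Set C(K, ℝ)} (hT : Test D) (t : K) (x : ℝ) (hx : 0 ≤ x) : ∃ f ∈ D, f t = x := by
  obtain ⟨f, hf, h1⟩ := hT (ContinuousMap.const K x) (Measure.dirac t)
    (fun s => hx) (IsProbabilityMeasure.ne_zero _)
  refine ⟨f, hf, ?_⟩
  by_contra hne
  have hm : MeasurableSet {s | f s = (ContinuousMap.const K x) s} :=
    (isClosed_eq f.continuous (ContinuousMap.const K x).continuous).measurableSet
  rw [Measure.dirac_apply' _ hm, Set.indicator_of_notMem] at h1
  · exact lt_irrefl _ h1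
  · exact hne

theorem core (hBDD : SpecBDD) (hMEA : SpecMEA) (hTWI : SpecTWI) (hTRE : SpecTRE) (hLUS : SpecLUS)
    (hGLU : SpecGLU) (K : Type) [MetricSpace K] [CompactSpace K] [MeasurableSpace K]
    [BorelSpace K] (D : Set C(K, ℝ)) (hD0 : ∀ f ∈ D, 0 ≤ f) (hT : Test D) (V : C(K, ℝ) → ℝ)
    (hV : IsVal V) (hc : ∀ f ∈ D, ContAt V f) (m ε : ℝ) (hm : 0 < m) (hε : 0 < ε)
    (h : ∀ n : ℕ, PP V m ε n) : False := by
  classical
  obtain ⟨M, hM⟩ := hBDD K V hV (fun t x hx => by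
    obtain ⟨f, hf, h1⟩ := dirac_mem hT t x hx
    exact ⟨f, hD0 f hf, h1, hc f hf⟩) m
  have hJex : ∀ c d : ℝ, ∃ μ : Measure K, IsFiniteMeasure μ ∧
      (0 ≤ c → c ≤ d → d ≤ m → IsJm V c d μ) := by
    intro c d
    by_cases hcd : 0 ≤ c ∧ c ≤ d ∧ d ≤ m
    · obtain ⟨μ, hμ⟩ := hMEA K V c d M hV hcd.1 hcd.2.1
        (fun f hf hfd => hM f hf fun t => (hfd t).trans hcd.2.2)
      exact ⟨μ, hμ.fin, fun _ _ _ => hμ⟩
    · exact ⟨0, inferInstance, fun h1 h2 h3 => absurd ⟨h1, h2, h3⟩ hcd⟩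
  choose J hJf hJ using hJex
  have hJ0 : IsJm V 0 m (J 0 m) := hJ 0 m le_rfl hm.le le_rfl
  have hpos : 0 < (J 0 m univ).toReal := by
    obtain ⟨n, U, hU, hUu, hom⟩ := hJ0.ex univ isCompact_univ (ε / 2) (by positivity)
    obtain ⟨p, q, h1, h2, h3, h4, h5⟩ := h n
    have hbd : BddAbove {x : ℝ | ∃ f g : C(K, ℝ), Pr 0 m (1 / ((n : ℝ) + 1)) U f g ∧
        x = V g - V f} := by
      refine ⟨2 * M, ?_⟩
      rintro x ⟨f, g, hP, rfl⟩
      have a1 := hM f (fun t => hP.low t) (fun t => (hP.le t).trans (hP.upp t))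
      have a2 := hM g (fun t => (hP.low t).trans (hP.le t)) hP.upp
      have a3 := (abs_le.mp a1).1
      have a4 := (abs_le.mp a2).2
      linarith
    have h6 : V q - V p ≤ om V 0 m n U := le_csSup hbd
      ⟨p, q, ⟨h1, h2, h3, h4, fun t _ => hUu (mem_univ t)⟩, rfl⟩
    linarith
  have hne : J 0 m ≠ 0 := by
    intro h0
    rw [h0] at hpos
    simp at hpos
  obtain ⟨a, ha, ham, hlev⟩ := hTRE K m J hm hJf (by
    intro c e₀ e₁ d h0 h1 h2 h3 h4 σ _ hs1 hs2
    exact hTWI K V c e₀ e₁ d M hV h0 h1.le h2 h3.le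
      (fun f hf hfd => hM f hf fun t => (hfd t).trans h4) (J c d) (J c e₁) (J e₀ d)
      (hJ c d h0 (by linarith) h4) (hJ c e₁ h0 (by linarith) (by linarith))
      (hJ e₀ d (by linarith) (by linarith) h4) σ hs1 hs2)
  haveI : IsFiniteMeasure (J 0 m) := hJf 0 m
  obtain ⟨E, b, hEc, hE0, hb0, hba⟩ := hLUS K (J 0 m) m a hne ha ham
  have hrne : (J 0 m).restrict E ≠ 0 := by
    intro h0
    have h1 : ((J 0 m).restrict E) univ = 0 := by rw [h0]; rfl
    rw [Measure.restrict_apply_univ] at h1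
    exact hE0.ne' h1
  obtain ⟨f, hfD, hfE⟩ := hT b ((J 0 m).restrict E) hb0 hrne
  have hcl : IsClosed {t | f t = b t} := isClosed_eq f.continuous b.continuous
  rw [Measure.restrict_apply hcl.measurableSet] at hfE
  obtain ⟨E', hE'⟩ : ∃ E' : Set K, E' = {t | f t = b t} ∩ E := ⟨_, rfl⟩
  rw [← hE'] at hfE
  have hE'c : IsCompact E' := by
    rw [hE']
    exact hEc.inter_left hcl
  have hfa : ∀ t ∈ E', f t = a t := by
    intro t ht
    rw [hE'] at ht
    rw [← hba t ht.2]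
    exact ht.1
  have hE'fin : J 0 m E' ≠ ⊤ := measure_ne_top _ _
  obtain ⟨x, hx⟩ : ∃ x : ℝ, x = (J 0 m E').toReal := ⟨_, rfl⟩
  have hx0 : 0 < x := by
    rw [hx]
    exact ENNReal.toReal_pos hfE.ne' hE'fin
  obtain ⟨r, hr, hcr⟩ := hc f hfD (x / 8) (by positivity)
  have hpq : ∀ p q : C(K, ℝ), 0 ≤ p → 0 ≤ q → ‖p - f‖ < r → ‖q - f‖ < r →
      V q - V p ≤ x / 4 := by
    intro p q hp hq hpr hqr
    have h1 := (abs_lt.mp (hcr p hp hpr)).1
    have h2 := (abs_lt.mp (hcr q hq hqr)).2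
    linarith
  obtain ⟨l, hl⟩ := exists_pow_lt_of_lt_one (show (0 : ℝ) < r / 2 / m by positivity)
    (show (2 / 3 : ℝ) < 1 by norm_num)
  have hl' : m * (2 / 3) ^ l < r / 2 := by
    rw [lt_div_iff₀ hm] at hl
    linarith
  obtain ⟨N, B, c, d, hBm, hBd, hBu, hB⟩ := hlev l
  have hδ : ENNReal.ofReal (x / (2 * (N + 1))) ≠ 0 := by
    have : 0 < x / (2 * ((N : ℝ) + 1)) := by positivity
    simpa using this
  have hC : ∀ i, ∃ C : Set K, C ⊆ E' ∩ B i ∧ IsCompact C ∧
      J 0 m (E' ∩ B i) < J 0 m C + ENNReal.ofReal (x / (2 * (N + 1))) := fun i =>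
    (hE'c.measurableSet.inter (hBm i)).exists_isCompact_lt_add (measure_ne_top _ _) hδ
  choose C hCs hCc hCm using hC
  have hsum : J 0 m E' = ∑ i, J 0 m (E' ∩ B i) := by
    have h1 : E' = ⋃ i, (E' ∩ B i) := by
      rw [← Set.inter_iUnion, hBu, Set.inter_univ]
    conv_lhs => rw [h1]
    rw [measure_iUnion, tsum_fintype]
    · intro i j hij
      exact Disjoint.mono inter_subset_right inter_subset_right (hBd i j hij)
    · intro i
      exact hE'c.measurableSet.inter (hBm i)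
  have hx2 : x ≤ ∑ i, (J 0 m (C i)).toReal + x / 2 := by
    have h1 : ∀ i, (J 0 m (E' ∩ B i)).toReal ≤
        (J 0 m (C i)).toReal + x / (2 * (N + 1)) := by
      intro i
      have h2 := ENNReal.toReal_mono (ENNReal.add_ne_top.mpr ⟨measure_ne_top _ _,
        ENNReal.ofReal_ne_top⟩) (hCm i).le
      rw [ENNReal.toReal_add (measure_ne_top _ _) ENNReal.ofReal_ne_top,
        ENNReal.toReal_ofReal (by positivity)] at h2
      exact h2
    have h3 : x = ∑ i, (J 0 m (E' ∩ B i)).toReal := by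
      rw [hx, hsum, ENNReal.toReal_sum fun i _ => measure_ne_top _ _]
    have h4 : x ≤ ∑ i : Fin N, ((J 0 m (C i)).toReal + x / (2 * (N + 1))) := by
      calc x = ∑ i, (J 0 m (E' ∩ B i)).toReal := h3
        _ ≤ _ := Finset.sum_le_sum fun i _ => h1 i
    rw [Finset.sum_add_distrib, Finset.sum_const, Finset.card_univ, Fintype.card_fin,
      nsmul_eq_mul] at h4
    have h5 : (N : ℝ) * (x / (2 * (N + 1))) ≤ x / 2 := by
      rw [mul_div_assoc', div_le_div_iff₀ (by positivity) (by positivity)]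
      nlinarith
    linarith
  have hglu := hGLU K V m M hV hM f r (x / 4) (hD0 f hfD) hr hpq N C c d
    (fun i => J (c i) (d i)) hCc
    (fun i j hij => Disjoint.mono ((hCs i).trans inter_subset_right)
      ((hCs j).trans inter_subset_right) (hBd i j hij))
    (fun i => ⟨(hB i).1, (hB i).2.1, (hB i).2.2.1, lt_of_le_of_lt (hB i).2.2.2.1 hl'⟩)
    (fun i t ht => by
      rw [hfa t (hCs i ht).1]
      exact (hB i).2.2.2.2.1 t (hCs i ht).2)
    (fun i => hJ (c i) (d i) (hB i).1 (hB i).2.1.le (hB i).2.2.1)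
  have hle : ∑ i, (J 0 m (C i)).toReal ≤ ∑ i, (J (c i) (d i) (C i)).toReal := by
    refine Finset.sum_le_sum fun i _ => ?_
    haveI := hJf (c i) (d i)
    exact ENNReal.toReal_mono (measure_ne_top _ _)
      ((hB i).2.2.2.2.2 (C i) (hCc i).measurableSet ((hCs i).trans inter_subset_right))
  linarith

lemma pair {K : Type} [MetricSpace K] [CompactSpace K] {V : C(K, ℝ) → ℝ} {m ε : ℝ} {n : ℕ}
    {f g : C(K, ℝ)} (hf : 0 ≤ f) (hg : 0 ≤ g) (hfm : ‖f‖ ≤ m) (hgm : ‖g‖ ≤ m)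
    (hfg : ‖f - g‖ < 1 / ((n : ℝ) + 1)) (hV : 2 * ε < |V f - V g|) :
    PP V m ε n ∨ PP (fun f => - V f) m ε n := by
  have h1 : ∀ t, |f t - g t| ≤ 1 / ((n : ℝ) + 1) := by
    intro t
    have h2 := ContinuousMap.norm_coe_le_norm (f - g) t
    rw [ContinuousMap.sub_apply, Real.norm_eq_abs] at h2
    exact h2.trans hfg.le
  have h2 : ∀ u : C(K, ℝ), ‖u‖ ≤ m → ∀ t, u t ≤ m := fun u hu t =>
    (le_abs_self _).trans ((ContinuousMap.norm_coe_le_norm u t).trans hu)
  have hn : 0 ≤ 1 / ((n : ℝ) + 1) := by positivity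
  have key : ∀ p : C(K, ℝ), (p = f ∨ p = g) → ε < |V (f ⊔ g) - V p| →
      PP V m ε n ∨ PP (fun f => - V f) m ε n := by
    intro p hp hVp
    have hq : (∀ t, 0 ≤ p t) ∧ (∀ t, p t ≤ (f ⊔ g) t) ∧ (∀ t, (f ⊔ g) t ≤ m) ∧
        (∀ t, (f ⊔ g) t ≤ p t + 1 / ((n : ℝ) + 1)) := by
      refine ⟨?_, ?_, ?_, ?_⟩
      · rcases hp with rfl | rfl
        · exact fun t => hf t
        · exact fun t => hg t
      · intro t
        rw [ContinuousMap.sup_apply]
        rcases hp with rfl | rfl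
        · exact le_sup_left
        · exact le_sup_right
      · intro t
        rw [ContinuousMap.sup_apply]
        exact sup_le (h2 f hfm t) (h2 g hgm t)
      · intro t
        rw [ContinuousMap.sup_apply]
        have h3 := abs_le.mp (h1 t)
        rcases hp with rfl | rfl
        · exact sup_le (by linarith) (by linarith [h3.1])
        · exact sup_le (by linarith [h3.2]) (by linarith)
    rcases lt_abs.mp hVp with h3 | h3
    · exact Or.inl ⟨p, f ⊔ g, hq.1, hq.2.1, hq.2.2.1, hq.2.2.2, h3⟩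
    · refine Or.inr ⟨p, f ⊔ g, hq.1, hq.2.1, hq.2.2.1, hq.2.2.2, ?_⟩
      show ε < - V (f ⊔ g) - - V p
      linarith
  by_contra hcon
  have a1 : |V (f ⊔ g) - V f| ≤ ε := by
    by_contra h3
    exact hcon (key f (Or.inl rfl) (not_le.mp h3))
  have a2 : |V (f ⊔ g) - V g| ≤ ε := by
    by_contra h3
    exact hcon (key g (Or.inr rfl) (not_le.mp h3))
  rcases lt_abs.mp hV with h3 | h3
  · have := (abs_le.mp a1).1
    have := (abs_le.mp a2).2
    linarith
  · have := (abs_le.mp a1).2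
    have := (abs_le.mp a2).1
    linarith

end FWDM

open FWDM in
theorem specFWD (hBDD : SpecBDD) (hMEA : SpecMEA) (hTWI : SpecTWI) (hTRE : SpecTRE)
    (hLUS : SpecLUS) (hGLU : SpecGLU) : SpecFWD := by
  intro K _ _ _ _ D hD0 hT V hV hc
  intro m ε hm hε
  by_contra hcon
  push Not at hcon
  have hPP : ∀ n : ℕ, PP V m (ε / 2) n ∨ PP (fun f => - V f) m (ε / 2) n := by
    intro n
    obtain ⟨f, g, hf, hg, hfm, hgm, hfg, hVfg⟩ := hcon (1 / ((n : ℝ) + 1)) (by positivity)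
    exact pair hf hg hfm hgm hfg (by linarith)
  by_cases hall : ∀ n, PP V m (ε / 2) n
  · exact core hBDD hMEA hTWI hTRE hLUS hGLU K D hD0 hT V hV hc m (ε / 2) hm (by positivity) hall
  · push Not at hall
    obtain ⟨n0, hn0⟩ := hall
    refine core hBDD hMEA hTWI hTRE hLUS hGLU K D hD0 hT (fun f => - V f) ?_ ?_ m (ε / 2) hm
      (by positivity) ?_
    · intro f g hf hg
      have := hV f g hf hg
      show - V f + - V g = - V (f ⊔ g) + - V (f ⊓ g)
      linarith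
    · intro f hf e he
      obtain ⟨r, hr, hcr⟩ := hc f hf e he
      refine ⟨r, hr, fun g hg hgr => ?_⟩
      show |- V g - - V f| < e
      rw [show - V g - - V f = -(V g - V f) by ring, abs_neg]
      exact hcr g hg hgr
    · intro n
      rcases hPP (max n n0) with h1 | h1
      · exact absurd (h1.anti (le_max_right n n0)) hn0
      · exact h1.anti (le_max_left n n0)

end

end Pool.Agent.Lib.MP5bcdfb.TS
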