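import Pool.Agent.Lib.MP_5bcdfb_an.TS.Spec

/-!
MP_5bcdfb_an, module GLU: many jumps near `f` add up.
-/

set_option autoImplicit false

namespace Pool.Agent.Lib.MP5bcdfb.TS

open MeasureTheory Set TopologicalSpace Filter Topology

noncomputable section

namespace GLUM

variable {K : Type} [MetricSpace K] [CompactSpace K]

/-- `x` is reached in `U` -/
def Reach (V : C(K, ℝ) → ℝ) (f : C(K, ℝ)) (r : ℝ) (U : Set K) (x : ℝ) : Prop :=
  ∃ p q : C(K, ℝ), 0 ≤ p ∧ p ≤ q ∧ ‖p - f‖ < r ∧ ‖q - f‖ < r ∧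
    tsupport (fun t => q t - p t) ⊆ U ∧ x ≤ V q - V p

lemma eq_of_notMem {p q : C(K, ℝ)} {t : K} (h : t ∉ tsupport (fun t => q t - p t)) : q t = p t := by
  have h1 : (fun t => q t - p t) t = 0 :=
    image_eq_zero_of_notMem_tsupport (f := fun t => q t - p t) h
  exact sub_eq_zero.1 h1

lemma norm_sub_lt {f p : C(K, ℝ)} {r : ℝ} (hr : 0 < r) : ‖p - f‖ < r ↔ ∀ t, |p t - f t| < r := by
  rw [ContinuousMap.norm_lt_iff _ hr]
  exact Iff.rfl

lemma urysohn {S T : Set K} (hS : IsClosed S) (hT : IsClosed T) (hd : Disjoint S T) :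
    ∃ φ : C(K, ℝ), (∀ t ∈ S, φ t = 1) ∧ (∀ t ∈ T, φ t = 0) ∧ ∀ t, 0 ≤ φ t ∧ φ t ≤ 1 := by
  obtain ⟨φ, h0, h1, h2⟩ := exists_continuous_zero_one_of_isClosed hT hS hd.symm
  exact ⟨φ, fun t ht => h1 ht, fun t ht => h0 ht, fun t => h2 t⟩

lemma conv_lt {a x y z r : ℝ} (ha : 0 ≤ a) (ha1 : a ≤ 1) (hx : |x - z| < r) (hy : |y - z| < r) :
    |a * x + (1 - a) * y - z| < r := by
  have h1 : |x - z| ≤ max |x - z| |y - z| := le_max_left _ _
  have h2 : |y - z| ≤ max |x - z| |y - z| := le_max_right _ _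
  have h3 : a * x + (1 - a) * y - z = a * (x - z) + (1 - a) * (y - z) := by ring
  rw [h3]
  refine (abs_add_le _ _).trans_lt ?_
  rw [abs_mul, abs_mul, abs_of_nonneg ha, abs_of_nonneg (sub_nonneg.2 ha1)]
  have h4 := mul_le_mul_of_nonneg_left h1 ha
  have h5 := mul_le_mul_of_nonneg_left h2 (sub_nonneg.2 ha1)
  have h6 : max |x - z| |y - z| < r := max_lt hx hy
  nlinarith

/-- (1) -/
lemma reach_union (hLOC : SpecLOC) {V : C(K, ℝ) → ℝ} (hV : IsVal V) {f : C(K, ℝ)} {r : ℝ}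
    (hr : 0 < r) {U₁ U₂ : Set K} (hU : Disjoint U₁ U₂) {x₁ x₂ : ℝ} (h1 : Reach V f r U₁ x₁)
    (h2 : Reach V f r U₂ x₂) : Reach V f r (U₁ ∪ U₂) (x₁ + x₂) := by
  obtain ⟨p₁, q₁, p0, pq, np, nq, sp, hx⟩ := h1
  obtain ⟨p₂, q₂, p0', pq', np', nq', sp', hx'⟩ := h2
  rw [norm_sub_lt hr] at np nq np' nq'
  have hdis : Disjoint (tsupport (fun t => q₁ t - p₁ t)) (tsupport (fun t => q₂ t - p₂ t)) :=
    hU.mono sp sp'
  obtain ⟨φ, f1, f2, f3⟩ := urysohn (isClosed_tsupport _) (isClosed_tsupport _) hdis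
  have hn1 : ∀ t, t ∈ tsupport (fun t => q₁ t - p₁ t) → q₂ t = p₂ t := fun t ht =>
    eq_of_notMem fun h => (Set.disjoint_left.1 hdis) ht h
  have hn2 : ∀ t, t ∈ tsupport (fun t => q₂ t - p₂ t) → q₁ t = p₁ t := fun t ht =>
    eq_of_notMem fun h => (Set.disjoint_left.1 hdis) h ht
  set p : C(K, ℝ) := φ * p₁ + (1 - φ) * p₂ with hp
  set Q : C(K, ℝ) := p + (q₁ - p₁) with hQ
  set q : C(K, ℝ) := Q + (q₂ - p₂) with hq
  have pt : ∀ t, p t = φ t * p₁ t + (1 - φ t) * p₂ t := fun t => rfl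
  have Qt : ∀ t, Q t = p t + (q₁ t - p₁ t) := fun t => rfl
  have qt : ∀ t, q t = Q t + (q₂ t - p₂ t) := fun t => rfl
  have le1 : ∀ t, p₁ t ≤ q₁ t := fun t => pq t
  have le2 : ∀ t, p₂ t ≤ q₂ t := fun t => pq' t
  have P0 : 0 ≤ p := by
    intro t
    show 0 ≤ p t
    rw [pt]
    have a1 : 0 ≤ p₁ t := p0 t
    have a2 : 0 ≤ p₂ t := p0' t
    have a3 := f3 t
    have a4 := mul_nonneg a3.1 a1
    have a5 := mul_nonneg (sub_nonneg.2 a3.2) a2
    linarith
  have PQ : p ≤ Q := fun t => by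
    show p t ≤ Q t
    rw [Qt]; linarith [le1 t]
  have QQ : Q ≤ q := fun t => by
    show Q t ≤ q t
    rw [qt]; linarith [le2 t]
  have e1 : V Q - V p = V q₁ - V p₁ := by
    apply hLOC K V hV p Q p₁ q₁ P0 p0 PQ pq
    intro t
    by_cases ht : t ∈ tsupport (fun t => q₁ t - p₁ t)
    · left
      have h3 : p t = p₁ t := by rw [pt, f1 t ht]; ring
      exact ⟨h3, by rw [Qt, h3]; ring⟩
    · right
      have h3 := eq_of_notMem ht
      exact ⟨by rw [Qt, h3]; ring, h3.symm⟩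
  have e2 : V q - V Q = V q₂ - V p₂ := by
    apply hLOC K V hV Q q p₂ q₂ (P0.trans PQ) p0' QQ pq'
    intro t
    by_cases ht : t ∈ tsupport (fun t => q₂ t - p₂ t)
    · left
      have h3 : Q t = p₂ t := by rw [Qt, pt, f2 t ht, hn2 t ht]; ring
      exact ⟨h3, by rw [qt, h3]; ring⟩
    · right
      have h3 := eq_of_notMem ht
      exact ⟨by rw [qt, h3]; ring, h3.symm⟩
  have bp : ∀ t, |p t - f t| < r := fun t => by
    rw [pt]
    exact conv_lt (f3 t).1 (f3 t).2 (np t) (np' t)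
  refine ⟨p, q, P0, PQ.trans QQ, (norm_sub_lt hr).2 bp, (norm_sub_lt hr).2 fun t => ?_, ?_, ?_⟩
  · by_cases ht : t ∈ tsupport (fun t => q₁ t - p₁ t)
    · have h3 : q t = q₁ t := by rw [qt, Qt, pt, f1 t ht, hn1 t ht]; ring
      rw [h3]; exact nq t
    · by_cases ht2 : t ∈ tsupport (fun t => q₂ t - p₂ t)
      · have h3 : q t = q₂ t := by rw [qt, Qt, pt, f2 t ht2, hn2 t ht2]; ring
        rw [h3]; exact nq' t
      · have h3 : q t = p t := by rw [qt, Qt, eq_of_notMem ht, eq_of_notMem ht2]; ring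
        rw [h3]; exact bp t
  · have h4 : (fun t => q t - p t) = fun t => (q₁ t - p₁ t) + (q₂ t - p₂ t) := by
      funext t
      rw [qt, Qt]; ring
    rw [h4]
    refine (closure_mono (Function.support_add _ _)).trans ?_
    rw [closure_union]
    exact Set.union_subset_union sp sp'
  · linarith

/-- (2) -/
lemma reach_one [MeasurableSpace K] [BorelSpace K] (hLOC : SpecLOC) (hOMB : SpecOMB)
    {V : C(K, ℝ) → ℝ} {m M : ℝ} (hV : IsVal V)
    (hM : ∀ f : C(K, ℝ), 0 ≤ f → (∀ t, f t ≤ m) → |V f| ≤ M) {f : C(K, ℝ)} {r : ℝ} (hf : 0 ≤ f)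
    (hr : 0 < r) {C : Set K} {c d : ℝ} {μ : Measure K} (hC : IsCompact C)
    (hc : 0 ≤ c) (hcd : c < d) (hdm : d ≤ m) (hd : d - c < r / 2)
    (hfC : ∀ t ∈ C, c ≤ f t ∧ f t ≤ d) (hμ : IsJm V c d μ) {U : Set K} (hU : IsOpen U)
    (hCU : C ⊆ U) {x : ℝ} (hx : x < (μ C).toReal) : Reach V f r U x := by
  obtain ⟨-, -, -, o4, -, -⟩ := hOMB K V c d M hV hc hcd.le
    (fun g hg hgd => hM g hg fun t => (hgd t).trans hdm)
  set U' : Set K := U ∩ {t | |f t - c| < r / 2} with hU'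
  have oU' : IsOpen U' := hU.inter (isOpen_lt (by fun_prop) continuous_const)
  have hCU' : C ⊆ U' := fun t ht => ⟨hCU ht, by
    show |f t - c| < r / 2
    have h1 := hfC t ht
    rw [abs_lt]
    constructor <;> linarith⟩
  have h1 : (μ C).toReal ≤ om V c d 0 U' := hμ.le C U' 0 hC oU' hCU'
  obtain ⟨f', g', hP, hg⟩ := o4 0 U' (om V c d 0 U' - x) (by linarith)
  have hg2 : x ≤ V g' - V f' := by linarith
  have hdis : Disjoint (tsupport (fun t => g' t - f' t)) U'ᶜ :=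
    Set.disjoint_left.2 fun t ht h => h (hP.supp ht)
  obtain ⟨φ, f1, f2, f3⟩ := urysohn (isClosed_tsupport _) oU'.isClosed_compl hdis
  set p : C(K, ℝ) := φ * f' + (1 - φ) * f with hp
  set q : C(K, ℝ) := p + (g' - f') with hq
  have pt : ∀ t, p t = φ t * f' t + (1 - φ t) * f t := fun t => rfl
  have qt : ∀ t, q t = p t + (g' t - f' t) := fun t => rfl
  have F0 : 0 ≤ f' := fun t => hc.trans (hP.low t)
  have P0 : 0 ≤ p := by
    intro t
    show 0 ≤ p t
    rw [pt]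
    have a1 : 0 ≤ f' t := F0 t
    have a2 : 0 ≤ f t := hf t
    have a3 := f3 t
    have a4 := mul_nonneg a3.1 a1
    have a5 := mul_nonneg (sub_nonneg.2 a3.2) a2
    linarith
  have PQ : p ≤ q := fun t => by
    show p t ≤ q t
    rw [qt]; linarith [hP.le t]
  have key : ∀ t ∈ U', ∀ y, c ≤ y → y ≤ d → |y - f t| < r := by
    intro t ht y hy1 hy2
    have h3 : |f t - c| < r / 2 := ht.2
    rw [abs_lt] at h3 ⊢
    constructor <;> linarith
  have bp : ∀ t, |p t - f t| < r := fun t => by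
    rw [pt]
    by_cases ht : t ∈ U'
    · refine conv_lt (f3 t).1 (f3 t).2 (key t ht _ (hP.low t) ((hP.le t).trans (hP.upp t))) ?_
      rw [sub_self, abs_zero]; exact hr
    · rw [f2 t ht]
      have : (0 : ℝ) * f' t + (1 - 0) * f t - f t = 0 := by ring
      rw [this, abs_zero]; exact hr
  have eS : ∀ t ∈ tsupport (fun t => g' t - f' t), p t = f' t := fun t ht => by
    rw [pt, f1 t ht]; ring
  have e1 : V q - V p = V g' - V f' := by
    apply hLOC K V hV p q f' g' P0 F0 PQ hP.le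
    intro t
    by_cases ht : t ∈ tsupport (fun t => g' t - f' t)
    · left
      exact ⟨eS t ht, by rw [qt, eS t ht]; ring⟩
    · right
      have h3 := eq_of_notMem ht
      exact ⟨by rw [qt, h3]; ring, h3.symm⟩
  refine ⟨p, q, P0, PQ, (norm_sub_lt hr).2 bp, (norm_sub_lt hr).2 fun t => ?_, ?_, ?_⟩
  · by_cases ht : t ∈ tsupport (fun t => g' t - f' t)
    · have h3 : q t = g' t := by rw [qt, eS t ht]; ring
      rw [h3]
      exact key t (hP.supp ht) _ ((hP.low t).trans (hP.le t)) (hP.upp t)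
    · have h3 : q t = p t := by rw [qt, eq_of_notMem ht]; ring
      rw [h3]; exact bp t
  · have h4 : (fun t => q t - p t) = fun t => g' t - f' t := by
      funext t
      rw [qt]; ring
    rw [h4]
    exact hP.supp.trans Set.inter_subset_left
  · rw [e1]; exact hg2

lemma Reach.mono {V : C(K, ℝ) → ℝ} {f : C(K, ℝ)} {r : ℝ} {U U' : Set K} {x : ℝ} (hU : U ⊆ U')
    (h : Reach V f r U x) : Reach V f r U' x := by
  obtain ⟨p, q, h1, h2, h3, h4, h5, h6⟩ := h
  exact ⟨p, q, h1, h2, h3, h4, h5.trans hU, h6⟩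

lemma reach_zero (V : C(K, ℝ) → ℝ) {f : C(K, ℝ)} {r : ℝ} (hf : 0 ≤ f) (hr : 0 < r) (U : Set K) :
    Reach V f r U 0 := by
  refine ⟨f, f, hf, le_rfl, ?_, ?_, ?_, ?_⟩
  · rw [sub_self, norm_zero]; exact hr
  · rw [sub_self, norm_zero]; exact hr
  · have : (fun t => f t - f t) = fun _ => (0 : ℝ) := by funext t; ring
    rw [this]
    have h2 : tsupport (fun _ : K => (0 : ℝ)) = ∅ := by
      rw [tsupport_eq_empty_iff]; rfl
    rw [h2]
    exact Set.empty_subset _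
  · rw [sub_self]

/-- (3) -/
lemma reach_sum (hLOC : SpecLOC) {V : C(K, ℝ) → ℝ} (hV : IsVal V) {f : C(K, ℝ)} {r : ℝ}
    (hf : 0 ≤ f) (hr : 0 < r) {N : ℕ} (C : Fin N → Set K) (x : Fin N → ℝ)
    (hC : ∀ i, IsCompact (C i)) (hd : ∀ i j, i ≠ j → Disjoint (C i) (C j))
    (h : ∀ i, ∀ U : Set K, IsOpen U → C i ⊆ U → Reach V f r U (x i)) (s : Finset (Fin N)) :
    ∀ U : Set K, IsOpen U → (⋃ i ∈ s, C i) ⊆ U → Reach V f r U (∑ i ∈ s, x i) := by
  induction s using Finset.induction_on with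
  | empty =>
    intro U _ _
    rw [Finset.sum_empty]
    exact reach_zero V hf hr U
  | insert i s hi ih =>
    intro U hU hCU
    have h1 : C i ⊆ U := fun t ht => hCU (Set.mem_biUnion (Finset.mem_insert_self i s) ht)
    have h2 : (⋃ j ∈ s, C j) ⊆ U := fun t ht => by
      obtain ⟨j, hj, hjt⟩ := Set.mem_iUnion₂.1 ht
      exact hCU (Set.mem_biUnion (Finset.mem_insert_of_mem hj) hjt)
    have hcomp : IsCompact (⋃ j ∈ s, C j) := s.isCompact_biUnion fun j _ => hC j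
    have hdis : Disjoint (C i) (⋃ j ∈ s, C j) := by
      rw [Set.disjoint_left]
      intro t ht ht2
      obtain ⟨j, hj, hjt⟩ := Set.mem_iUnion₂.1 ht2
      have hij : i ≠ j := fun h => hi (h ▸ hj)
      exact (Set.disjoint_left.1 (hd i j hij)) ht hjt
    obtain ⟨W₁, W₂, o1, o2, c1, c2, hW⟩ := SeparatedNhds.of_isCompact_isCompact (hC i) hcomp hdis
    have r1 := h i (U ∩ W₁) (hU.inter o1) (Set.subset_inter h1 c1)
    have r2 := ih (U ∩ W₂) (hU.inter o2) (Set.subset_inter h2 c2)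
    rw [Finset.sum_insert hi]
    refine (reach_union hLOC hV hr ?_ r1 r2).mono ?_
    · exact hW.mono Set.inter_subset_right Set.inter_subset_right
    · exact Set.union_subset Set.inter_subset_left Set.inter_subset_left

end GLUM

theorem specGLU (hLOC : SpecLOC) (hOMB : SpecOMB) : SpecGLU := by
  intro K _ _ _ _ V m M hV hM f r ε hf hr hε N C c d μ hC hd hcd hfC hμ
  apply le_of_forall_pos_le_add
  intro δ hδ
  have hN : (0 : ℝ) < (N : ℝ) + 1 := by positivity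
  have h1 : ∀ i, ∀ U : Set K, IsOpen U → C i ⊆ U →
      GLUM.Reach V f r U ((μ i (C i)).toReal - δ / ((N : ℝ) + 1)) := by
    intro i U hU hCU
    obtain ⟨a1, a2, a3, a4⟩ := hcd i
    refine GLUM.reach_one hLOC hOMB hV hM hf hr (hC i) a1 a2 a3 a4 (hfC i) (hμ i) hU hCU ?_
    have : 0 < δ / ((N : ℝ) + 1) := div_pos hδ hN
    linarith
  obtain ⟨p, q, p0, pq, np, nq, -, hx⟩ := GLUM.reach_sum hLOC hV hf hr C
    (fun i => (μ i (C i)).toReal - δ / ((N : ℝ) + 1)) hC hd h1 Finset.univ Set.univ isOpen_univ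
    (Set.subset_univ _)
  have h2 := hε p q p0 (p0.trans pq) np nq
  rw [Finset.sum_sub_distrib, Finset.sum_const, Finset.card_univ, Fintype.card_fin,
    nsmul_eq_mul] at hx
  have h3 : (N : ℝ) * (δ / ((N : ℝ) + 1)) ≤ δ := by
    rw [mul_div_assoc', div_le_iff₀ hN]
    nlinarith
  linarith

end

end Pool.Agent.Lib.MP5bcdfb.TS
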