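import Pool.Agent.Lib.MP_5bcdfb_an.TS.Spec

/-!
# MP_5bcdfb: module LIM, uniform convergence
-/

set_option autoImplicit false

namespace Pool.Agent.Lib.MP5bcdfb.TS

open MeasureTheory Set TopologicalSpace Filter Topology

theorem specLIM (hOMB : SpecOMB) : SpecLIM := by
  intro K _ _ _ _ V c d M hV hc hcd hM μ hμ ε hε
  obtain ⟨-, -, hmono, -, -, hsup⟩ := hOMB K V c d M hV hc hcd hM
  have := hμ.fin
  obtain ⟨n₀, U, -, hU, hU2⟩ := hμ.ex univ isCompact_univ (ε / 2) (by linarith)
  refine ⟨n₀, fun n hn O => ?_⟩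
  -- a compact subset of the complement of the closure
  have hcl : MeasurableSet (closure O) := isClosed_closure.measurableSet
  obtain ⟨C', hC'sub, hC', hC'lt⟩ := hcl.compl.exists_isCompact_lt_add (μ := μ)
    (measure_ne_top μ _) (ε := ENNReal.ofReal (ε / 2)) (by
      rw [ne_eq, ENNReal.ofReal_eq_zero, not_le]
      linarith)
  have h1 : (μ (closure O)ᶜ).toReal ≤ (μ C').toReal + ε / 2 := by
    have h2 : (μ C' + ENNReal.ofReal (ε / 2)).toReal = (μ C').toReal + ε / 2 := by
      rw [ENNReal.toReal_add (measure_ne_top μ _) ENNReal.ofReal_ne_top,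
        ENNReal.toReal_ofReal (by linarith)]
    rw [← h2]
    exact ENNReal.toReal_mono (ENNReal.add_ne_top.2 ⟨measure_ne_top μ _, ENNReal.ofReal_ne_top⟩)
      hC'lt.le
  have h3 : (μ univ).toReal = (μ (closure O)).toReal + (μ (closure O)ᶜ).toReal := by
    rw [← ENNReal.toReal_add (measure_ne_top μ _) (measure_ne_top μ _),
      measure_add_measure_compl hcl]
  have hle := hμ.le C' (closure O)ᶜ n hC' isClosed_closure.isOpen_compl hC'sub
  have hdis : Disjoint O (closure O)ᶜ := by
    rw [Set.disjoint_compl_right_iff_subset]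
    exact subset_closure
  have h4 := hsup n O (closure O)ᶜ hdis
  have h5 := hmono n₀ n (O ∪ (closure O)ᶜ) U hn (fun t _ => hU (mem_univ t))
  linarith

end Pool.Agent.Lib.MP5bcdfb.TS
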