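import Pool.Agent.Lib.MP_5bcdfb_an.TS.Spec

/-!
# MP_5bcdfb, TS: module LIP (Lipschitz functions on the sphere do not satisfy the criterion)
-/

set_option autoImplicit false

namespace Pool.Agent.Lib.MP5bcdfb.TS

open MeasureTheory Set TopologicalSpace Filter Topology

noncomputable section

namespace LIPM

/-- the circle in the first two coordinates -/
def g0 {n : ℕ} (i j : Fin n) (x : ℝ) : EuclideanSpace ℝ (Fin n) :=
  Real.cos x • EuclideanSpace.single i (1 : ℝ) + Real.sin x • EuclideanSpace.single j (1 : ℝ)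

theorem norm_g0 {n : ℕ} {i j : Fin n} (h : i ≠ j) (x : ℝ) : ‖g0 i j x‖ = 1 := by
  have h1 : ‖g0 i j x‖ ^ 2 = 1 := by
    unfold g0
    rw [norm_add_sq_real, norm_smul, norm_smul, EuclideanSpace.norm_single, EuclideanSpace.norm_single,
      real_inner_smul_left, real_inner_smul_right, EuclideanSpace.inner_single_left]
    simp [h]
  have h2 : 0 ≤ ‖g0 i j x‖ := norm_nonneg _
  nlinarith

theorem g0_apply {n : ℕ} {i j : Fin n} (h : i ≠ j) (x : ℝ) : g0 i j x j = Real.sin x := by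
  unfold g0
  simp [h.symm]

theorem g0_sub {n : ℕ} (i j : Fin n) (x y : ℝ) : ‖g0 i j x - g0 i j y‖ ≤ 2 * |x - y| := by
  have e : g0 i j x - g0 i j y = (Real.cos x - Real.cos y) • EuclideanSpace.single i (1 : ℝ) +
      (Real.sin x - Real.sin y) • EuclideanSpace.single j (1 : ℝ) := by
    unfold g0
    rw [sub_smul, sub_smul]; abel
  rw [e]
  refine (norm_add_le _ _).trans ?_
  rw [norm_smul, norm_smul, EuclideanSpace.norm_single, EuclideanSpace.norm_single, norm_one, mul_one, mul_one,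
    Real.norm_eq_abs, Real.norm_eq_abs]
  have h1 : |Real.cos x - Real.cos y| ≤ |x - y| := by
    have := Real.lipschitzWith_cos.dist_le_mul x y
    simpa [Real.dist_eq] using this
  have h2 : |Real.sin x - Real.sin y| ≤ |x - y| := by
    have := Real.lipschitzWith_sin.dist_le_mul x y
    simpa [Real.dist_eq] using this
  linarith

theorem cont_g0 {n : ℕ} (i j : Fin n) : Continuous (g0 i j) := by
  unfold g0
  fun_prop

/-- the circle as a map into the sphere -/
def gS {n : ℕ} {i j : Fin n} (h : i ≠ j) (x : ℝ) : Metric.sphere (0 : EuclideanSpace ℝ (Fin n)) 1 :=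
  ⟨g0 i j x, by rw [mem_sphere_zero_iff_norm]; exact norm_g0 h x⟩

theorem cont_gS {n : ℕ} {i j : Fin n} (h : i ≠ j) : Continuous (gS h) :=
  (cont_g0 i j).subtype_mk _

/-- the measure estimate -/
theorem vol_zero (φ : ℝ → ℝ) (L : ℝ) (hL : 0 ≤ L) (hφ : ∀ (N : ℕ) (y y' : ℝ), 0 ≤ y → y < 1 → 0 ≤ y' → y' < 1 →
    ⌊(2 : ℝ) ^ N * y⌋ = ⌊(2 : ℝ) ^ N * y'⌋ → |φ y - φ y'| ≤ L * (1 / 3) ^ N) :
    volume {y : ℝ | 0 ≤ y ∧ y < 1 ∧ φ y = y} = 0 := by
  set A : Set ℝ := {y : ℝ | 0 ≤ y ∧ y < 1 ∧ φ y = y} with hA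
  have key : ∀ N : ℕ, volume A ≤ ENNReal.ofReal (2 * L * (2 / 3) ^ N) := by
    intro N
    have hcov : A ⊆ ⋃ k : Fin (2 ^ N), (A ∩ {y | ⌊(2 : ℝ) ^ N * y⌋ = (k : ℕ)}) := by
      intro y hy
      obtain ⟨h0, h1, -⟩ := id hy
      have hf0 : 0 ≤ ⌊(2 : ℝ) ^ N * y⌋ := Int.floor_nonneg.2 (by positivity)
      have hf1 : ⌊(2 : ℝ) ^ N * y⌋ < ((2 ^ N : ℕ) : ℤ) := by
        rw [Int.floor_lt]
        push_cast
        have : (0 : ℝ) < 2 ^ N := by positivity
        nlinarith
      obtain ⟨k, hk⟩ := Int.eq_ofNat_of_zero_le hf0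
      have hk' : k < 2 ^ N := by
        rw [hk] at hf1
        exact_mod_cast hf1
      exact mem_iUnion.2 ⟨⟨k, hk'⟩, hy, hk⟩
    have hpiece : ∀ k : Fin (2 ^ N), volume (A ∩ {y | ⌊(2 : ℝ) ^ N * y⌋ = (k : ℕ)}) ≤
        ENNReal.ofReal (2 * (L * (1 / 3) ^ N)) := by
      intro k
      rcases (A ∩ {y | ⌊(2 : ℝ) ^ N * y⌋ = (k : ℕ)}).eq_empty_or_nonempty with he | ⟨y₀, hy₀⟩
      · rw [he, measure_empty]; exact zero_le
      · have hsub : A ∩ {y | ⌊(2 : ℝ) ^ N * y⌋ = (k : ℕ)} ⊆ Icc (y₀ - L * (1 / 3) ^ N) (y₀ + L * (1 / 3) ^ N) := by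
          rintro y ⟨⟨h0, h1, h2⟩, h3⟩
          obtain ⟨⟨h0', h1', h2'⟩, h3'⟩ := hy₀
          have h3a : ⌊(2 : ℝ) ^ N * y⌋ = (k : ℕ) := h3
          have h3b : ⌊(2 : ℝ) ^ N * y₀⌋ = (k : ℕ) := h3'
          have := hφ N y y₀ h0 h1 h0' h1' (h3a.trans h3b.symm)
          rw [h2, h2', abs_le] at this
          constructor <;> linarith [this.1, this.2]
        refine (measure_mono hsub).trans ?_
        rw [Real.volume_Icc]
        apply ENNReal.ofReal_le_ofReal
        linarith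
    calc volume A ≤ volume (⋃ k : Fin (2 ^ N), (A ∩ {y | ⌊(2 : ℝ) ^ N * y⌋ = (k : ℕ)})) := measure_mono hcov
      _ ≤ ∑ k : Fin (2 ^ N), volume (A ∩ {y | ⌊(2 : ℝ) ^ N * y⌋ = (k : ℕ)}) := measure_iUnion_fintype_le _ _
      _ ≤ ∑ _k : Fin (2 ^ N), ENNReal.ofReal (2 * (L * (1 / 3) ^ N)) := Finset.sum_le_sum fun k _ => hpiece k
      _ = ENNReal.ofReal (2 * L * (2 / 3) ^ N) := by
        rw [Finset.sum_const, Finset.card_univ, Fintype.card_fin, nsmul_eq_mul]
        have e : ((2 ^ N : ℕ) : ENNReal) = ENNReal.ofReal (2 ^ N) := by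
          rw [ENNReal.ofReal_pow (by norm_num)]
          push_cast
          norm_num
        rw [e, ← ENNReal.ofReal_mul (by positivity)]
        congr 1
        have : (2 / 3 : ℝ) ^ N = 2 ^ N * (1 / 3) ^ N := by rw [← mul_pow]; norm_num
        rw [this]; ring
  have hlim : Tendsto (fun N : ℕ => ENNReal.ofReal (2 * L * (2 / 3) ^ N)) atTop (𝓝 0) := by
    have h1 : Tendsto (fun N : ℕ => 2 * L * (2 / 3 : ℝ) ^ N) atTop (𝓝 0) := by
      have := (tendsto_pow_atTop_nhds_zero_of_lt_one (r := (2 / 3 : ℝ)) (by norm_num) (by norm_num)).const_mul (2 * L)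
      rwa [mul_zero] at this
    have := ENNReal.tendsto_ofReal h1
    rwa [ENNReal.ofReal_zero] at this
  exact le_antisymm (ge_of_tendsto' hlim key) zero_le

end LIPM

open LIPM in
theorem specLIP (hCAN : SpecCAN) : SpecLIP := by
  intro n hn hT
  obtain ⟨π, u, hπm, hu, hu01, hπ01, huπ, hcon⟩ := hCAN
  have hij : (⟨0, by omega⟩ : Fin n) ≠ ⟨1, by omega⟩ := by
    intro h
    have := congrArg Fin.val h
    simp at this
  set j : Fin n := ⟨1, by omega⟩ with hj
  let a : C(Metric.sphere (0 : EuclideanSpace ℝ (Fin n)) 1, ℝ) :=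
    ⟨fun s => u (Real.arcsin ((s : EuclideanSpace ℝ (Fin n)) j)), by
      refine hu.comp (Real.continuous_arcsin.comp ?_)
      fun_prop⟩
  have ha0 : 0 ≤ a := fun s => (hu01 _).1
  have hγπ : Measurable fun y => gS hij (π y) := (cont_gS hij).measurable.comp hπm
  have haγ : ∀ y, 0 ≤ y → y < 1 → a (gS hij (π y)) = y := by
    intro y h0 h1
    show u (Real.arcsin ((g0 _ j (π y)) j)) = y
    rw [g0_apply hij, Real.arcsin_sin, huπ y h0 h1]
    · have := (hπ01 y).1
      have := Real.pi_pos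
      linarith
    · have := (hπ01 y).2
      have := Real.pi_gt_three
      linarith
  let μ : Measure (Metric.sphere (0 : EuclideanSpace ℝ (Fin n)) 1) :=
    Measure.map (fun y => gS hij (π y)) (volume.restrict (Ico (0 : ℝ) 1))
  have hμfin : IsFiniteMeasure μ := by
    have : IsFiniteMeasure (volume.restrict (Ico (0 : ℝ) 1)) := ⟨by
      rw [Measure.restrict_apply_univ, Real.volume_Ico]; exact ENNReal.ofReal_lt_top⟩
    exact Measure.isFiniteMeasure_map _ _
  have hμ0 : μ ≠ 0 := by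
    intro h0
    have h1 : μ univ = 1 := by
      show Measure.map (fun y => gS hij (π y)) (volume.restrict (Ico (0 : ℝ) 1)) univ = 1
      rw [Measure.map_apply hγπ MeasurableSet.univ, preimage_univ, Measure.restrict_apply_univ, Real.volume_Ico]
      norm_num
    rw [h0] at h1
    simp at h1
  obtain ⟨f, ⟨-, L, hL⟩, hf⟩ := hT a μ ha0 hμ0
  have hcl : MeasurableSet {t | f t = a t} := (isClosed_eq f.continuous a.continuous).measurableSet
  have h2 : μ {t | f t = a t} = 0 := by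
    show Measure.map (fun y => gS hij (π y)) (volume.restrict (Ico (0 : ℝ) 1)) {t | f t = a t} = 0
    rw [Measure.map_apply hγπ hcl, Measure.restrict_apply (hγπ hcl)]
    have hsub : (fun y => gS hij (π y)) ⁻¹' {t | f t = a t} ∩ Ico 0 1 ⊆
        {y : ℝ | 0 ≤ y ∧ y < 1 ∧ f (gS hij (π y)) = y} := by
      rintro y ⟨h3, h4, h5⟩
      have h6 : f (gS hij (π y)) = a (gS hij (π y)) := h3
      exact ⟨h4, h5, by rw [h6, haγ y h4 h5]⟩
    refine measure_mono_null hsub ?_
    refine vol_zero (fun y => f (gS hij (π y))) (2 * L) (by positivity) ?_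
    intro N y y' h0 h1 h0' h1' hfl
    have h3 := hL.dist_le_mul (gS hij (π y)) (gS hij (π y'))
    rw [Real.dist_eq] at h3
    have h4 : dist (gS hij (π y)) (gS hij (π y')) ≤ 2 * |π y - π y'| := by
      rw [Subtype.dist_eq, dist_eq_norm]
      exact g0_sub _ _ _ _
    have h5 := hcon N y y' h0 h1 h0' h1' hfl
    calc |f (gS hij (π y)) - f (gS hij (π y'))| ≤ L * dist (gS hij (π y)) (gS hij (π y')) := h3
      _ ≤ L * (2 * (1 / 3) ^ N) := by
        apply mul_le_mul_of_nonneg_left _ L.2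
        linarith
      _ = 2 * L * (1 / 3) ^ N := by ring
  rw [h2] at hf
  exact lt_irrefl _ hf

end

end Pool.Agent.Lib.MP5bcdfb.TS
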