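import Pool.Agent.Lib.MP_5bcdfb_an.TS.Spec

/-!
# MP_5bcdfb_an, module LOC: increments are local
-/

set_option autoImplicit false

namespace Pool.Agent.Lib.MP5bcdfb.TS

open MeasureTheory Set TopologicalSpace Filter Topology

theorem specLOC : SpecLOC := by
  intro K _ V hV f g f' g' hf hf' hfg hfg' h
  have hp : 0 ≤ f ⊔ f' := hf.trans le_sup_left
  have key : ∀ a b a' b' : C(K, ℝ), a ≤ b → a' ≤ b' →
      (∀ t, (a t = a' t ∧ b t = b' t) ∨ (a t = b t ∧ a' t = b' t)) →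
      b ⊔ (a ⊔ a') = b ⊔ b' ∧ b ⊓ (a ⊔ a') = a := by
    intro a b a' b' h1 h2 h3
    constructor
    · ext t
      have h1t : a t ≤ b t := h1 t
      have h2t : a' t ≤ b' t := h2 t
      simp only [ContinuousMap.sup_apply]
      rcases h3 t with ⟨e1, e2⟩ | ⟨e1, e2⟩
      · rw [← e1, ← e2, sup_idem, sup_idem, sup_eq_left.2 h1t]
      · rw [← e1, ← e2, ← sup_assoc, sup_idem]
    · ext t
      have h1t : a t ≤ b t := h1 t
      have h2t : a' t ≤ b' t := h2 t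
      simp only [ContinuousMap.sup_apply, ContinuousMap.inf_apply]
      rcases h3 t with ⟨e1, e2⟩ | ⟨e1, e2⟩
      · rw [← e1, sup_idem, inf_eq_right.2 h1t]
      · rw [← e1, inf_sup_self]
  obtain ⟨a1, a2⟩ := key f g f' g' hfg hfg' h
  obtain ⟨b1, b2⟩ := key f' g' f g hfg' hfg fun t => by
    rcases h t with ⟨e1, e2⟩ | ⟨e1, e2⟩
    · exact Or.inl ⟨e1.symm, e2.symm⟩
    · exact Or.inr ⟨e2, e1⟩
  have h1 := hV g (f ⊔ f') (hf.trans hfg) hp
  have h2 := hV g' (f' ⊔ f) (hf'.trans hfg') (hf'.trans le_sup_left)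
  rw [a1, a2] at h1
  rw [b1, b2, sup_comm f' f, sup_comm g' g] at h2
  linarith

end Pool.Agent.Lib.MP5bcdfb.TS
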