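import Pool.Agent.Lib.MP_5bcdfb_an.TS.Spec

/-! Module MEA: the jump measure exists. -/

set_option autoImplicit false

namespace Pool.Agent.Lib.MP5bcdfb.TS

open MeasureTheory Set TopologicalSpace Filter Topology

noncomputable section

namespace MEAM

/-- the values of `om` on the open neighbourhoods of `C` -/
def S {K : Type} [TopologicalSpace K] (V : C(K, ℝ) → ℝ) (c d : ℝ) (C : Set K) : Set ℝ :=
  {x | ∃ (n : ℕ) (U : Set K), IsOpen U ∧ C ⊆ U ∧ x = om V c d n U}

/-- their infimum -/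
def lam {K : Type} [TopologicalSpace K] (V : C(K, ℝ) → ℝ) (c d : ℝ) (C : Set K) : ℝ := sInf (S V c d C)

variable {K : Type} [TopologicalSpace K] {V : C(K, ℝ) → ℝ} {c d : ℝ}

theorem lam_nonneg (h0 : ∀ (n : ℕ) (U : Set K), 0 ≤ om V c d n U) (C : Set K) : 0 ≤ lam V c d C := by
  apply Real.sInf_nonneg
  rintro x ⟨n, U, -, -, rfl⟩
  exact h0 n U

theorem bdd (h0 : ∀ (n : ℕ) (U : Set K), 0 ≤ om V c d n U) (C : Set K) : BddBelow (S V c d C) := by
  refine ⟨0, ?_⟩
  rintro x ⟨n, U, -, -, rfl⟩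
  exact h0 n U

theorem ne (C : Set K) : (S V c d C).Nonempty := ⟨om V c d 0 univ, 0, univ, isOpen_univ, subset_univ _, rfl⟩

theorem lam_le (h0 : ∀ (n : ℕ) (U : Set K), 0 ≤ om V c d n U) {C U : Set K} (hU : IsOpen U) (hC : C ⊆ U) (n : ℕ) :
    lam V c d C ≤ om V c d n U := csInf_le (bdd h0 C) ⟨n, U, hU, hC, rfl⟩

theorem exists_lt (C : Set K) {ε : ℝ} (hε : 0 < ε) :
    ∃ (n : ℕ) (U : Set K), IsOpen U ∧ C ⊆ U ∧ om V c d n U < lam V c d C + ε := by
  obtain ⟨x, ⟨n, U, h1, h2, rfl⟩, hx⟩ := exists_lt_of_csInf_lt (ne (V := V) (c := c) (d := d) C)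
    (show sInf (S V c d C) < lam V c d C + ε by unfold lam; linarith)
  exact ⟨n, U, h1, h2, hx⟩

theorem lam_mono (h0 : ∀ (n : ℕ) (U : Set K), 0 ≤ om V c d n U) {C₁ C₂ : Set K} (h : C₁ ⊆ C₂) :
    lam V c d C₁ ≤ lam V c d C₂ := by
  refine le_csInf (ne C₂) ?_
  rintro x ⟨n, U, h1, h2, rfl⟩
  exact lam_le h0 h1 (h.trans h2) n

end MEAM

open MEAM in
theorem specMEA (hOMB : SpecOMB) : SpecMEA := by
  intro K _ _ _ _ V c d M hV hc hcd hM
  obtain ⟨h0, -, hmono, -, hsub, hsup⟩ := hOMB K V c d M hV hc hcd hM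
  have hz : ∀ (n : ℕ) (U : Set K), 0 ≤ om V c d n U := fun n U => (h0 n U).1
  have hunion : ∀ C₁ C₂ : Set K, lam V c d (C₁ ∪ C₂) ≤ lam V c d C₁ + lam V c d C₂ := by
    intro C₁ C₂
    refine le_of_forall_pos_le_add fun ε hε => ?_
    obtain ⟨n₁, U₁, ho₁, hs₁, hl₁⟩ := exists_lt (V := V) (c := c) (d := d) C₁ (half_pos hε)
    obtain ⟨n₂, U₂, ho₂, hs₂, hl₂⟩ := exists_lt (V := V) (c := c) (d := d) C₂ (half_pos hε)
    have h1 := lam_le hz (ho₁.union ho₂) (union_subset_union hs₁ hs₂) (max n₁ n₂)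
    have h2 := hsub (max n₁ n₂) U₁ U₂ ho₁ ho₂
    have h3 := hmono n₁ (max n₁ n₂) U₁ U₁ (le_max_left _ _) subset_rfl
    have h4 := hmono n₂ (max n₁ n₂) U₂ U₂ (le_max_right _ _) subset_rfl
    linarith
  have hdisj : ∀ C₁ C₂ : Set K, IsClosed C₁ → IsClosed C₂ → Disjoint C₁ C₂ →
      lam V c d C₁ + lam V c d C₂ ≤ lam V c d (C₁ ∪ C₂) := by
    intro C₁ C₂ hc₁ hc₂ hd
    refine le_of_forall_pos_le_add fun ε hε => ?_
    obtain ⟨n, U, ho, hs, hl⟩ := exists_lt (V := V) (c := c) (d := d) (C₁ ∪ C₂) hε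
    obtain ⟨O₁, O₂, hO₁, hO₂, hC₁, hC₂, hO⟩ := normal_separation hc₁ hc₂ hd
    have h1 := lam_le hz (ho.inter hO₁) (subset_inter (subset_union_left.trans hs) hC₁) n
    have h2 := lam_le hz (ho.inter hO₂) (subset_inter (subset_union_right.trans hs) hC₂) n
    have h3 := hsup n (U ∩ O₁) (U ∩ O₂) (hO.mono inter_subset_right inter_subset_right)
    have h4 := hmono n n ((U ∩ O₁) ∪ (U ∩ O₂)) U le_rfl (union_subset inter_subset_left inter_subset_left)
    linarith
  let ct : Content K :=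
    { toFun := fun C => (lam V c d (C : Set K)).toNNReal
      mono' := fun C₁ C₂ h => Real.toNNReal_le_toNNReal (lam_mono hz h)
      sup_disjoint' := by
        intro C₁ C₂ hd h1 h2
        rw [← Real.toNNReal_add (lam_nonneg hz _) (lam_nonneg hz _), Compacts.coe_sup]
        congr 1
        exact le_antisymm (hunion _ _) (hdisj _ _ h1 h2 hd)
      sup_le' := by
        intro C₁ C₂
        rw [← Real.toNNReal_add (lam_nonneg hz _) (lam_nonneg hz _), Compacts.coe_sup]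
        exact Real.toNNReal_le_toNNReal (hunion _ _) }
  have hct : ∀ C : Compacts K, ct C = ENNReal.ofReal (lam V c d (C : Set K)) := fun C => rfl
  have hreg : ct.ContentRegular := by
    intro C
    refine le_antisymm (le_iInf₂ fun C' h => ct.mono C C' (h.trans interior_subset)) ?_
    refine ENNReal.le_of_forall_pos_le_add fun ε hε _ => ?_
    obtain ⟨n, U, ho, hs, hl⟩ := exists_lt (V := V) (c := c) (d := d) (C : Set K) (show (0 : ℝ) < ε from hε)
    obtain ⟨L, hL, hCL, hLU⟩ := exists_compact_between C.isCompact ho hs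
    refine (iInf₂_le (⟨L, hL⟩ : Compacts K) hCL).trans ?_
    rw [hct, hct]
    have h1 : lam V c d L ≤ lam V c d (C : Set K) + ε := (lam_le hz ho hLU n).trans hl.le
    calc ENNReal.ofReal (lam V c d ((⟨L, hL⟩ : Compacts K) : Set K)) ≤
        ENNReal.ofReal (lam V c d (C : Set K) + ε) := ENNReal.ofReal_le_ofReal h1
      _ = ENNReal.ofReal (lam V c d (C : Set K)) + ENNReal.ofReal ε :=
        ENNReal.ofReal_add (lam_nonneg hz _) ε.2
      _ = _ := by rw [ENNReal.ofReal_coe_nnreal]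
  have hval : ∀ C : Set K, IsCompact C → (ct.measure C).toReal = lam V c d C := by
    intro C hC
    have h1 := ct.measure_eq_content_of_regular hreg (⟨C, hC⟩ : Compacts K)
    have h2 : ct.measure C = ENNReal.ofReal (lam V c d C) := h1.trans (hct (⟨C, hC⟩ : Compacts K))
    rw [h2, ENNReal.toReal_ofReal (lam_nonneg hz _)]
  refine ⟨ct.measure, ⟨?_, ?_, ?_⟩⟩
  · constructor
    have h1 := ct.measure_eq_content_of_regular hreg (⟨univ, isCompact_univ⟩ : Compacts K)
    have h2 : ct.measure univ = ENNReal.ofReal (lam V c d (univ : Set K)) :=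
      h1.trans (hct (⟨univ, isCompact_univ⟩ : Compacts K))
    rw [h2]
    exact ENNReal.ofReal_lt_top
  · intro C U n hC hU hCU
    rw [hval C hC]
    exact lam_le hz hU hCU n
  · intro C hC ε hε
    obtain ⟨n, U, ho, hs, hl⟩ := exists_lt (V := V) (c := c) (d := d) C hε
    refine ⟨n, U, ho, hs, ?_⟩
    rw [hval C hC]
    exact hl.le

end

end Pool.Agent.Lib.MP5bcdfb.TS
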