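import Pool.Agent.Lib.MP_5bcdfb_an.TS.Spec

/-!
# MP_5bcdfb, TS, module OMB: properties of om
-/

set_option autoImplicit false

namespace Pool.Agent.Lib.MP5bcdfb.TS

open MeasureTheory Set TopologicalSpace Filter Topology

noncomputable section

namespace OMBM

variable {K : Type} [MetricSpace K] [CompactSpace K]

lemma eq_off {f g : C(K, ℝ)} {t : K} (h : t ∉ tsupport (fun s => g s - f s)) : g t = f t := by
  have h1 : (fun s => g s - f s) t = 0 := image_eq_zero_of_notMem_tsupport (f := fun s => g s - f s) h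
  exact sub_eq_zero.1 h1

lemma nn {c : ℝ} (hc : 0 ≤ c) {f : C(K, ℝ)} (h : ∀ t, c ≤ f t) : 0 ≤ f :=
  ContinuousMap.le_def.2 fun t => hc.trans (h t)

lemma inv_nn (n : ℕ) : (0 : ℝ) ≤ 1 / ((n : ℝ) + 1) := by positivity

lemma pr_const {c d : ℝ} (hcd : c ≤ d) {δ : ℝ} (hδ : 0 ≤ δ) (U : Set K) :
    Pr c d δ U (ContinuousMap.const K c) (ContinuousMap.const K c) where
  low := fun _ => le_rfl
  le := fun _ => le_rfl
  upp := fun _ => hcd
  near := fun _ => by simpa using hδ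
  supp := by
    have : (fun t : K => (ContinuousMap.const K c) t - (ContinuousMap.const K c) t) = fun _ => (0 : ℝ) := by
      funext t; simp
    rw [this, tsupport_eq_empty_iff.2 (by rfl)]
    exact empty_subset _

lemma pr_mono {c d δ δ' : ℝ} {U U' : Set K} {f g : C(K, ℝ)} (h : Pr c d δ U f g) (hδ : δ ≤ δ') (hU : U ⊆ U') :
    Pr c d δ' U' f g :=
  ⟨h.low, h.le, h.upp, fun t => (h.near t).trans (by linarith), h.supp.trans hU⟩

lemma split {c d δ : ℝ} {U₁ U₂ : Set K} (h1 : IsOpen U₁) {f g : C(K, ℝ)} (h : Pr c d δ (U₁ ∪ U₂) f g)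
    (h2 : IsOpen U₂) : ∃ k : C(K, ℝ), Pr c d δ U₁ f k ∧ Pr c d δ U₂ k g := by
  set S := tsupport (fun t => g t - f t) with hS
  have hSc : IsClosed S := isClosed_tsupport _
  have hA : IsClosed (S \ U₂) := hSc.sdiff h2
  have hA1 : S \ U₂ ⊆ U₁ := fun t ht => (h.supp ht.1).resolve_right ht.2
  obtain ⟨W, hWo, hAW, hWU⟩ := normal_exists_closure_subset hA h1 hA1
  obtain ⟨W', hWo', hWW', hWU'⟩ := normal_exists_closure_subset isClosed_closure h1 hWU
  have hdis : Disjoint (W'ᶜ) (closure W) := by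
    rw [Set.disjoint_left]
    intro t ht ht'
    exact ht (hWW' ht')
  obtain ⟨φ, f0, f1, f2⟩ := exists_continuous_zero_one_of_isClosed hWo'.isClosed_compl isClosed_closure hdis
  have hφs : tsupport (fun t => φ t) ⊆ U₁ := by
    refine (closure_mono ?_).trans hWU'
    intro t ht
    by_contra hc
    exact ht (f0 hc)
  have gf : ∀ t, 0 ≤ g t - f t := fun t => sub_nonneg.2 (h.le t)
  refine ⟨f + φ * (g - f), ⟨h.low, ?_, ?_, ?_, ?_⟩, ⟨?_, ?_, h.upp, ?_, ?_⟩⟩
  · intro t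
    simp only [ContinuousMap.add_apply, ContinuousMap.mul_apply, ContinuousMap.sub_apply]
    nlinarith [gf t, (f2 t).1]
  · intro t
    simp only [ContinuousMap.add_apply, ContinuousMap.mul_apply, ContinuousMap.sub_apply]
    nlinarith [gf t, (f2 t).2, h.upp t]
  · intro t
    simp only [ContinuousMap.add_apply, ContinuousMap.mul_apply, ContinuousMap.sub_apply]
    nlinarith [gf t, (f2 t).2, h.near t]
  · have e : (fun t => (f + φ * (g - f)) t - f t) = fun t => φ t * (g t - f t) := by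
      funext t
      simp
    rw [e]
    exact (tsupport_mul_subset_left (f := fun t => φ t) (g := fun t => g t - f t)).trans hφs
  · intro t
    simp only [ContinuousMap.add_apply, ContinuousMap.mul_apply, ContinuousMap.sub_apply]
    nlinarith [gf t, (f2 t).1, h.low t]
  · intro t
    simp only [ContinuousMap.add_apply, ContinuousMap.mul_apply, ContinuousMap.sub_apply]
    nlinarith [gf t, (f2 t).2]
  · intro t
    simp only [ContinuousMap.add_apply, ContinuousMap.mul_apply, ContinuousMap.sub_apply]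
    nlinarith [gf t, (f2 t).1, h.near t]
  · have hcl : IsClosed (S ∩ Wᶜ) := hSc.inter hWo.isClosed_compl
    have hsub : Function.support (fun t => g t - (f + φ * (g - f)) t) ⊆ S ∩ Wᶜ := by
      intro t ht
      have ht' : g t - (f + φ * (g - f)) t ≠ 0 := ht
      constructor
      · by_contra hc
        apply ht'
        have := eq_off hc
        simp [this]
      · intro hc
        apply ht'
        have h1 : φ t = 1 := f1 (subset_closure hc)
        simp [h1]
    have hcs : tsupport (fun t => g t - (f + φ * (g - f)) t) ⊆ S ∩ Wᶜ := closure_minimal hsub hcl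
    intro t ht
    by_contra hc
    exact (hcs ht).2 (hAW ⟨(hcs ht).1, hc⟩)

lemma glue (hLOC : SpecLOC) {V : C(K, ℝ) → ℝ} (hV : IsVal V) {c d δ : ℝ} (hc : 0 ≤ c) (hδ : 0 ≤ δ) {U₁ U₂ : Set K}
    (hU : Disjoint U₁ U₂) {f₁ g₁ f₂ g₂ : C(K, ℝ)} (h1 : Pr c d δ U₁ f₁ g₁) (h2 : Pr c d δ U₂ f₂ g₂) :
    ∃ f g : C(K, ℝ), Pr c d δ (U₁ ∪ U₂) f g ∧ V g - V f = (V g₁ - V f₁) + (V g₂ - V f₂) := by
  set S₁ := tsupport (fun t => g₁ t - f₁ t) with hS₁
  set S₂ := tsupport (fun t => g₂ t - f₂ t) with hS₂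
  have hdis : Disjoint S₂ S₁ := (hU.mono h1.supp h2.supp).symm
  obtain ⟨φ, f0, f1, fb⟩ := exists_continuous_zero_one_of_isClosed (isClosed_tsupport _) (isClosed_tsupport _) hdis
  have e0 : ∀ t, t ∈ S₂ → φ t = 0 := fun t ht => f0 ht
  have e1 : ∀ t, t ∈ S₁ → φ t = 1 := fun t ht => f1 ht
  have n1 : ∀ t, 0 ≤ g₁ t - f₁ t := fun t => sub_nonneg.2 (h1.le t)
  have n2 : ∀ t, 0 ≤ g₂ t - f₂ t := fun t => sub_nonneg.2 (h2.le t)
  have z12 : ∀ t, g₁ t - f₁ t = 0 ∨ g₂ t - f₂ t = 0 := by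
    intro t
    by_cases ht : t ∈ S₁
    · right
      have : t ∉ S₂ := fun hc => (Set.disjoint_left.1 hdis hc ht)
      rw [eq_off this]; simp
    · left
      rw [eq_off ht]; simp
  set f : C(K, ℝ) := φ * f₁ + (1 - φ) * f₂ with hf
  have fval : ∀ t, f t = φ t * f₁ t + (1 - φ t) * f₂ t := fun t => by simp [hf]
  have flow : ∀ t, c ≤ f t := by
    intro t
    rw [fval]
    nlinarith [h1.low t, h2.low t, (fb t).1, (fb t).2]
  have fS1 : ∀ t, t ∈ S₁ → f t = f₁ t := fun t ht => by rw [fval, e1 t ht]; ring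
  have fS2 : ∀ t, t ∈ S₂ → f t = f₂ t := fun t ht => by rw [fval, e0 t ht]; ring
  have f1d : ∀ t, f₁ t ≤ d := fun t => (h1.le t).trans (h1.upp t)
  have f2d : ∀ t, f₂ t ≤ d := fun t => (h2.le t).trans (h2.upp t)
  have fupp : ∀ t, f t ≤ d := by
    intro t
    rw [fval]
    nlinarith [f1d t, f2d t, (fb t).1, (fb t).2]
  set G₁ : C(K, ℝ) := f + (g₁ - f₁) with hG₁
  set G₂ : C(K, ℝ) := f + (g₂ - f₂) with hG₂
  set G : C(K, ℝ) := f + (g₁ - f₁) + (g₂ - f₂) with hG
  have v1 : ∀ t, G₁ t = f t + (g₁ t - f₁ t) := fun t => by simp [hG₁]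
  have v2 : ∀ t, G₂ t = f t + (g₂ t - f₂ t) := fun t => by simp [hG₂]
  have v3 : ∀ t, G t = f t + (g₁ t - f₁ t) + (g₂ t - f₂ t) := fun t => by simp [hG]
  have f_nn : 0 ≤ f := nn hc flow
  have fG1 : f ≤ G₁ := ContinuousMap.le_def.2 fun t => by rw [v1]; linarith [n1 t]
  have fG2 : f ≤ G₂ := ContinuousMap.le_def.2 fun t => by rw [v2]; linarith [n2 t]
  have L1 : V G₁ - V f = V g₁ - V f₁ := by
    refine hLOC K V hV f G₁ f₁ g₁ f_nn (nn hc h1.low) fG1 (ContinuousMap.le_def.2 h1.le) ?_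
    intro t
    by_cases ht : t ∈ S₁
    · left
      refine ⟨fS1 t ht, ?_⟩
      rw [v1, fS1 t ht]; ring
    · right
      have := eq_off ht
      refine ⟨?_, this.symm⟩
      rw [v1, this]; ring
  have L2 : V G₂ - V f = V g₂ - V f₂ := by
    refine hLOC K V hV f G₂ f₂ g₂ f_nn (nn hc h2.low) fG2 (ContinuousMap.le_def.2 h2.le) ?_
    intro t
    by_cases ht : t ∈ S₂
    · left
      refine ⟨fS2 t ht, ?_⟩
      rw [v2, fS2 t ht]; ring
    · right
      have := eq_off ht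
      refine ⟨?_, this.symm⟩
      rw [v2, this]; ring
  have hsup : G₁ ⊔ G₂ = G := by
    ext t
    rw [ContinuousMap.sup_apply, v1, v2, v3]
    rcases z12 t with h | h
    · rw [h, add_zero]
      exact max_eq_right (by linarith [n2 t])
    · rw [h, add_zero, add_zero]
      exact max_eq_left (by linarith [n1 t])
  have hinf : G₁ ⊓ G₂ = f := by
    ext t
    rw [ContinuousMap.inf_apply, v1, v2]
    rcases z12 t with h | h
    · rw [h, add_zero]
      exact min_eq_left (by linarith [n2 t])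
    · rw [h, add_zero]
      exact min_eq_right (by linarith [n1 t])
  have hval := hV G₁ G₂ (f_nn.trans fG1) (f_nn.trans fG2)
  rw [hsup, hinf] at hval
  refine ⟨f, G, ⟨flow, ?_, ?_, ?_, ?_⟩, by linarith⟩
  · intro t; rw [v3]; linarith [n1 t, n2 t]
  · intro t
    by_cases ht : t ∈ S₁
    · have ht2 : t ∉ S₂ := fun hc => (Set.disjoint_left.1 hdis hc ht)
      rw [v3, fS1 t ht, eq_off ht2]
      have := h1.upp t
      linarith
    · by_cases ht2 : t ∈ S₂
      · rw [v3, fS2 t ht2, eq_off ht]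
        have := h2.upp t
        linarith
      · rw [v3, eq_off ht, eq_off ht2]
        have := fupp t
        linarith
  · intro t
    rw [v3]
    have a1 := h1.near t
    have a2 := h2.near t
    rcases z12 t with h | h <;> rw [h] <;> linarith
  · have e : (fun t => G t - f t) = fun t => (g₁ t - f₁ t) + (g₂ t - f₂ t) := by
      funext t; rw [v3]; ring
    rw [e]
    have hcl : IsClosed (S₁ ∪ S₂) := (isClosed_tsupport _).union (isClosed_tsupport _)
    have hsub : Function.support (fun t => (g₁ t - f₁ t) + (g₂ t - f₂ t)) ⊆ S₁ ∪ S₂ := by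
      intro t ht
      by_contra hc
      rw [mem_union, not_or] at hc
      apply ht
      show (g₁ t - f₁ t) + (g₂ t - f₂ t) = 0
      rw [eq_off hc.1, eq_off hc.2]; ring
    exact (closure_minimal hsub hcl).trans (union_subset_union h1.supp h2.supp)

end OMBM

open OMBM

theorem specOMB (hLOC : SpecLOC) : SpecOMB := by
  intro K _ _ V c d M hV hc hcd hM
  have key : ∀ {δ : ℝ} {U : Set K} {f g : C(K, ℝ)}, Pr c d δ U f g → V g - V f ≤ 2 * M := by
    intro δ U f g h
    have h1 := hM f (nn hc h.low) (fun t => (h.le t).trans (h.upp t))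
    have h2 := hM g (nn hc fun t => (h.low t).trans (h.le t)) h.upp
    have h3 := abs_le.1 h1
    have h4 := abs_le.1 h2
    linarith
  have bdd : ∀ (n : ℕ) (U : Set K), BddAbove {x : ℝ | ∃ f g : C(K, ℝ), Pr c d (1 / ((n : ℝ) + 1)) U f g ∧ x = V g - V f} := by
    intro n U
    refine ⟨2 * M, ?_⟩
    rintro x ⟨f, g, h, rfl⟩
    exact key h
  have mem0 : ∀ (n : ℕ) (U : Set K), (0 : ℝ) ∈ {x : ℝ | ∃ f g : C(K, ℝ), Pr c d (1 / ((n : ℝ) + 1)) U f g ∧ x = V g - V f} := by
    intro n U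
    exact ⟨_, _, pr_const hcd (inv_nn n) U, by ring⟩
  have hb : ∀ (n : ℕ) (U : Set K) (f g : C(K, ℝ)), Pr c d (1 / ((n : ℝ) + 1)) U f g → V g - V f ≤ om V c d n U :=
    fun n U f g h => le_csSup (bdd n U) ⟨f, g, h, rfl⟩
  have hd : ∀ (n : ℕ) (U : Set K) (ε : ℝ), 0 < ε → ∃ f g : C(K, ℝ), Pr c d (1 / ((n : ℝ) + 1)) U f g ∧
      om V c d n U - ε < V g - V f := by
    intro n U ε hε
    obtain ⟨x, ⟨f, g, h, rfl⟩, hx⟩ := exists_lt_of_lt_csSup ⟨0, mem0 n U⟩ (show om V c d n U - ε < om V c d n U by linarith)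
    exact ⟨f, g, h, hx⟩
  refine ⟨fun n U => ⟨le_csSup (bdd n U) (mem0 n U), csSup_le ⟨0, mem0 n U⟩ ?_⟩, hb, ?_, hd, ?_, ?_⟩
  · rintro x ⟨f, g, h, rfl⟩
    exact key h
  · intro n n' U U' hn hU
    refine csSup_le_csSup (bdd n U') ⟨0, mem0 n' U⟩ ?_
    rintro x ⟨f, g, h, rfl⟩
    refine ⟨f, g, pr_mono h ?_ hU, rfl⟩
    have : (n : ℝ) ≤ n' := by exact_mod_cast hn
    exact one_div_le_one_div_of_le (by positivity) (by linarith)
  · intro n U₁ U₂ h1 h2
    refine csSup_le ⟨0, mem0 n _⟩ ?_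
    rintro x ⟨f, g, h, rfl⟩
    obtain ⟨k, hk1, hk2⟩ := split h1 h h2
    have a1 := hb n U₁ f k hk1
    have a2 := hb n U₂ k g hk2
    linarith
  · intro n U₁ U₂ hU
    refine le_of_forall_pos_le_add fun ε hε => ?_
    obtain ⟨f₁, g₁, p1, q1⟩ := hd n U₁ (ε / 2) (by linarith)
    obtain ⟨f₂, g₂, p2, q2⟩ := hd n U₂ (ε / 2) (by linarith)
    obtain ⟨f, g, hp, hq⟩ := glue hLOC hV hc (inv_nn n) hU p1 p2
    have := hb n _ f g hp
    linarith

end

end Pool.Agent.Lib.MP5bcdfb.TS
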