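import Pool.Agent.Lib.MP_5bcdfb_an.TS.Spec

/-!
# MP_5bcdfb: module TRE. Nested intervals.
-/

set_option autoImplicit false

namespace Pool.Agent.Lib.MP5bcdfb.TS

open MeasureTheory Set TopologicalSpace Filter Topology

namespace TREM

/-- the interval which belongs to a word (the first letter is the last decision) -/
noncomputable def I (m : ℝ) : List Bool → ℝ × ℝ
  | [] => (0, m)
  | (false :: w) => ((I m w).1, (I m w).1 + 2 * ((I m w).2 - (I m w).1) / 3)
  | (true :: w) => ((I m w).1 + ((I m w).2 - (I m w).1) / 3, (I m w).2)

open Classical in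
/-- the word of length `l` of the point `t` -/
noncomputable def word {K : Type} (P : List Bool → Set K) (t : K) : ℕ → List Bool
  | 0 => []
  | (l + 1) => (if t ∈ P (word P t l) then false else true) :: word P t l

theorem word_length {K : Type} (P : List Bool → Set K) (t : K) (l : ℕ) : (word P t l).length = l := by
  induction l with
  | zero => rfl
  | succ l ih => simp [word, ih]

theorem I_prop (m : ℝ) (hm : 0 < m) (w : List Bool) :
    0 ≤ (I m w).1 ∧ (I m w).1 < (I m w).2 ∧ (I m w).2 ≤ m ∧ (I m w).2 - (I m w).1 = m * (2 / 3) ^ w.length := by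
  induction w with
  | nil => simp [I, hm]
  | cons b w ih =>
    obtain ⟨h1, h2, h3, h4⟩ := ih
    cases b with
    | false =>
      simp only [I, List.length_cons]
      refine ⟨h1, by linarith, by linarith, ?_⟩
      rw [pow_succ]
      linear_combination (2 / 3) * h4
    | true =>
      simp only [I, List.length_cons]
      refine ⟨by linarith, by linarith, h3, ?_⟩
      rw [pow_succ]
      linear_combination (2 / 3) * h4

theorem nested {K : Type} (P : List Bool → Set K) (m : ℝ) (hm : 0 < m) (t : K) (l : ℕ) :
    (I m (word P t l)).1 ≤ (I m (word P t (l + 1))).1 ∧ (I m (word P t (l + 1))).2 ≤ (I m (word P t l)).2 := by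
  obtain ⟨h1, h2, h3, h4⟩ := I_prop m hm (word P t l)
  by_cases h : t ∈ P (word P t l)
  · simp only [word, h, if_true, I]
    exact ⟨le_refl _, by linarith⟩
  · simp only [word, h, if_false, I]
    exact ⟨by linarith, le_refl _⟩

theorem meas {K : Type} [MeasurableSpace K] (P : List Bool → Set K) (hP : ∀ w, MeasurableSet (P w)) (l : ℕ) :
    ∀ w : List Bool, MeasurableSet {t | word P t l = w} := by
  induction l with
  | zero =>
    intro w
    have : {t : K | word P t 0 = w} = {t : K | ([] : List Bool) = w} := rfl
    rw [this]
    exact MeasurableSet.const _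
  | succ l ih =>
    intro w
    cases w with
    | nil =>
      have : {t : K | word P t (l + 1) = []} = ∅ := by
        ext t
        simp [word]
      rw [this]
      exact MeasurableSet.empty
    | cons b w =>
      cases b with
      | false =>
        have : {t : K | word P t (l + 1) = false :: w} = {t : K | word P t l = w} ∩ P w := by
          ext t
          simp only [word, mem_ofPred_eq, List.cons.injEq, mem_inter_iff]
          constructor
          · rintro ⟨h1, h2⟩
            refine ⟨h2, ?_⟩
            by_contra hc
            rw [h2] at h1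
            simp [hc] at h1
          · rintro ⟨h1, h2⟩
            refine ⟨?_, h1⟩
            rw [h1]
            simp [h2]
        rw [this]
        exact (ih w).inter (hP w)
      | true =>
        have : {t : K | word P t (l + 1) = true :: w} = {t : K | word P t l = w} ∩ (P w)ᶜ := by
          ext t
          simp only [word, mem_ofPred_eq, List.cons.injEq, mem_inter_iff, mem_compl_iff]
          constructor
          · rintro ⟨h1, h2⟩
            refine ⟨h2, ?_⟩
            intro hc
            rw [h2] at h1
            simp [hc] at h1
          · rintro ⟨h1, h2⟩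
            refine ⟨?_, h1⟩
            rw [h1]
            simp [h2]
        rw [this]
        exact (ih w).inter (hP w).compl

theorem meas_fun {K : Type} [MeasurableSpace K] (P : List Bool → Set K) (hP : ∀ w, MeasurableSet (P w)) (l : ℕ)
    (F : List Bool → ℝ) : Measurable (fun t => F (word P t l)) := by
  intro S hS
  have : (fun t => F (word P t l)) ⁻¹' S = ⋃ w : List Bool, ({t | word P t l = w} ∩ {_t : K | F w ∈ S}) := by
    ext t
    simp only [mem_preimage, mem_iUnion, mem_inter_iff, mem_ofPred_eq]
    constructor
    · intro h
      exact ⟨_, rfl, h⟩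
    · rintro ⟨w, h1, h2⟩
      rw [h1]
      exact h2
  rw [this]
  exact MeasurableSet.iUnion fun w => (meas P hP l w).inter (MeasurableSet.const _)

/-- one step -/
theorem step {K : Type} [MeasurableSpace K] (μ₀ μ₁ μ : Measure K) [IsFiniteMeasure μ₀] [IsFiniteMeasure μ₁]
    (h : ∀ (σ : Measure K) [IsFiniteMeasure σ],
      (∀ A, MeasurableSet A → μ₀ A ≤ σ A) → (∀ A, MeasurableSet A → μ₁ A ≤ σ A) → ∀ A, MeasurableSet A → μ A ≤ σ A)
    (P : Set K) (hP : MeasurableSet P) (h0 : ∀ t, MeasurableSet t → t ⊆ P → μ₁ t ≤ μ₀ t)
    (h1 : ∀ t, MeasurableSet t → t ⊆ Pᶜ → μ₀ t ≤ μ₁ t) :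
    (∀ A, MeasurableSet A → A ⊆ P → μ A ≤ μ₀ A) ∧ ∀ A, MeasurableSet A → A ⊆ Pᶜ → μ A ≤ μ₁ A := by
  have key := h (μ₀.restrict P + μ₁.restrict Pᶜ) (by
    intro A hA
    rw [Measure.add_apply, Measure.restrict_apply hA, Measure.restrict_apply hA, ← measure_inter_add_sdiff A hP]
    refine add_le_add (le_refl _) ?_
    rw [sdiff_eq]
    exact h1 _ (hA.inter hP.compl) inter_subset_right) (by
    intro A hA
    rw [Measure.add_apply, Measure.restrict_apply hA, Measure.restrict_apply hA, ← measure_inter_add_sdiff A hP]
    rw [sdiff_eq]
    refine add_le_add ?_ (le_refl _)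
    exact h0 _ (hA.inter hP) inter_subset_right)
  constructor
  · intro A hA hAP
    have := key A hA
    rw [Measure.add_apply, Measure.restrict_apply hA, Measure.restrict_apply hA, inter_eq_left.2 hAP] at this
    have h2 : A ∩ Pᶜ = ∅ := by
      rw [← sdiff_eq]
      exact sdiff_eq_empty.2 hAP
    rw [h2, measure_empty, add_zero] at this
    exact this
  · intro A hA hAP
    have := key A hA
    rw [Measure.add_apply, Measure.restrict_apply hA, Measure.restrict_apply hA, inter_eq_left.2 hAP] at this
    have h2 : A ∩ P = ∅ := by
      have := disjoint_compl_left.mono_left hAP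
      exact this.inter_eq
    rw [h2, measure_empty, zero_add] at this
    exact this

end TREM

open TREM in
theorem specTRE : SpecTRE := by
  intro K _ m J hm hJ hyp
  -- the Hahn sets
  have hex : ∀ w : List Bool, ∃ P : Set K, MeasurableSet P ∧
      (∀ A, MeasurableSet A → A ⊆ P → J (I m w).1 (I m w).2 A ≤ J (I m (false :: w)).1 (I m (false :: w)).2 A) ∧
      ∀ A, MeasurableSet A → A ⊆ Pᶜ → J (I m w).1 (I m w).2 A ≤ J (I m (true :: w)).1 (I m (true :: w)).2 A := by
    intro w
    have := hJ (I m (false :: w)).1 (I m (false :: w)).2
    have := hJ (I m (true :: w)).1 (I m (true :: w)).2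
    obtain ⟨P, hP, h0, h1⟩ := hahn_decomposition (J (I m (false :: w)).1 (I m (false :: w)).2)
      (J (I m (true :: w)).1 (I m (true :: w)).2)
    obtain ⟨i1, i2, i3, i4⟩ := I_prop m hm w
    have hs := step (J (I m (false :: w)).1 (I m (false :: w)).2) (J (I m (true :: w)).1 (I m (true :: w)).2)
      (J (I m w).1 (I m w).2)
      (by
        intro σ _ ha hb
        exact hyp (I m w).1 ((I m w).1 + ((I m w).2 - (I m w).1) / 3) ((I m w).1 + 2 * ((I m w).2 - (I m w).1) / 3)
          (I m w).2 i1 (by linarith) (by linarith) (by linarith) i3 σ ha hb) P hP h0 h1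
    exact ⟨P, hP, hs.1, hs.2⟩
  choose P hP hPf hPt using hex
  -- the mass
  have hmass : ∀ (l : ℕ) (w : List Bool) (A : Set K), MeasurableSet A → A ⊆ {t | word P t l = w} →
      J 0 m A ≤ J (I m w).1 (I m w).2 A := by
    intro l
    induction l with
    | zero =>
      intro w A hA hAw
      rcases A.eq_empty_or_nonempty with hE | ⟨t, ht⟩
      · rw [hE, measure_empty]
        exact zero_le
      · have h := hAw ht
        have hw : w = [] := h.symm
        subst hw
        exact le_refl _
    | succ l ih =>
      intro w A hA hAw
      cases w with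
      | nil =>
        rcases A.eq_empty_or_nonempty with hE | ⟨t, ht⟩
        · rw [hE, measure_empty]
          exact zero_le
        · have h := hAw ht
          simp [word] at h
      | cons b w =>
        have h1 : A ⊆ {t | word P t l = w} := by
          intro t ht
          have h := hAw ht
          simp only [word, mem_ofPred_eq, List.cons.injEq] at h
          exact h.2
        refine (ih w A hA h1).trans ?_
        cases b with
        | false =>
          refine hPf w A hA ?_
          intro t ht
          have h := hAw ht
          simp only [word, mem_ofPred_eq, List.cons.injEq] at h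
          by_contra hc
          rw [h.2] at h
          simp [hc] at h
        | true =>
          refine hPt w A hA ?_
          intro t ht hc
          have h := hAw ht
          simp only [word, mem_ofPred_eq, List.cons.injEq] at h
          rw [h.2] at h
          simp [hc] at h
  -- the limit
  have hmono : ∀ t, Monotone fun l => (I m (word P t l)).1 := fun t =>
    monotone_nat_of_le_succ fun l => (nested P m hm t l).1
  have hanti : ∀ t, Antitone fun l => (I m (word P t l)).2 := fun t =>
    antitone_nat_of_succ_le fun l => (nested P m hm t l).2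
  have hlk : ∀ t (l k : ℕ), (I m (word P t l)).1 ≤ (I m (word P t k)).2 := by
    intro t l k
    have h1 := hmono t (le_max_left l k)
    have h2 := hanti t (le_max_right l k)
    have h3 := (I_prop m hm (word P t (max l k))).2.1
    simp only at h1 h2
    linarith
  have hbdd : ∀ t, BddAbove (range fun l => (I m (word P t l)).1) := by
    intro t
    refine ⟨m, ?_⟩
    rintro x ⟨l, rfl⟩
    exact (hlk t l 0).trans (I_prop m hm _).2.2.1
  have hlow : ∀ t l, (I m (word P t l)).1 ≤ ⨆ k, (I m (word P t k)).1 := fun t l =>
    le_ciSup (hbdd t) l
  have hupp : ∀ t l, (⨆ k, (I m (word P t k)).1) ≤ (I m (word P t l)).2 := fun t l =>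
    ciSup_le fun k => hlk t k l
  refine ⟨fun t => ⨆ k, (I m (word P t k)).1, ?_, ?_, ?_⟩
  · exact Measurable.iSup fun k => meas_fun P hP k (fun w => (I m w).1)
  · intro t
    exact ⟨(I_prop m hm _).1.trans (hlow t 0), (hupp t 0).trans (I_prop m hm _).2.2.1⟩
  · intro l
    let e := Fintype.equivFin (List.Vector Bool l)
    refine ⟨Fintype.card (List.Vector Bool l), fun i => {t | word P t l = (e.symm i).1},
      fun i => (I m (e.symm i).1).1, fun i => (I m (e.symm i).1).2, ?_, ?_, ?_, ?_⟩
    · intro i
      exact meas P hP l _
    · intro i j hij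
      rw [Set.disjoint_left]
      intro t ht ht'
      apply hij
      have h1 : word P t l = (e.symm i).1 := ht
      have h2 : word P t l = (e.symm j).1 := ht'
      have h3 : e.symm i = e.symm j := Subtype.ext (h1.symm.trans h2)
      exact e.symm.injective h3
    · rw [eq_univ_iff_forall]
      intro t
      rw [mem_iUnion]
      let v : List.Vector Bool l := ⟨word P t l, word_length P t l⟩
      have hv : e.symm (e v) = v := e.symm_apply_apply v
      refine ⟨e v, ?_⟩
      show word P t l = (e.symm (e v)).1
      rw [hv]
    · intro i
      obtain ⟨i1, i2, i3, i4⟩ := I_prop m hm (e.symm i).1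
      rw [(e.symm i).2] at i4
      refine ⟨i1, i2, i3, i4.le, ?_, ?_⟩
      · intro t ht
        have h1 : word P t l = (e.symm i).1 := ht
        have h2 := hlow t l
        have h3 := hupp t l
        rw [h1] at h2 h3
        exact ⟨h2, h3⟩
      · intro A hA hAB
        exact hmass l _ A hA hAB

end Pool.Agent.Lib.MP5bcdfb.TS
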