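import Pool.Agent.Lib.MP_5bcdfb_an.TS.Spec

/-!
# MP_5bcdfb, module TWI: two overlapping intervals
-/

set_option autoImplicit false
set_option linter.unusedSectionVars false

namespace Pool.Agent.Lib.MP5bcdfb.TS

open MeasureTheory Set TopologicalSpace Filter Topology

noncomputable section

namespace TWIM

variable {K : Type} [MetricSpace K] [CompactSpace K] [MeasurableSpace K] [BorelSpace K]

/-- a compact set has an open neighbourhood whose closure is not much larger -/
theorem exists_nhd (σ : Measure K) [IsFiniteMeasure σ] {C : Set K} (hC : IsCompact C) {ε : ℝ}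
    (hε : 0 < ε) : ∃ U : Set K, IsOpen U ∧ C ⊆ U ∧
      (σ (closure U)).toReal ≤ (σ C).toReal + ε := by
  obtain ⟨U', hCU', hU', hlt⟩ := C.exists_isOpen_lt_add (μ := σ) (measure_ne_top σ C)
    (ε := ENNReal.ofReal ε) (by rw [Ne, ENNReal.ofReal_eq_zero, not_le]; exact hε)
  obtain ⟨U, hU, hCU, hUU'⟩ := normal_exists_closure_subset hC.isClosed hU' hCU'
  refine ⟨U, hU, hCU, ?_⟩
  have h1 : σ (closure U) ≤ σ C + ENNReal.ofReal ε := (measure_mono hUU').trans hlt.le
  have h2 := ENNReal.toReal_mono (by finiteness) h1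
  rwa [ENNReal.toReal_add (measure_ne_top σ C) ENNReal.ofReal_ne_top,
    ENNReal.toReal_ofReal hε.le] at h2

/-- one of `N` disjoint sets is small -/
theorem exists_small (σ : Measure K) [IsFiniteMeasure σ] {N : ℕ} (hN : 0 < N) {ε : ℝ}
    (hσ : (σ univ).toReal ≤ ε * N) (T : Fin N → Set K) (hT : ∀ k, MeasurableSet (T k))
    (hd : Pairwise (Function.onFun Disjoint T)) : ∃ k, (σ (T k)).toReal ≤ ε := by
  by_contra hcon
  push Not at hcon
  have h1 : σ (⋃ k, T k) = ∑ k, σ (T k) := measure_iUnion hd hT |>.trans (tsum_fintype _)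
  have h2 : (σ (⋃ k, T k)).toReal = ∑ k, (σ (T k)).toReal := by
    rw [h1, ENNReal.toReal_sum (fun k _ => measure_ne_top σ _)]
  have h3 : (σ (⋃ k, T k)).toReal ≤ (σ univ).toReal :=
    ENNReal.toReal_mono (measure_ne_top σ _) (measure_mono (subset_univ _))
  have : Nonempty (Fin N) := ⟨⟨0, hN⟩⟩
  have h4 : ∑ _k : Fin N, ε < ∑ k, (σ (T k)).toReal :=
    Finset.sum_lt_sum_of_nonempty Finset.univ_nonempty (fun k _ => hcon k)
  rw [Finset.sum_const, Finset.card_univ, Fintype.card_fin, nsmul_eq_mul] at h4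
  linarith [mul_comm ε (N : ℝ)]

/-- the cut off function -/
def psi (s η x : ℝ) : ℝ := max 0 (min 1 ((s + 3 * η / 8 - x) / (η / 4)))

theorem psi_nonneg (s η x : ℝ) : 0 ≤ psi s η x := le_max_left _ _

theorem psi_le_one (s η x : ℝ) : psi s η x ≤ 1 := max_le zero_le_one (min_le_left _ _)

theorem psi_zero {s η x : ℝ} (hη : 0 < η) (h : s + 3 * η / 8 ≤ x) : psi s η x = 0 := by
  unfold psi
  apply max_eq_left
  apply (min_le_right _ _).trans
  exact div_nonpos_of_nonpos_of_nonneg (by linarith) (by linarith)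

theorem psi_one {s η x : ℝ} (hη : 0 < η) (h : x ≤ s + η / 8) : psi s η x = 1 := by
  unfold psi
  rw [min_eq_left, max_eq_right zero_le_one]
  rw [le_div_iff₀ (by linarith)]
  linarith

theorem psi_cont {s η : ℝ} : Continuous (psi s η) := by
  unfold psi
  fun_prop

/-- the intermediate function -/
def mid (s η : ℝ) (f g : C(K, ℝ)) : C(K, ℝ) :=
  ⟨fun t => f t + psi s η (g t) * (g t - f t), by
    have h : Continuous fun t => psi s η (g t) := psi_cont.comp g.continuous
    exact f.continuous.add (h.mul (g.continuous.sub f.continuous))⟩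

theorem mid_apply (s η : ℝ) (f g : C(K, ℝ)) (t : K) :
    mid s η f g t = f t + psi s η (g t) * (g t - f t) := rfl

/-- the main estimate for one admissible pair -/
theorem pair_bound (hLOC : SpecLOC) (hOMB : SpecOMB) {V : C(K, ℝ) → ℝ} {c e₀ e₁ d M : ℝ}
    (hV : IsVal V) (hc : 0 ≤ c) (hce : c ≤ e₀) (hee : e₀ < e₁) (hed : e₁ ≤ d)
    (hM : ∀ f : C(K, ℝ), 0 ≤ f → (∀ t, f t ≤ d) → |V f| ≤ M) {μ₀ μ₁ : Measure K}
    (σ : Measure K) [IsFiniteMeasure σ]
    (h₀ : ∀ A, MeasurableSet A → μ₀ A ≤ σ A) (h₁ : ∀ A, MeasurableSet A → μ₁ A ≤ σ A)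
    {C U : Set K} (hU : IsOpen U) {ε : ℝ} (hε : 0 < ε)
    (hUC : (σ (closure U)).toReal ≤ (σ C).toReal + ε) {n : ℕ}
    (hn0 : ∀ O : Set K, om V c e₁ n O ≤ (μ₀ (closure O)).toReal + ε)
    (hn1 : ∀ O : Set K, om V e₀ d n O ≤ (μ₁ (closure O)).toReal + ε)
    (hn : 1 / ((n : ℝ) + 1) < (e₁ - e₀) / 2) {f g : C(K, ℝ)}
    (hfg : Pr c d (1 / ((n : ℝ) + 1)) U f g) :
    V g - V f ≤ (σ C).toReal + 4 * ε := by
  set δ : ℝ := 1 / ((n : ℝ) + 1) with hδdef
  have hδ : 0 < δ := by positivity
  -- the number of levels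
  obtain ⟨N, hN⟩ := exists_nat_ge ((σ univ).toReal / ε)
  obtain ⟨N', hN', hN0⟩ : ∃ N' : ℕ, (σ univ).toReal ≤ ε * N' ∧ 0 < N' := by
    refine ⟨N + 1, ?_, Nat.succ_pos N⟩
    rw [div_le_iff₀ hε] at hN
    push_cast
    nlinarith
  have hNr : (0 : ℝ) < N' := by exact_mod_cast hN0
  set η : ℝ := (e₁ - e₀ - δ) / N' with hηdef
  have hη : 0 < η := by
    apply div_pos _ hNr
    linarith
  have hηN : η * N' = e₁ - e₀ - δ := by
    rw [hηdef]
    field_simp
  let T : Fin N' → Set K := fun k =>
    {t | e₀ + δ + (k : ℕ) * η ≤ g t ∧ g t ≤ e₀ + δ + (k : ℕ) * η + η / 2}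
  have hTc : ∀ k, IsClosed (T k) := fun k =>
    (isClosed_le continuous_const g.continuous).inter (isClosed_le g.continuous continuous_const)
  have hTd : Pairwise (Function.onFun Disjoint T) := by
    have key : ∀ i j : Fin N', i < j → Disjoint (T i) (T j) := by
      intro i j hij
      rw [Set.disjoint_left]
      rintro t ⟨-, h1⟩ ⟨h2, -⟩
      have h3 : ((i : ℕ) : ℝ) + 1 ≤ ((j : ℕ) : ℝ) := by exact_mod_cast hij
      nlinarith
    intro i j hij
    rcases lt_or_gt_of_ne hij with h | h
    · exact key i j h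
    · exact (key j i h).symm
  obtain ⟨k, hk⟩ := exists_small σ hN0 hN' T (fun k => (hTc k).measurableSet) hTd
  set s : ℝ := e₀ + δ + (k : ℕ) * η with hsdef
  have hs0 : e₀ + δ ≤ s := by
    have : (0 : ℝ) ≤ (k : ℕ) * η := by positivity
    linarith
  have hs1 : s + η ≤ e₁ := by
    have h1 : ((k : ℕ) : ℝ) + 1 ≤ N' := by exact_mod_cast k.2
    have h2 : (((k : ℕ) : ℝ) + 1) * η ≤ N' * η := mul_le_mul_of_nonneg_right h1 hη.le
    have h3 : N' * η = e₁ - e₀ - δ := by rw [mul_comm]; exact hηN
    rw [hsdef]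
    linarith
  set h : C(K, ℝ) := mid s η f g with hhdef
  have happ : ∀ t, h t = f t + psi s η (g t) * (g t - f t) := fun t => rfl
  have hfh : ∀ t, f t ≤ h t := by
    intro t
    rw [happ]
    have := mul_nonneg (psi_nonneg s η (g t)) (sub_nonneg.mpr (hfg.le t))
    linarith
  have hhg : ∀ t, h t ≤ g t := by
    intro t
    rw [happ]
    have := mul_le_mul_of_nonneg_right (psi_le_one s η (g t)) (sub_nonneg.mpr (hfg.le t))
    linarith
  have hhf : ∀ t, h t ≠ f t → g t ≠ f t ∧ g t < s + 3 * η / 8 := by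
    intro t ht
    constructor
    · intro hgf
      apply ht
      rw [happ, hgf]
      ring
    · by_contra hcon
      apply ht
      rw [happ, psi_zero hη (not_lt.mp hcon)]
      ring
  have hgh : ∀ t, g t ≠ h t → g t ≠ f t ∧ s + η / 8 < g t := by
    intro t ht
    constructor
    · intro hgf
      apply ht
      rw [happ, hgf]
      ring
    · by_contra hcon
      apply ht
      rw [happ, psi_one hη (not_lt.mp hcon)]
      ring
  -- supports
  have hsup1 : tsupport (fun t => h t - f t) ⊆ U ∩ {t | g t < s + η / 2} := by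
    have h1 : tsupport (fun t => h t - f t) ⊆
        tsupport (fun t => g t - f t) ∩ {t | g t ≤ s + 3 * η / 8} := by
      apply closure_minimal
      · intro t ht
        have h2 := hhf t (sub_ne_zero.mp ht)
        exact ⟨subset_closure (sub_ne_zero.mpr h2.1), h2.2.le⟩
      · exact (isClosed_tsupport _).inter (isClosed_le g.continuous continuous_const)
    intro t ht
    have h2 := h1 ht
    refine ⟨hfg.supp h2.1, ?_⟩
    have h3 : g t ≤ s + 3 * η / 8 := h2.2
    show g t < s + η / 2
    linarith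
  have hsup2 : tsupport (fun t => g t - h t) ⊆ U ∩ {t | s < g t} := by
    have h1 : tsupport (fun t => g t - h t) ⊆
        tsupport (fun t => g t - f t) ∩ {t | s + η / 8 ≤ g t} := by
      apply closure_minimal
      · intro t ht
        have h2 := hgh t (sub_ne_zero.mp ht)
        exact ⟨subset_closure (sub_ne_zero.mpr h2.1), h2.2.le⟩
      · exact (isClosed_tsupport _).inter (isClosed_le continuous_const g.continuous)
    intro t ht
    have h2 := h1 ht
    refine ⟨hfg.supp h2.1, ?_⟩
    have h3 : s + η / 8 ≤ g t := h2.2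
    show s < g t
    linarith
  -- cut at `e₁`
  set E₁ : C(K, ℝ) := ContinuousMap.const K e₁ with hE₁
  set E₀ : C(K, ℝ) := ContinuousMap.const K e₀ with hE₀
  have hE1 : ∀ t, E₁ t = e₁ := fun t => rfl
  have hE0 : ∀ t, E₀ t = e₀ := fun t => rfl
  have hf0 : (0 : C(K, ℝ)) ≤ f := by
    rw [ContinuousMap.le_def]
    intro t
    exact hc.trans (hfg.low t)
  have hh0 : (0 : C(K, ℝ)) ≤ h := by
    rw [ContinuousMap.le_def]
    intro t
    exact (hc.trans (hfg.low t)).trans (hfh t)
  have hfh' : f ≤ h := by rw [ContinuousMap.le_def]; exact hfh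
  have hhg' : h ≤ g := by rw [ContinuousMap.le_def]; exact hhg
  have hinf : ∀ (p q : C(K, ℝ)) (t : K), (p ⊓ q) t = min (p t) (q t) := fun p q t => rfl
  have hsup : ∀ (p q : C(K, ℝ)) (t : K), (p ⊔ q) t = max (p t) (q t) := fun p q t => rfl
  have hcase1 : ∀ t, (f t = h t) ∨ ((f ⊓ E₁) t = f t ∧ (h ⊓ E₁) t = h t) := by
    intro t
    by_cases hft : f t = h t
    · exact Or.inl hft
    · right
      have h2 := hhf t (fun h' => hft h'.symm)
      have h3 := hhg t
      have h4 := hfh t
      rw [hinf, hinf, hE1]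
      exact ⟨min_eq_left (by linarith), min_eq_left (by linarith)⟩
  have hcase2 : ∀ t, (h t = g t) ∨ ((h ⊔ E₀) t = h t ∧ (g ⊔ E₀) t = g t) := by
    intro t
    by_cases hft : h t = g t
    · exact Or.inl hft
    · right
      have h2 := hgh t (fun h' => hft h'.symm)
      have h3 := hfg.near t
      have h4 := hfh t
      have h5 := hhg t
      rw [hsup, hsup, hE0]
      exact ⟨max_eq_left (by linarith), max_eq_left (by linarith)⟩
  have L1 : V h - V f = V (h ⊓ E₁) - V (f ⊓ E₁) := by
    apply hLOC K V hV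
    · exact hf0
    · rw [ContinuousMap.le_def]
      intro t
      rw [hinf, hE1]
      show (0 : ℝ) ≤ min (f t) e₁
      exact le_min (hc.trans (hfg.low t)) (by linarith)
    · exact hfh'
    · exact inf_le_inf_right _ hfh'
    · intro t
      rcases hcase1 t with h1 | ⟨h1, h2⟩
      · right
        exact ⟨h1, by rw [hinf, hinf, h1]⟩
      · left
        exact ⟨h1.symm, h2.symm⟩
  have L2 : V g - V h = V (g ⊔ E₀) - V (h ⊔ E₀) := by
    apply hLOC K V hV
    · exact hh0
    · exact hh0.trans le_sup_left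
    · exact hhg'
    · exact sup_le_sup_right hhg' _
    · intro t
      rcases hcase2 t with h1 | ⟨h1, h2⟩
      · right
        exact ⟨h1, by rw [hsup, hsup, h1]⟩
      · left
        exact ⟨h1.symm, h2.symm⟩
  have P1 : Pr c e₁ δ (U ∩ {t | g t < s + η / 2}) (f ⊓ E₁) (h ⊓ E₁) := by
    refine ⟨?_, ?_, ?_, ?_, ?_⟩
    · intro t
      rw [hinf, hE1]
      exact le_min (hfg.low t) (by linarith)
    · intro t
      rw [hinf, hinf]
      exact min_le_min_right _ (hfh t)
    · intro t
      rw [hinf, hE1]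
      exact min_le_right _ _
    · intro t
      rw [hinf, hinf, hE1]
      have h3 := hfg.near t
      have h5 := hhg t
      rcases le_total (f t) e₁ with h6 | h6
      · rw [min_eq_left h6]
        exact (min_le_left _ _).trans (by linarith)
      · rw [min_eq_right h6]
        exact (min_le_right _ _).trans (by linarith)
    · have h7 : (fun t => (h ⊓ E₁) t - (f ⊓ E₁) t) = fun t => h t - f t := by
        funext t
        rcases hcase1 t with h1 | ⟨h1, h2⟩
        · rw [hinf, hinf, h1]
          ring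
        · rw [h1, h2]
      rw [h7]
      exact hsup1
  have P2 : Pr e₀ d δ (U ∩ {t | s < g t}) (h ⊔ E₀) (g ⊔ E₀) := by
    refine ⟨?_, ?_, ?_, ?_, ?_⟩
    · intro t
      rw [hsup, hE0]
      exact le_max_right _ _
    · intro t
      rw [hsup, hsup]
      exact max_le_max_right _ (hhg t)
    · intro t
      rw [hsup, hE0]
      exact max_le (hfg.upp t) (by linarith)
    · intro t
      rw [hsup, hsup, hE0]
      have h3 := hfg.near t
      have h4 := hfh t
      apply max_le
      · have := le_max_left (h t) e₀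
        linarith
      · have := le_max_right (h t) e₀
        linarith
    · have h7 : (fun t => (g ⊔ E₀) t - (h ⊔ E₀) t) = fun t => g t - h t := by
        funext t
        rcases hcase2 t with h1 | ⟨h1, h2⟩
        · rw [hsup, hsup, h1]
          ring
        · rw [h1, h2]
      rw [h7]
      exact hsup2
  have hM1 : ∀ f : C(K, ℝ), 0 ≤ f → (∀ t, f t ≤ e₁) → |V f| ≤ M :=
    fun f hf hfe => hM f hf (fun t => (hfe t).trans hed)
  have B1 := (hOMB K V c e₁ M hV hc (by linarith) hM1).2.1 n _ _ _ P1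
  have B2 := (hOMB K V e₀ d M hV (hc.trans hce) (by linarith) hM).2.1 n _ _ _ P2
  have A1 := hn0 (U ∩ {t | g t < s + η / 2})
  have A2 := hn1 (U ∩ {t | s < g t})
  set O₁ : Set K := U ∩ {t | g t < s + η / 2} with hO₁
  set O₂ : Set K := U ∩ {t | s < g t} with hO₂
  have S1 : (μ₀ (closure O₁)).toReal ≤ (σ (closure O₁)).toReal :=
    ENNReal.toReal_mono (measure_ne_top σ _) (h₀ _ isClosed_closure.measurableSet)
  have S2 : (μ₁ (closure O₂)).toReal ≤ (σ (closure O₂)).toReal :=
    ENNReal.toReal_mono (measure_ne_top σ _) (h₁ _ isClosed_closure.measurableSet)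
  have hsum : (σ (closure O₁)).toReal + (σ (closure O₂)).toReal ≤
      (σ (closure U)).toReal + (σ (T k)).toReal := by
    have h1 := measure_union_add_inter (μ := σ) (closure O₁)
      (isClosed_closure (s := O₂)).measurableSet
    rw [← ENNReal.toReal_add (measure_ne_top σ _) (measure_ne_top σ _), ← h1,
      ENNReal.toReal_add (measure_ne_top σ _) (measure_ne_top σ _)]
    apply add_le_add
    · apply ENNReal.toReal_mono (measure_ne_top σ _) (measure_mono _)
      exact union_subset (closure_mono inter_subset_left) (closure_mono inter_subset_left)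
    · apply ENNReal.toReal_mono (measure_ne_top σ _) (measure_mono _)
      rintro t ⟨ht1, ht2⟩
      have h2 : closure O₁ ⊆ {t | g t ≤ s + η / 2} := by
        apply closure_minimal
        · intro t ht
          have h9 : g t < s + η / 2 := ht.2
          exact h9.le
        · exact isClosed_le g.continuous continuous_const
      have h3 : closure O₂ ⊆ {t | s ≤ g t} := by
        apply closure_minimal
        · intro t ht
          have h9 : s < g t := ht.2
          exact h9.le
        · exact isClosed_le continuous_const g.continuous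
      exact ⟨h3 ht2, h2 ht1⟩
  linarith

end TWIM

open TWIM in
theorem specTWI (hLOC : SpecLOC) (hOMB : SpecOMB) (hLIM : SpecLIM) : SpecTWI := by
  intro K _ _ _ _ V c e₀ e₁ d M hV hc hce hee hed hM μ μ₀ μ₁ hμ hμ₀ hμ₁ σ _ h₀ h₁ A hA
  have := hμ.fin
  -- compact sets
  have key : ∀ C : Set K, IsCompact C → μ C ≤ σ C := by
    intro C hC
    rw [← ENNReal.toReal_le_toReal (measure_ne_top μ C) (measure_ne_top σ C)]
    apply le_of_forall_pos_le_add
    intro ε' hε'
    set ε := ε' / 4 with hεdef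
    have hε : 0 < ε := by positivity
    obtain ⟨U, hU, hCU, hUC⟩ := exists_nhd σ hC hε
    have hM1 : ∀ f : C(K, ℝ), 0 ≤ f → (∀ t, f t ≤ e₁) → |V f| ≤ M :=
      fun f hf hfe => hM f hf (fun t => (hfe t).trans hed)
    obtain ⟨n₀, hn₀⟩ := hLIM K V c e₁ M hV hc (by linarith) hM1 μ₀ hμ₀ ε hε
    obtain ⟨n₁, hn₁⟩ := hLIM K V e₀ d M hV (hc.trans hce) (by linarith) hM μ₁ hμ₁ ε hε
    obtain ⟨n₂, hn₂⟩ := exists_nat_one_div_lt (show (0 : ℝ) < (e₁ - e₀) / 2 by linarith)
    set n := max n₀ (max n₁ n₂) with hn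
    have hn2 : 1 / ((n : ℝ) + 1) < (e₁ - e₀) / 2 := by
      refine lt_of_le_of_lt ?_ hn₂
      apply one_div_le_one_div_of_le (by positivity)
      have : n₂ ≤ n := (le_max_right _ _).trans (le_max_right _ _)
      have : (n₂ : ℝ) ≤ n := by exact_mod_cast this
      linarith
    have hO := (hOMB K V c d M hV hc (by linarith) hM).2.2.2.1 n U
    have h1 := hμ.le C U n hC hU hCU
    have h2 : om V c d n U ≤ (σ C).toReal + 4 * ε := by
      apply le_of_forall_pos_le_add
      intro x hx
      obtain ⟨f, g, hfg, hlt⟩ := hO x hx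
      have h3 := pair_bound hLOC hOMB hV hc hce hee hed hM σ h₀ h₁ hU hε hUC
        (fun O => hn₀ n (le_max_left _ _) O)
        (fun O => hn₁ n ((le_max_left _ _).trans (le_max_right _ _)) O) hn2 hfg
      linarith
    have h4 : 4 * ε = ε' := by rw [hεdef]; ring
    linarith
  rw [hA.measure_eq_iSup_isCompact_of_ne_top (measure_ne_top μ A)]
  refine iSup_le fun C => iSup_le fun hCA => iSup_le fun hC => ?_
  exact (key C hC).trans (measure_mono hCA)

end

end Pool.Agent.Lib.MP5bcdfb.TS
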