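import Pool.Agent.Lib.MP_5bcdfb_an.TS.Thm
import Pool.Agent.Lib.MP_5bcdfb_an.TS.LOC
import Pool.Agent.Lib.MP_5bcdfb_an.TS.BDD
import Pool.Agent.Lib.MP_5bcdfb_an.TS.OMB
import Pool.Agent.Lib.MP_5bcdfb_an.TS.MEA
import Pool.Agent.Lib.MP_5bcdfb_an.TS.LIM
import Pool.Agent.Lib.MP_5bcdfb_an.TS.TWI
import Pool.Agent.Lib.MP_5bcdfb_an.TS.TRE
import Pool.Agent.Lib.MP_5bcdfb_an.TS.LUS
import Pool.Agent.Lib.MP_5bcdfb_an.TS.GLU
import Pool.Agent.Lib.MP_5bcdfb_an.TS.FWD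
import Pool.Agent.Lib.MP_5bcdfb_an.TS.BWD
import Pool.Agent.Lib.MP_5bcdfb_an.TS.CAN
import Pool.Agent.Lib.MP_5bcdfb_an.TS.LIP

/-!
# MP_5bcdfb, TS: assembly of the modules
-/

set_option autoImplicit false

namespace Pool.Agent.Lib.MP5bcdfb.TS

theorem allLIM : SpecLIM := specLIM (specOMB specLOC)

theorem allTWI : SpecTWI := specTWI specLOC (specOMB specLOC) allLIM

theorem allMEA : SpecMEA := specMEA (specOMB specLOC)

theorem allFWD : SpecFWD :=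
  specFWD (specBDD specLOC) allMEA allTWI specTRE specLUS (specGLU specLOC (specOMB specLOC))

theorem allLIP : SpecLIP := specLIP specCAN

end Pool.Agent.Lib.MP5bcdfb.TS
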