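import Mathlib

/-!
# MP_5bcdfb: at which star bodies has a valuation to be radial continuous? Definitions and exact statements

THEOREM (`Results/MP_5bcdfb_an/TestSets.lean`). Let `K` be a compact metric space and `D` a set of functions in `C(K)^+`. Then
(a) every valuation on `C(K)^+` which is continuous at every `f ∈ D` is uniformly continuous on bounded sets, if and only if
(b) for every `a ∈ C(K)^+` and every finite Borel measure `μ ≠ 0` there is `f ∈ D` with `μ {f = a} > 0`.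
(The known positive answer to Q1 is the case `K = S^(n-1)`, `D = C(K)^+`.) The functions which are constant on some nonempty open set
have (b), the Lipschitz functions on the sphere do not.

Module `XXX` is the file `TS/XXX.lean` with `theorem specXXX (hYYY : SpecYYY) .. : SpecXXX` (the modules named after USES, in this
order) in the namespace `Pool.Agent.Lib.MP5bcdfb.TS`, own lemmas in the namespace `XXXM`. Every module imports only
`Pool.Agent.Lib.MP_5bcdfb_an.TS.Spec`. All proofs below are complete.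

IDEA. For `f ≤ g` the number `V g - V f` depends only on the values of `f, g` on `{f ≠ g}` (LOC). For an interval `[c, d]` let
`om V c d n U` be the supremum of `V g - V f` over the pairs `c ≤ f ≤ g ≤ d`, `g ≤ f + 1/(n+1)`, `tsupport (g - f) ⊆ U`. It is
subadditive in `U`, additive for disjoint `U`, and so its limit is a measure `μ_(c,d)` (MEA), the size of the jumps of `V` with values in
`[c, d]`. For two overlapping intervals `μ_(c,d) ≤ max (μ_(c,e₁), μ_(e₀,d))` (TWI), no mass is lost, and by nested intervals there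
is a Borel function `a` such that, for `μ = μ_(0,m)`, the jumps of size `μ` can be found arbitrarily near the graph of `a` (TREE). By Lusin's
theorem and (b) some `f ∈ D` equals `a` on a set of positive measure; there `V` jumps near `f` (GLU), so `V` is not continuous at `f`.
-/

set_option autoImplicit false

namespace Pool.Agent.Lib.MP5bcdfb.TS

open MeasureTheory Set TopologicalSpace Filter Topology

noncomputable section

/-! ## Definitions -/

/-- valuations on `C(K)^+` -/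
def IsVal {K : Type} [TopologicalSpace K] (V : C(K, ℝ) → ℝ) : Prop :=
  ∀ f g : C(K, ℝ), 0 ≤ f → 0 ≤ g → V f + V g = V (f ⊔ g) + V (f ⊓ g)

/-- continuity at `f`, as a function on `C(K)^+` with the sup norm -/
def ContAt {K : Type} [TopologicalSpace K] [CompactSpace K] (V : C(K, ℝ) → ℝ) (f : C(K, ℝ)) : Prop :=
  ∀ ε : ℝ, 0 < ε → ∃ r : ℝ, 0 < r ∧ ∀ g : C(K, ℝ), 0 ≤ g → ‖g - f‖ < r → |V g - V f| < ε

/-- uniform continuity on bounded sets -/
def UCB {K : Type} [TopologicalSpace K] [CompactSpace K] (V : C(K, ℝ) → ℝ) : Prop :=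
  ∀ m ε : ℝ, 0 < m → 0 < ε → ∃ δ : ℝ, 0 < δ ∧ ∀ f g : C(K, ℝ), 0 ≤ f → 0 ≤ g → ‖f‖ ≤ m → ‖g‖ ≤ m →
    ‖f - g‖ < δ → |V f - V g| ≤ ε

/-- the condition (b) on a set `D` of functions -/
def Test {K : Type} [TopologicalSpace K] [MeasurableSpace K] (D : Set C(K, ℝ)) : Prop :=
  ∀ (a : C(K, ℝ)) (μ : Measure K) [IsFiniteMeasure μ], 0 ≤ a → μ ≠ 0 → ∃ f ∈ D, 0 < μ {t | f t = a t}

/-- admissible pairs: `c ≤ f ≤ g ≤ d`, `g ≤ f + δ`, `g - f` supported in `U` -/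
structure Pr {K : Type} [TopologicalSpace K] (c d δ : ℝ) (U : Set K) (f g : C(K, ℝ)) : Prop where
  low : ∀ t, c ≤ f t
  le : ∀ t, f t ≤ g t
  upp : ∀ t, g t ≤ d
  near : ∀ t, g t ≤ f t + δ
  supp : tsupport (fun t => g t - f t) ⊆ U

/-- the largest increment of `V` over the admissible pairs -/
def om {K : Type} [TopologicalSpace K] (V : C(K, ℝ) → ℝ) (c d : ℝ) (n : ℕ) (U : Set K) : ℝ :=
  sSup {x : ℝ | ∃ f g : C(K, ℝ), Pr c d (1 / ((n : ℝ) + 1)) U f g ∧ x = V g - V f}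

/-- `μ` is the jump measure of `V` for the interval `[c, d]` -/
structure IsJm {K : Type} [TopologicalSpace K] [MeasurableSpace K] (V : C(K, ℝ) → ℝ) (c d : ℝ) (μ : Measure K) : Prop where
  fin : IsFiniteMeasure μ
  le : ∀ (C U : Set K) (n : ℕ), IsCompact C → IsOpen U → C ⊆ U → (μ C).toReal ≤ om V c d n U
  ex : ∀ C : Set K, IsCompact C → ∀ ε : ℝ, 0 < ε → ∃ (n : ℕ) (U : Set K), IsOpen U ∧ C ⊆ U ∧ om V c d n U ≤ (μ C).toReal + ε

/-! ## Statements -/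

/-- **LOC** (50 lines). Increments are local.
PROOF. Let `p = f ⊔ f'`, `q = g ⊔ g'`. Pointwise (two cases) `g ⊔ p = q` and `g ⊓ p = f`, so `V g + V p = V q + V f`; in the same way
`V g' + V p = V q + V f'`. Subtract. -/
def SpecLOC : Prop := ∀ (K : Type) [TopologicalSpace K] (V : C(K, ℝ) → ℝ), IsVal V → ∀ f g f' g' : C(K, ℝ),
  0 ≤ f → 0 ≤ f' → f ≤ g → f' ≤ g' → (∀ t, (f t = f' t ∧ g t = g' t) ∨ (f t = g t ∧ f' t = g' t)) →
  V g - V f = V g' - V f'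

/-- **BDD** (220 lines), USES LOC. Boundedness on bounded sets.
PROOF. (1) Let `t₀ ∈ K`, `x ≥ 0`, `f` as in the hypothesis, `f t₀ = x`, and `r > 0` with `|V g - V f| < 1` for `g ≥ 0`, `‖g - f‖ < r`. Let `W` be
the open set `|f s - x| < r/4`, and let `p ≤ q` be functions with values in `[x - r/4, x + r/4] ∩ [0, ∞)` with `tsupport (q - p) ⊆ W`. Then
`|V q - V p| ≤ 2`: with a continuous `0 ≤ φ ≤ 1`, `φ = 1` on `S = tsupport (q - p)`, `φ = 0` off `W` (Urysohn) put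
`p' = f + φ (p - f) = (1 - φ) f + φ p ≥ 0`, `q' = p' + (q - p)`; on `W` `|p - f| ≤ r/2`, so `‖p' - f‖ ≤ r/2 < r`, and `q' = q` on `S`, `q' = p'` off `S`, so
`‖q' - f‖ < r`; LOC (`p' = p`, `q' = q` on `S`; off `S` `p = q`, `p' = q'`).
(2) So every point of the compact set `K × [0, m]` has a box `W × (x - r/4, x + r/4)` as in (1); by Lebesgue's number lemma (or a finite
subcover and `IsCompact` arguments) there is `η > 0` such that for every `t ∈ K`, `y ∈ [0, m]` the set `ball t η × [y - η, y + η]` is in one of these boxes.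
(3) Let `0 ≤ h ≤ m` and let `c_k = k η`. `V h - V 0 = ∑_k (V (h ⊓ c_(k+1)) - V (h ⊓ c_k))` (`k < m/η + 1`; `h ⊓ 0 = 0`), and by LOC the summand is
`V ((h ⊔ c_k) ⊓ c_(k+1)) - V c_k` (at `t` with `h t ≤ c_k` both increments vanish). Cover `K` by finitely many balls `ball t_j η` and
take a partition of unity `φ_1, …, φ_J` with `tsupport φ_j ⊆ ball t_j η`; with `h_k = (h ⊔ c_k) ⊓ c_(k+1)` and
`p_j = c_k + (φ_1 + … + φ_j)(h_k - c_k)`: `V h_k - V c_k = ∑_j (V p_j - V p_(j-1))`, every term is at most 2 in absolute value by (1).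
So `|V h| ≤ |V 0| + 2 J (m/η + 2)`. (If `K` is empty there is one function only.) -/
def SpecBDD : Prop := ∀ (K : Type) [MetricSpace K] [CompactSpace K] (V : C(K, ℝ) → ℝ), IsVal V →
  (∀ (t : K) (x : ℝ), 0 ≤ x → ∃ f : C(K, ℝ), 0 ≤ f ∧ f t = x ∧ ContAt V f) →
  ∀ m : ℝ, ∃ M : ℝ, ∀ f : C(K, ℝ), 0 ≤ f → (∀ t, f t ≤ m) → |V f| ≤ M

/-- **OMB** (180 lines), USES LOC. Properties of `om`.
PROOF. The set in the definition contains `0` (`f = g = c`) and is bounded by `2 M`. Monotonicity in `U` and `n` is clear.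
Subadditivity: let `(f, g)` be admissible for `U₁ ∪ U₂`, `S = tsupport (g - f)`, compact. `S \ U₂` is closed and contained in `U₁`: by normality
there are an open `W ⊇ S \ U₂` with `closure W ⊆ U₁` and `φ` continuous, `0 ≤ φ ≤ 1`, `φ = 1` on `W`, `tsupport φ ⊆ U₁` (take
`S \ U₂ ⊆ W ⊆ closure W ⊆ W' ⊆ closure W' ⊆ U₁` and Urysohn for `closure W` and the complement of `W'`). `h = f + φ (g - f)`: `f ≤ h ≤ g`, `(f, h)` is
admissible for `U₁`, and `g - h = (1 - φ)(g - f)` vanishes on the open set `W` and off `S`, so its `tsupport` is in `S \ W ⊆ U₂`.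
Superadditivity: `(f₁, g₁)`, `(f₂, g₂)` admissible for `U₁`, `U₂`; `S_i = tsupport (g_i - f_i) ⊆ U_i` are disjoint closed sets, `φ = 1` on `S₁` and `0` on
`S₂` (Urysohn). `f = φ f₁ + (1 - φ) f₂ ∈ [c, d]`, `G₁ = f + (g₁ - f₁)`, `G₂ = f + (g₂ - f₂)`, `G = f + (g₁ - f₁) + (g₂ - f₂)`. LOC:
`V G_i - V f = V g_i - V f_i` (on `S_i` `f = f_i`, `G_i = g_i`). `G₁ ⊔ G₂ = G`, `G₁ ⊓ G₂ = f`, so `V G - V f` is the sum, and `(f, G)` is admissible. -/
def SpecOMB : Prop := ∀ (K : Type) [MetricSpace K] [CompactSpace K] (V : C(K, ℝ) → ℝ) (c d M : ℝ), IsVal V → 0 ≤ c → c ≤ d →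
  (∀ f : C(K, ℝ), 0 ≤ f → (∀ t, f t ≤ d) → |V f| ≤ M) →
  (∀ (n : ℕ) (U : Set K), 0 ≤ om V c d n U ∧ om V c d n U ≤ 2 * M) ∧
  (∀ (n : ℕ) (U : Set K) (f g : C(K, ℝ)), Pr c d (1 / ((n : ℝ) + 1)) U f g → V g - V f ≤ om V c d n U) ∧
  (∀ (n n' : ℕ) (U U' : Set K), n ≤ n' → U ⊆ U' → om V c d n' U ≤ om V c d n U') ∧
  (∀ (n : ℕ) (U : Set K) (ε : ℝ), 0 < ε → ∃ f g : C(K, ℝ), Pr c d (1 / ((n : ℝ) + 1)) U f g ∧ om V c d n U - ε < V g - V f) ∧
  (∀ (n : ℕ) (U₁ U₂ : Set K), IsOpen U₁ → IsOpen U₂ → om V c d n (U₁ ∪ U₂) ≤ om V c d n U₁ + om V c d n U₂) ∧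
  ∀ (n : ℕ) (U₁ U₂ : Set K), Disjoint U₁ U₂ → om V c d n U₁ + om V c d n U₂ ≤ om V c d n (U₁ ∪ U₂)

/-- **MEA** (150 lines), USES OMB. The jump measure exists.
PROOF. For compact `C` let `λ(C)` be the infimum of the `om V c d n U`, `n ∈ ℕ`, `U ⊇ C` open (`≥ 0`). `λ` is a `MeasureTheory.Content`: monotone;
`λ(C₁ ∪ C₂) ≤ λ(C₁) + λ(C₂)` (near optimal `(n₁, U₁)`, `(n₂, U₂)`, take `max n₁ n₂`, `U₁ ∪ U₂`); for disjoint `C₁, C₂` and `(n, U)`, `U ⊇ C₁ ∪ C₂`, take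
disjoint open `O_i ⊇ C_i`: `om n U ≥ om n ((U ∩ O₁) ∪ (U ∩ O₂)) ≥ om n (U ∩ O₁) + om n (U ∩ O₂) ≥ λ(C₁) + λ(C₂)`. It is regular
(`ContentRegular`): for `(n, U)` with `om n U ≤ λ(C) + ε` take a compact `C'` with `C ⊆ interior C' ⊆ C' ⊆ U`, `λ(C') ≤ om n U`. So
`μ = content.measure` has `μ C = λ(C)` (`Content.measure_eq_content_of_regular`); it is finite as `univ` is compact. -/
def SpecMEA : Prop := ∀ (K : Type) [MetricSpace K] [CompactSpace K] [MeasurableSpace K] [BorelSpace K] (V : C(K, ℝ) → ℝ)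
  (c d M : ℝ), IsVal V → 0 ≤ c → c ≤ d → (∀ f : C(K, ℝ), 0 ≤ f → (∀ t, f t ≤ d) → |V f| ≤ M) → ∃ μ : Measure K, IsJm V c d μ

/-- **LIM** (70 lines), USES OMB. Uniform convergence.
PROOF. `ex` for `C = univ` gives `n₀` with `om n₀ univ ≤ μ univ + ε/2`. Let `n ≥ n₀`, `O` open (any set), `C' ⊆ (closure O)ᶜ` compact with
`μ C' ≥ μ ((closure O)ᶜ) - ε/2` (inner regularity of finite measures on a compact metric space). Then
`om n O ≤ om n univ - om n ((closure O)ᶜ) ≤ om n₀ univ - μ C' ≤ μ univ + ε/2 - μ ((closure O)ᶜ) + ε/2 = μ (closure O) + ε`. -/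
def SpecLIM : Prop := ∀ (K : Type) [MetricSpace K] [CompactSpace K] [MeasurableSpace K] [BorelSpace K] (V : C(K, ℝ) → ℝ)
  (c d M : ℝ), IsVal V → 0 ≤ c → c ≤ d → (∀ f : C(K, ℝ), 0 ≤ f → (∀ t, f t ≤ d) → |V f| ≤ M) →
  ∀ μ : Measure K, IsJm V c d μ → ∀ ε : ℝ, 0 < ε → ∃ n₀ : ℕ, ∀ n : ℕ, n₀ ≤ n → ∀ O : Set K, om V c d n O ≤ (μ (closure O)).toReal + ε

/-- **TWI** (230 lines), USES LOC, OMB, LIM. Two overlapping intervals `[c, e₁]`, `[e₀, d]`, `e₀ < e₁`: no mass is lost.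
PROOF. It is enough that `μ C ≤ σ C + 5 ε` for compact `C` (inner regularity of `μ`). Let `U ⊇ C` be open with `σ (closure U) ≤ σ C + ε` (outer
regularity, normality), `N ≥ 1` with `σ univ ≤ ε N`, `n` larger than both `n₀` of LIM (for `μ₀` and `μ₁`, with this `ε`) and `1/(n+1) < (e₁ - e₀)/2`. Let `(f, g)` be admissible for
`(c, d, n, U)`. `η = (e₁ - e₀ - 1/(n+1))/N > 0`, `s_k = e₀ + 1/(n+1) + k η` (`k < N`). The closed sets `T_k = {s_k ≤ g ≤ s_k + η/2}` are disjoint, so some `k`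
has `σ T_k ≤ σ univ / N ≤ ε`. `ψ(x) = max 0 (min 1 ((s_k + 3η/8 - x)/(η/4)))` is `1` for `x ≤ s_k + η/8`, `0` for `x ≥ s_k + 3η/8`; `h = f + ψ(g)(g - f)`, `f ≤ h ≤ g`.
`tsupport (h - f) ⊆ tsupport (g - f) ∩ {g ≤ s_k + 3η/8} ⊆ O₁ = U ∩ {g < s_k + η/2}` and `tsupport (g - h) ⊆ O₂ = U ∩ {s_k < g}`.
By LOC `V h - V f = V (h ⊓ e₁) - V (f ⊓ e₁)` (where `h ≠ f` we have `h ≤ g < s_k + η/2 ≤ e₁`), an admissible pair for `(c, e₁, n, O₁)`
(`(h ⊓ e₁) - (f ⊓ e₁) = h - f` pointwise), and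
`V g - V h = V (g ⊔ e₀) - V (h ⊔ e₀)` (where `g ≠ h`: `h ≥ f ≥ g - 1/(n+1) ≥ s_k - 1/(n+1) ≥ e₀`), admissible for `(e₀, d, n, O₂)`. By LIM
`V g - V f ≤ μ₀ (closure O₁) + μ₁ (closure O₂) + 2 ε ≤ σ (closure O₁) + σ (closure O₂) + 2 ε ≤ σ (closure U) + σ T_k + 2 ε ≤ σ C + 4 ε`, because
`closure O₁ ∪ closure O₂ ⊆ closure U` and `closure O₁ ∩ closure O₂ ⊆ T_k`. So `μ C ≤ om V c d n U ≤ σ C + 4 ε` (`IsJm.le`). -/
def SpecTWI : Prop := ∀ (K : Type) [MetricSpace K] [CompactSpace K] [MeasurableSpace K] [BorelSpace K] (V : C(K, ℝ) → ℝ)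
  (c e₀ e₁ d M : ℝ), IsVal V → 0 ≤ c → c ≤ e₀ → e₀ < e₁ → e₁ ≤ d → (∀ f : C(K, ℝ), 0 ≤ f → (∀ t, f t ≤ d) → |V f| ≤ M) →
  ∀ μ μ₀ μ₁ : Measure K, IsJm V c d μ → IsJm V c e₁ μ₀ → IsJm V e₀ d μ₁ →
  ∀ (σ : Measure K) [IsFiniteMeasure σ], (∀ A, MeasurableSet A → μ₀ A ≤ σ A) → (∀ A, MeasurableSet A → μ₁ A ≤ σ A) →
    ∀ A, MeasurableSet A → μ A ≤ σ A

/-- **TRE** (200 lines), no `V`: nested intervals. `J c d` is a family of finite measures (later the jump measures), `c < d` in `[0, m]`.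
PROOF. Families: level `l` is a finite partition `B` of `K` in measurable sets with intervals `[c i, d i]`, `d i - c i ≤ m (2/3)^l`, such that
`J 0 m A ≤ J (c i) (d i) A` for measurable `A ⊆ B i`. Level `0`: `B = univ`, `[0, m]`. Step: let `e₀ = c + (d - c)/3`, `e₁ = c + 2 (d - c)/3`, `P` from
`MeasureTheory.hahn_decomposition (J c e₁) (J e₀ d)` (so `J e₀ d ≤ J c e₁` inside `P`, and `≥` inside `Pᶜ`),
`σ = (J c e₁).restrict P + (J e₀ d).restrict Pᶜ ≥ J c e₁, J e₀ d`. The hypothesis gives `J c d ≤ σ`. Replace `B i` by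
`B i ∩ P` with `[c, e₁]` and `B i ∩ Pᶜ` with `[e₀, d]`: for `A ⊆ B i ∩ P` `J 0 m A ≤ J c d A ≤ σ A = J c e₁ A`; length `2/3` of the old one.
Take successive refinements by recursion; `a_l = c i` on `B i` (level `l`) is measurable, `a_l ≤ a_(l+1) ≤ a_l + m (2/3)^l`
(nested intervals), `a = lim a_l = sup a_l` is measurable and lies in all the intervals of its point. -/
def SpecTRE : Prop := ∀ (K : Type) [MeasurableSpace K] (m : ℝ) (J : ℝ → ℝ → Measure K), 0 < m →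
  (∀ c d : ℝ, IsFiniteMeasure (J c d)) →
  (∀ c e₀ e₁ d : ℝ, 0 ≤ c → c < e₀ → e₀ < e₁ → e₁ < d → d ≤ m → ∀ (σ : Measure K) [IsFiniteMeasure σ],
    (∀ A, MeasurableSet A → J c e₁ A ≤ σ A) → (∀ A, MeasurableSet A → J e₀ d A ≤ σ A) → ∀ A, MeasurableSet A → J c d A ≤ σ A) →
  ∃ a : K → ℝ, Measurable a ∧ (∀ t, 0 ≤ a t ∧ a t ≤ m) ∧ ∀ l : ℕ, ∃ (N : ℕ) (B : Fin N → Set K) (c d : Fin N → ℝ),
    (∀ i, MeasurableSet (B i)) ∧ (∀ i j, i ≠ j → Disjoint (B i) (B j)) ∧ (⋃ i, B i) = univ ∧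
    ∀ i, 0 ≤ c i ∧ c i < d i ∧ d i ≤ m ∧ d i - c i ≤ m * (2 / 3) ^ l ∧ (∀ t ∈ B i, c i ≤ a t ∧ a t ≤ d i) ∧
      ∀ A, MeasurableSet A → A ⊆ B i → J 0 m A ≤ J (c i) (d i) A

/-- **LUS** (130 lines). Lusin's theorem in the form which is needed.
PROOF. For `l ∈ ℕ` the sets `B_(l,i) = {i 2^(-l) ≤ a < (i+1) 2^(-l)}`, `0 ≤ i ≤ m 2^l`, are a measurable partition; compact `C_(l,i) ⊆ B_(l,i)` with
`∑_i μ (B_(l,i) \ C_(l,i)) ≤ μ univ / 2^(l+2)` (inner regularity); `E_l = ⋃_i C_(l,i)` is compact, `E = ⋂_l E_l`, `μ Eᶜ ≤ μ univ / 2`. On `E` the function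
`a` is within `2^(-l)` of a function which is constant on each of the finitely many disjoint compact sets `C_(l,i)` and so continuous on `E`:
`a` is continuous on `E` (uniform limit). Tietze (`ContinuousMap.exists_restrict_eq` or `exists_extension`), then `⊔ 0`. -/
def SpecLUS : Prop := ∀ (K : Type) [MetricSpace K] [CompactSpace K] [MeasurableSpace K] [BorelSpace K] (μ : Measure K)
  [IsFiniteMeasure μ] (m : ℝ) (a : K → ℝ), μ ≠ 0 → Measurable a → (∀ t, 0 ≤ a t ∧ a t ≤ m) →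
  ∃ (E : Set K) (b : C(K, ℝ)), IsCompact E ∧ 0 < μ E ∧ 0 ≤ b ∧ ∀ t ∈ E, b t = a t

/-- **GLU** (200 lines), USES LOC, OMB. Many jumps near `f` add up.
PROOF. For an open set `U` say that `x` is reached in `U` if there are `0 ≤ p ≤ q` with `‖p - f‖ < r`, `‖q - f‖ < r`, `tsupport (q - p) ⊆ U` and
`V q - V p ≥ x`. (1) If `(p₁, q₁)`, `(p₂, q₂)` reach `x₁` in `U₁` and `x₂` in `U₂`, `U₁ ∩ U₂ = ∅`, then `x₁ + x₂` is reached in `U₁ ∪ U₂`: `φ = 1` on `S₁ = tsupport (q₁ - p₁)`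
and `0` on `S₂`, `p = φ p₁ + (1 - φ) p₂`, `q = p + (q₁ - p₁) + (q₂ - p₂)` as in OMB (`q = q_i` on `S_i`, `q = p` elsewhere; norms: compact space,
every value is within the maximum of the four distances). (2) For every `i` and every open `U ⊇ C i` every `x < μ_i (C i)`
is reached in `U`: let `U' = U ∩ {|f - c i| < r/2}`, open, contains `C i` (`c i ≤ f ≤ d i < c i + r/2` there); `μ_i (C i) ≤ om V (c i) (d i) 0 U'` (`IsJm.le`), OMB gives
`(f', g')` admissible with `V g' - V f' > x`. With `φ = 1` on `S = tsupport (g' - f')`, `φ = 0` off `U'`: `p = (1 - φ) f + φ f'`, `q = p + (g' - f')`: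
`|p - f| ≤ φ |f' - f| ≤ r'` with `r' < r` (`f' ∈ [c i, d i]`, `|f - c i| < r/2`, `d i - c i < r/2` on `U'`), `q = g'` on `S` and `q = p` off `S`. LOC.
(The strict bound `‖·‖ < r`: `|f' - f| ≤ |f' - c i| + |c i - f| ≤ (d i - c i) + r/2` on `U'`.)
(3) Induction on the number of compact sets: for all `x_i < μ_i (C i)` the sum `∑ x_i` is reached in every open `U ⊇ ⋃ C i`: separate `C i` from the
union of the others by disjoint open sets (`SeparatedNhds`). Hence `∑ x_i ≤ V q - V p ≤ ε`, let `x_i → μ_i (C i)`. (`N = 0`: `0 ≤ ε` by `p = q = f`.) -/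
def SpecGLU : Prop := ∀ (K : Type) [MetricSpace K] [CompactSpace K] [MeasurableSpace K] [BorelSpace K] (V : C(K, ℝ) → ℝ)
  (m M : ℝ), IsVal V → (∀ f : C(K, ℝ), 0 ≤ f → (∀ t, f t ≤ m) → |V f| ≤ M) → ∀ (f : C(K, ℝ)) (r ε : ℝ), 0 ≤ f → 0 < r →
  (∀ p q : C(K, ℝ), 0 ≤ p → 0 ≤ q → ‖p - f‖ < r → ‖q - f‖ < r → V q - V p ≤ ε) →
  ∀ (N : ℕ) (C : Fin N → Set K) (c d : Fin N → ℝ) (μ : Fin N → Measure K), (∀ i, IsCompact (C i)) →
  (∀ i j, i ≠ j → Disjoint (C i) (C j)) → (∀ i, 0 ≤ c i ∧ c i < d i ∧ d i ≤ m ∧ d i - c i < r / 2) →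
  (∀ i, ∀ t ∈ C i, c i ≤ f t ∧ f t ≤ d i) → (∀ i, IsJm V (c i) (d i) (μ i)) → ∑ i, (μ i (C i)).toReal ≤ ε

/-- **FWD** (180 lines), USES BDD, MEA, TWI, TRE, LUS, GLU. The criterion is sufficient.
PROOF. Let `D` satisfy `Test`, `V` continuous at every `f ∈ D`, `f ≥ 0`, and suppose that `UCB V` fails: `m, ε > 0` and `f_n, g_n` with norms `≤ m`,
`‖f_n - g_n‖ < 1/(n+1)`, `|V f_n - V g_n| > ε`. With `s = f_n ⊔ g_n` one of `|V s - V f_n|`, `|V s - V g_n|` is `> ε/2`; so for every `n` there are `0 ≤ p ≤ q ≤ m`, `q ≤ p + 1/(n+1)`,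
`|V q - V p| > ε/2`, and for `V' = V` or `V' = -V` (again a valuation, continuous at `D`) `V' q - V' p > ε/2` for infinitely many `n`. Write `V` for `V'`.
`Test` for `μ = Dirac t`, `a = x` constant gives the hypothesis of BDD. So `M` for `m`; `om V 0 m n univ ≥ ε/2` for infinitely many `n`
and so for all `n`. Choose jump measures `J c d` (MEA; `0` for other `c, d`). `J 0 m univ ≥ ε/2 > 0` (`IsJm.ex` for `univ`). TRE (hypothesis from TWI)
gives `a`; LUS for `μ = J 0 m` gives `E`, `b`. `Test` for `b` and `μ.restrict E` gives `f ∈ D` with `μ (E ∩ {f = b}) > 0`;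
`E' = E ∩ {f = b}` is compact, `f = a` on `E'`. Let `ε' = μ(E')/4`, `r` from `ContAt V f` for `ε'/2`: `V q - V p < ε'` for `p, q ≥ 0` within `r` of `f`. Let `l` be such
that `m (2/3)^l < r/2`, `B, c, d` of TRE, compact `C i ⊆ E' ∩ B i` with `∑ μ (C i) ≥ μ(E')/2` (inner regularity, finitely many). By GLU
`∑ J (c i) (d i) (C i) ≤ ε'`, but `J (c i) (d i) (C i) ≥ μ (C i)`: `μ(E')/2 ≤ μ(E')/4`, a contradiction. (In `Test` one may assume `0 ≤ f`: hypothesis.) -/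
def SpecFWD : Prop := ∀ (K : Type) [MetricSpace K] [CompactSpace K] [MeasurableSpace K] [BorelSpace K] (D : Set C(K, ℝ)),
  (∀ f ∈ D, 0 ≤ f) → Test D → ∀ V : C(K, ℝ) → ℝ, IsVal V → (∀ f ∈ D, ContAt V f) → UCB V

/-- **BWD** (120 lines). The criterion is necessary.
PROOF. Suppose that `a ≥ 0`, `μ ≠ 0` finite and `μ {f = a} = 0` for all `f ∈ D`. `V f = (μ {a < f}).toReal`. `{a < f ⊔ g}` is the union and `{a < f ⊓ g}` the
intersection of `{a < f}` and `{a < g}`, so `V` is a valuation (`measure_union_add_inter`). Continuity at `f ∈ D`: the sets `{|f - a| ≤ 1/(k+1)}` decrease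
to `{f = a}`, so one has measure `< ε`; if `‖g - f‖ < 1/(k+1)` the symmetric difference of `{a < f}` and `{a < g}` is in it. `V a = 0`, and for `δ > 0`
`V (a + δ/2) = μ univ > 0`, `‖(a + δ/2) - a‖ < δ`: not uniformly continuous on the functions of norm `≤ ‖a‖ + 1` (take `δ ≤ 1`). -/
def SpecBWD : Prop := ∀ (K : Type) [MetricSpace K] [CompactSpace K] [MeasurableSpace K] [BorelSpace K] (D : Set C(K, ℝ)),
  (∀ f ∈ D, 0 ≤ f) → (∀ V : C(K, ℝ) → ℝ, IsVal V → (∀ f ∈ D, ContAt V f) → UCB V) → Test D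

/-- **CST** (90 lines). The functions which are constant on some nonempty open set.
PROOF. `K` has two points `t₀ ≠ t₁`; `μ ≠ 0` is not concentrated on both, say `μ ({t₀}ᶜ) > 0`. For some `ρ > 0` `μ ((ball t₀ (2ρ))ᶜ) > 0` (continuity from below).
`φ = 1` on `ball t₀ ρ`, `0` off `ball t₀ (2ρ)`, `f = (1 - φ) a + φ (a t₀)`. -/
def SpecCST : Prop := ∀ (K : Type) [MetricSpace K] [CompactSpace K] [MeasurableSpace K] [BorelSpace K] [Nontrivial K],
  Test {f : C(K, ℝ) | 0 ≤ f ∧ ∃ U : Set K, IsOpen U ∧ U.Nonempty ∧ ∃ x : ℝ, ∀ t ∈ U, f t = x}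

/-- **CAN** (160 lines). A Cantor function in a form without Cantor sets: `π` maps `[0, 1)` into `[0, 1]`, contracts dyadic intervals of length `2^(-n)`
to diameter `≤ 3^(-n)`, and has a continuous left inverse.
PROOF. For `y ∈ [0, 1)` let `b_k(y) = ⌊2^(k+1) y⌋ mod 2` (binary digits), `π y = ∑_k 2 b_k(y) 3^(-(k+1))`. If `⌊2^n y⌋ = ⌊2^n y'⌋` the first `n` digits agree, and
`|π y - π y'| ≤ ∑_(k ≥ n) 2 · 3^(-(k+1)) = 3^(-n)`. `π` is strictly increasing: at the first digit where `y < y'` differ (`b_k(y) = 0`, `b_k(y') = 1`)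
`π y' - π y ≥ 2 · 3^(-(k+1)) - 3^(-(k+1)) > 0` (the digits of `y` are not all `1` from some place on, or use the nonstrict estimate for the tail:
`∑_(j>k) 2 · 3^(-(j+1)) = 3^(-(k+1))`). `u x = sSup ({0} ∪ {y ∈ [0,1) : π y ≤ x})` is nondecreasing, in `[0, 1]`, `u (π y) = y`; its range contains `[0, 1)`, so it has no
jumps and is continuous (`Monotone.continuous_of_dense_range`-type lemmas, applied to `u` as a map onto a dense subset of `[0, 1]`; or directly: if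
`u x < y < u x'` then `x < π y ≤ x'` or so). Measurability of `π`: monotone on `[0, 1)`; put `π y = 0` elsewhere. -/
def SpecCAN : Prop := ∃ (π : ℝ → ℝ) (u : ℝ → ℝ), Measurable π ∧ Continuous u ∧ (∀ x, 0 ≤ u x ∧ u x ≤ 1) ∧
  (∀ y, 0 ≤ π y ∧ π y ≤ 1) ∧ (∀ y, 0 ≤ y → y < 1 → u (π y) = y) ∧
  ∀ (n : ℕ) (y y' : ℝ), 0 ≤ y → y < 1 → 0 ≤ y' → y' < 1 → ⌊(2 : ℝ) ^ n * y⌋ = ⌊(2 : ℝ) ^ n * y'⌋ → |π y - π y'| ≤ (1 / 3) ^ n

/-- **LIP** (160 lines), USES CAN. Lipschitz functions on the sphere do not satisfy the criterion.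
PROOF. `γ(x) = (cos x, sin x, 0, …) ∈ S^(n-1)` (coordinates `0` and `1` of `Fin n`), `|γ(x) - γ(x')| ≤ |x - x'|` (or `≤ 2 |x - x'|`). Let `a(s) = u (arcsin (s 1))`, continuous,
`a (γ x) = u x` for `0 ≤ x ≤ 1 < π/2`, and `μ` the image of Lebesgue measure on `[0, 1)` under `y ↦ γ (π y)` (measurable), a probability measure. Let `f` be
Lipschitz with constant `L`. `μ {f = a} = |{y ∈ [0,1) : f (γ (π y)) = y}|`. For each `n` and `k < 2^n` the `y` of this set in `[k 2^(-n), (k+1) 2^(-n))`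
differ by at most `2 L 3^(-n)` (`y = f (γ (π y))`, `y' = f (γ (π y'))`), so their measure is at most `4 L 3^(-n)`: altogether `≤ 2^n · 4 L 3^(-n) → 0`. -/
def SpecLIP : Prop := ∀ n : ℕ, 2 ≤ n →
  ¬ Test {f : C(Metric.sphere (0 : EuclideanSpace ℝ (Fin n)) 1, ℝ) | 0 ≤ f ∧ ∃ L : NNReal, LipschitzWith L f}

end

end Pool.Agent.Lib.MP5bcdfb.TS
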