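import Pool.Agent.Lib.MP_5bcdfb_an.TS.Spec
import Pool.Agent.Lib.MP_5bcdfb_an.TS.DNS

/-!
# MP_5bcdfb, TS: the theorem from the modules
-/

set_option autoImplicit false

namespace Pool.Agent.Lib.MP5bcdfb.TS

open MeasureTheory Set TopologicalSpace Filter Topology

lemma sphere_neBot {n : ℕ} (hn : 2 ≤ n) (t : Metric.sphere (0 : EuclideanSpace ℝ (Fin n)) 1) :
    (𝓝[≠] t).NeBot := by
  have hrank : 1 < Module.rank ℝ (EuclideanSpace ℝ (Fin n)) := by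
    rw [← Module.finrank_eq_rank, finrank_euclideanSpace, Fintype.card_fin]
    exact_mod_cast hn
  have hc := isPreconnected_sphere hrank (0 : EuclideanSpace ℝ (Fin n)) 1
  have : PreconnectedSpace (Metric.sphere (0 : EuclideanSpace ℝ (Fin n)) 1) :=
    isPreconnected_iff_preconnectedSpace.1 hc
  have : Nontrivial (Metric.sphere (0 : EuclideanSpace ℝ (Fin n)) 1) := by
    refine ⟨⟨t, -t, ?_⟩⟩
    intro h
    exact ne_neg_of_mem_unit_sphere ℝ t h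
  have : ConnectedSpace (Metric.sphere (0 : EuclideanSpace ℝ (Fin n)) 1) := ⟨⟨t⟩⟩
  exact ConnectedSpace.neBot_nhdsWithin_compl_of_nontrivial_of_t1space t

theorem criterion (hFWD : SpecFWD) (hBWD : SpecBWD) (K : Type) [MetricSpace K] [CompactSpace K] [MeasurableSpace K]
    [BorelSpace K] (D : Set C(K, ℝ)) (hD : ∀ f ∈ D, 0 ≤ f) :
    (∀ V : C(K, ℝ) → ℝ, IsVal V → (∀ f ∈ D, ContAt V f) → UCB V) ↔ Test D :=
  ⟨hBWD K D hD, hFWD K D hD⟩

theorem sphere_dense (hFWD : SpecFWD) {n : ℕ} (hn : 2 ≤ n)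
    (V : C(Metric.sphere (0 : EuclideanSpace ℝ (Fin n)) 1, ℝ) → ℝ) (hV : IsVal V)
    (h : ∀ f, 0 ≤ f → (∃ U : Set (Metric.sphere (0 : EuclideanSpace ℝ (Fin n)) 1), IsOpen U ∧ Dense U ∧
      ∀ t ∈ U, ∀ᶠ s in 𝓝 t, f s = f t) → ContAt V f) : UCB V :=
  hFWD _ _ (fun _ hf => hf.1) (dns _ (sphere_neBot hn)) V hV (fun f hf => h f hf.1 hf.2)

theorem sphere_lip (hBWD : SpecBWD) (hLIP : SpecLIP) {n : ℕ} (hn : 2 ≤ n) :
    ∃ V : C(Metric.sphere (0 : EuclideanSpace ℝ (Fin n)) 1, ℝ) → ℝ, IsVal V ∧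
      (∀ f : C(Metric.sphere (0 : EuclideanSpace ℝ (Fin n)) 1, ℝ), 0 ≤ f → (∃ L : NNReal, LipschitzWith L f) →
        ContAt V f) ∧ ¬ UCB V := by
  by_contra hc
  push Not at hc
  refine hLIP n hn (hBWD _ _ (fun _ hf => hf.1) fun V hV hVc => hc V hV fun f hf hL => hVc f ⟨hf, hL⟩)

end Pool.Agent.Lib.MP5bcdfb.TS
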